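import Mathlib

set_option autoImplicit false
set_option linter.all false

namespace Pool.Agent.Helper777.Prof

/-- affine group: pairs (v, m) with v a vector over the group ring and m in M -/
@[ext] structure Wr (k M ι : Type) [CommRing k] where
  v : ι → MonoidAlgebra k M
  m : M

namespace Wr
variable {k M ι : Type} [CommRing k] [Group M]

noncomputable instance : Mul (Wr k M ι) :=
  ⟨fun a b => ⟨a.v + (MonoidAlgebra.of k M a.m) • b.v, a.m * b.m⟩⟩
noncomputable instance : One (Wr k M ι) := ⟨⟨0, 1⟩⟩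
noncomputable instance : Inv (Wr k M ι) :=
  ⟨fun a => ⟨-((MonoidAlgebra.of k M a.m⁻¹) • a.v), a.m⁻¹⟩⟩

theorem mul_v (a b : Wr k M ι) : (a * b).v = a.v + (MonoidAlgebra.of k M a.m) • b.v := rfl
theorem mul_m (a b : Wr k M ι) : (a * b).m = a.m * b.m := rfl
theorem one_v : (1 : Wr k M ι).v = 0 := rfl
theorem one_m : (1 : Wr k M ι).m = 1 := rfl
theorem inv_v (a : Wr k M ι) : (a⁻¹).v = -((MonoidAlgebra.of k M a.m⁻¹) • a.v) := rfl
theorem inv_m (a : Wr k M ι) : (a⁻¹).m = a.m⁻¹ := rfl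

noncomputable instance : Group (Wr k M ι) :=
  Group.ofLeftAxioms
    (by
      intro a b c
      ext1
      · simp only [mul_v, mul_m, map_mul, smul_add, mul_smul, add_assoc]
      · simp only [mul_m, mul_assoc])
    (by
      intro a
      ext1
      · simp only [mul_v, one_v, one_m, map_one, one_smul, zero_add]
      · simp only [mul_m, one_m, one_mul])
    (by
      intro a
      ext1
      · simp only [mul_v, inv_v, inv_m, one_v, neg_add_cancel]
      · simp only [mul_m, inv_m, one_m, inv_mul_cancel])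

end Wr

/-- Magnus homomorphism -/
noncomputable def mag {ι M : Type} [Group M] [DecidableEq ι] (π : FreeGroup ι →* M) :
    FreeGroup ι →* Wr ℤ M ι :=
  FreeGroup.lift (fun i => ⟨Pi.single i 1, π (FreeGroup.of i)⟩)

/-- free soluble group of derived length at most n -/
abbrev Dq (ι : Type) (n : ℕ) := FreeGroup ι ⧸ derivedSeries (FreeGroup ι) n

def pn (ι : Type) (n : ℕ) : FreeGroup ι →* Dq ι n := QuotientGroup.mk' _

/-- residually finite (without surjectivity) -/
def RF0 (G : Type) [Group G] : Prop :=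
  ∀ g : G, g ≠ 1 → ∃ (Q : Type) (_ : Group Q) (_ : Finite Q) (f : G →* Q), f g ≠ 1

/-- the module S/(span R) and its generator -/
abbrev CC {M : Type} [Group M] (R : Set (MonoidAlgebra ℤ M)) :=
  MonoidAlgebra ℤ M ⧸ (Submodule.span (MonoidAlgebra ℤ M) R)

noncomputable def c0 {M : Type} [Group M] (R : Set (MonoidAlgebra ℤ M)) : CC R :=
  Submodule.Quotient.mk 1

/-- support in the derived subgroup -/
def inB {M : Type} [Group M] (f : MonoidAlgebra ℤ M) : Prop :=
  ∀ m ∈ f.coeff.support, m ∈ commutator M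

/-- the kernel of the derivation given by ψ, inside the Magnus group -/
noncomputable def HH {ι M C : Type} [Group M] [DecidableEq ι] [AddCommGroup C]
    [Module (MonoidAlgebra ℤ M) C] (π : FreeGroup ι →* M)
    (ψ : (ι → MonoidAlgebra ℤ M) →ₗ[MonoidAlgebra ℤ M] C) : Subgroup (Wr ℤ M ι) where
  carrier := {w | w ∈ (mag π).range ∧ ψ w.v = 0}
  mul_mem' := by
    rintro a b ⟨ha, ha'⟩ ⟨hb, hb'⟩
    refine ⟨mul_mem ha hb, ?_⟩
    rw [Wr.mul_v, map_add, map_smul, ha', hb', smul_zero, add_zero]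
  one_mem' := ⟨one_mem _, by rw [Wr.one_v, map_zero]⟩
  inv_mem' := by
    rintro a ⟨ha, ha'⟩
    refine ⟨inv_mem ha, ?_⟩
    rw [Wr.inv_v, map_neg, map_smul, ha', smul_zero, neg_zero]

/-- abelianised group ring -/
noncomputable def aug (k M : Type) [CommRing k] [Group M] :
    MonoidAlgebra k M →+* MonoidAlgebra k (Abelianization M) :=
  MonoidAlgebra.mapDomainRingHom k (Abelianization.of : M →* Abelianization M)

/-- idempotent-like elements for all finite index normal subgroups -/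
def Estar {M : Type} [Group M] (R : Set (MonoidAlgebra ℤ M)) : Prop :=
  ∀ K : Subgroup M, ∀ _ : K.Normal, K.FiniteIndex →
    ∃ e : MonoidAlgebra ℤ M, inB e ∧ e • c0 R = c0 R ∧
      MonoidAlgebra.mapDomain (QuotientGroup.mk' K) e = 0


/-- functoriality of Wr -/
noncomputable def Wr.map {k k' M M' ι : Type} [CommRing k] [CommRing k'] [Group M] [Group M']
    (φ : M →* M') (Φ : MonoidAlgebra k M →+* MonoidAlgebra k' M')
    (h : ∀ m, Φ (MonoidAlgebra.of k M m) = MonoidAlgebra.of k' M' (φ m)) :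
    Wr k M ι →* Wr k' M' ι where
  toFun w := ⟨fun i => Φ (w.v i), φ w.m⟩
  map_one' := by
    ext1
    · funext i
      simp only [Wr.one_v, Pi.zero_apply, map_zero]
    · simp only [Wr.one_m, map_one]
  map_mul' a b := by
    ext1
    · funext i
      simp only [Wr.mul_v, Pi.add_apply, Pi.smul_apply, smul_eq_mul, map_add, map_mul, h]
    · simp only [Wr.mul_m, map_mul]

/-- reduction of the group ring modulo K and p -/
noncomputable def red {M : Type} [Group M] (K : Subgroup M) [K.Normal] (p : ℕ) :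
    MonoidAlgebra ℤ M →+* MonoidAlgebra (ZMod p) (M ⧸ K) :=
  (MonoidAlgebra.mapRingHom (M ⧸ K) (Int.castRingHom (ZMod p))).comp
    (MonoidAlgebra.mapDomainRingHom ℤ (QuotientGroup.mk' K))

theorem red_of {M : Type} [Group M] (K : Subgroup M) [K.Normal] (p : ℕ) (m : M) :
    red K p (MonoidAlgebra.of ℤ M m) = MonoidAlgebra.of (ZMod p) (M ⧸ K) (QuotientGroup.mk' K m) := by
  simp [red, MonoidAlgebra.of_apply, MonoidAlgebra.mapDomainRingHom_apply, MonoidAlgebra.mapDomain_single]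

noncomputable def wred {M ι : Type} [Group M] (K : Subgroup M) [K.Normal] (p : ℕ) :
    Wr ℤ M ι →* Wr (ZMod p) (M ⧸ K) ι :=
  Wr.map (QuotientGroup.mk' K) (red K p) (red_of K p)

/-- M is residually (finite with derived subgroup inside a normal p-subgroup), for all large p -/
def Psep (M : Type) [Group M] : Prop :=
  ∀ Φ : Finset M, (1 : M) ∉ Φ → ∃ N0 : ℕ, ∀ p : ℕ, p.Prime → N0 ≤ p →
    ∃ (Q : Type) (_ : Group Q) (_ : Finite Q) (f : M →* Q) (E : Subgroup Q),
      E.Normal ∧ IsPGroup p E ∧ (∀ m ∈ Φ, f m ≠ 1) ∧ (∀ m ∈ commutator M, f m ∈ E)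

/-- the linear-algebra property used for non-generation -/
def K1 (M : Type) [Group M] : Prop :=
  ∀ (κ : Type) (_ : Fintype κ) (z : κ → MonoidAlgebra ℤ M) (X : κ → κ → MonoidAlgebra ℤ M),
    (∀ i j, aug ℤ M (X i j) = 0) → (∀ j, z j = ∑ i, z i * X i j) → z = 0

/-- generators -/
abbrev Gn (T : Type) := Fin 4 ⊕ T

section gens
variable (T : Type)
def gx : Dq (Gn T) 2 := pn _ 2 (FreeGroup.of (Sum.inl 0))
def gy : Dq (Gn T) 2 := pn _ 2 (FreeGroup.of (Sum.inl 1))
def gq : Dq (Gn T) 2 := pn _ 2 (FreeGroup.of (Sum.inl 2))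
def gp : Dq (Gn T) 2 := pn _ 2 (FreeGroup.of (Sum.inl 3))
def gs : Dq (Gn T) 2 := gp T * gq T * (gp T)⁻¹ * (gq T)⁻¹
variable {T}
def gt (t : T) : Dq (Gn T) 2 := pn _ 2 (FreeGroup.of (Sum.inr t))
def gb (t : T) : Dq (Gn T) 2 := gt t * gq T * (gt t)⁻¹ * (gq T)⁻¹
end gens

/-- shorthand: group element in the group ring -/
noncomputable abbrev oo {M : Type} [Group M] (m : M) : MonoidAlgebra ℤ M := MonoidAlgebra.of ℤ M m

/-- the relations in the group ring of the derived subgroup -/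
inductive RelB {T : Type} [Fintype T] (Hr Vr : T → T → Prop) :
    MonoidAlgebra ℤ (Dq (Gn T) 2) → Prop
  | sq : RelB Hr Vr (oo (gs T) * oo (gs T) - oo (gs T) + 1)
  | sx : RelB Hr Vr (oo (gx T * gs T * (gx T)⁻¹) - oo (gs T))
  | sy : RelB Hr Vr (oo (gy T * gs T * (gy T)⁻¹) - oo (gs T))
  | two (t t' : T) (h : t ≠ t') : RelB Hr Vr ((oo (gb t) - 1) * (oo (gb t') - 1))
  | sum : RelB Hr Vr ((∑ t : T, (oo (gb t) - 1)) - (oo (gs T) - 1))
  | hor (t t' : T) (h : ¬ Hr t t') :
      RelB Hr Vr ((oo (gb t) - 1) * (oo (gx T * gb t' * (gx T)⁻¹) - 1))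
  | ver (t t' : T) (h : ¬ Vr t t') :
      RelB Hr Vr ((oo (gb t) - 1) * (oo (gy T * gb t' * (gy T)⁻¹) - 1))

/-- all relations -/
def Rel {T : Type} [Fintype T] (Hr Vr : T → T → Prop) : Set (MonoidAlgebra ℤ (Dq (Gn T) 2)) :=
  {f | RelB Hr Vr f} ∪ {oo (gx T) - 1, oo (gy T) - 1}

/-- the map psi: first coordinate times (s-1)c0 -/
noncomputable def psi {T : Type} [Fintype T] (Hr Vr : T → T → Prop) :
    (Gn T → MonoidAlgebra ℤ (Dq (Gn T) 2)) →ₗ[MonoidAlgebra ℤ (Dq (Gn T) 2)] CC (Rel Hr Vr) :=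
  (LinearMap.toSpanSingleton (MonoidAlgebra ℤ (Dq (Gn T) 2)) (CC (Rel Hr Vr))
    ((oo (gs T) - 1) • c0 (Rel Hr Vr))) ∘ₗ (LinearMap.proj (Sum.inl 0))

/-- a valid tiling -/
def Tiling {T : Type} (Hr Vr : T → T → Prop) (τ : ℤ → ℤ → T) : Prop :=
  ∀ i j, Hr (τ i j) (τ (i + 1) j) ∧ Vr (τ i j) (τ i (j + 1))

end Pool.Agent.Helper777.Prof
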