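import Pool.Agent.Helper777.Prof.Defs

set_option autoImplicit false
set_option linter.all false

namespace Pool.Agent.Helper777.Prof

theorem mag_m {ι M : Type} [Group M] [DecidableEq ι] (π : FreeGroup ι →* M) (w : FreeGroup ι) :
    (mag π w).m = π w := by
  have h : (⟨⟨fun w : Wr ℤ M ι => w.m, rfl⟩, fun _ _ => rfl⟩ : Wr ℤ M ι →* M).comp (mag π) = π := by
    ext i
    simp [mag]
  exact DFunLike.congr_fun h w

end Pool.Agent.Helper777.Prof
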