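import Pool.Agent.Helper777.Prof.Defs
import Pool.Agent.Helper777.Prof.P_mag_m

set_option autoImplicit false
set_option linter.all false

namespace Pool.Agent.Helper777.Prof

/-- vectors v with (v,1) in the Magnus group form a submodule -/
theorem N_smul {ι M : Type} [Group M] [DecidableEq ι] (π : FreeGroup ι →* M)
    (hπ : Function.Surjective π) (v : ι → MonoidAlgebra ℤ M)
    (hv : (⟨v, 1⟩ : Wr ℤ M ι) ∈ (mag π).range) (t : MonoidAlgebra ℤ M) :
    (⟨t • v, 1⟩ : Wr ℤ M ι) ∈ (mag π).range := by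
  have hadd : ∀ v v' : ι → MonoidAlgebra ℤ M, (⟨v, 1⟩ : Wr ℤ M ι) ∈ (mag π).range →
      (⟨v', 1⟩ : Wr ℤ M ι) ∈ (mag π).range → (⟨v + v', 1⟩ : Wr ℤ M ι) ∈ (mag π).range := by
    intro v v' h h'
    have h2 := mul_mem h h'
    have e : (⟨v, 1⟩ : Wr ℤ M ι) * ⟨v', 1⟩ = ⟨v + v', 1⟩ := by
      apply Wr.ext
      · show v + (MonoidAlgebra.of ℤ M 1) • v' = v + v'
        rw [map_one, one_smul]
      · show (1 : M) * 1 = 1
        exact mul_one 1
    rwa [e] at h2
  have hneg : ∀ v : ι → MonoidAlgebra ℤ M, (⟨v, 1⟩ : Wr ℤ M ι) ∈ (mag π).range →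
      (⟨-v, 1⟩ : Wr ℤ M ι) ∈ (mag π).range := by
    intro v h
    have h2 := inv_mem h
    have e : (⟨v, 1⟩ : Wr ℤ M ι)⁻¹ = ⟨-v, 1⟩ := by
      apply Wr.ext
      · show -((MonoidAlgebra.of ℤ M (1 : M)⁻¹) • v) = -v
        rw [inv_one, map_one, one_smul]
      · show (1 : M)⁻¹ = 1
        exact inv_one
    rwa [e] at h2
  have hzero : (⟨0, 1⟩ : Wr ℤ M ι) ∈ (mag π).range := one_mem _
  have hconj : ∀ (m : M) (v : ι → MonoidAlgebra ℤ M), (⟨v, 1⟩ : Wr ℤ M ι) ∈ (mag π).range →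
      (⟨(MonoidAlgebra.of ℤ M m) • v, 1⟩ : Wr ℤ M ι) ∈ (mag π).range := by
    intro m v h
    obtain ⟨u, rfl⟩ := hπ m
    have hu : mag π u ∈ (mag π).range := ⟨u, rfl⟩
    have h2 := mul_mem (mul_mem hu h) (inv_mem hu)
    have e : mag π u * (⟨v, 1⟩ : Wr ℤ M ι) * (mag π u)⁻¹ =
        ⟨(MonoidAlgebra.of ℤ M (π u)) • v, 1⟩ := by
      have hm := mag_m π u
      apply Wr.ext
      · show (mag π u).v + (MonoidAlgebra.of ℤ M (mag π u).m) • v +
            (MonoidAlgebra.of ℤ M ((mag π u).m * 1)) •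
              (-((MonoidAlgebra.of ℤ M (mag π u).m⁻¹) • (mag π u).v)) = _
        rw [hm, mul_one, smul_neg, smul_smul, ← map_mul, mul_inv_cancel, map_one, one_smul]
        abel
      · show (mag π u).m * 1 * (mag π u).m⁻¹ = 1
        rw [mul_one, mul_inv_cancel]
    rwa [e] at h2
  induction t using MonoidAlgebra.induction_on with
  | of m => exact hconj m v hv
  | add a b ha hb => rw [add_smul]; exact hadd _ _ ha hb
  | smul r f hf =>
    have hsm : ((r • f) • v : ι → MonoidAlgebra ℤ M) = r • (f • v) := smul_assoc r f v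
    rw [hsm]
    have hnat : ∀ n : ℕ, (⟨(n : ℤ) • (f • v), 1⟩ : Wr ℤ M ι) ∈ (mag π).range := by
      intro n
      induction n with
      | zero => simpa using hzero
      | succ n ih =>
        have : ((n + 1 : ℕ) : ℤ) • (f • v) = (n : ℤ) • (f • v) + f • v := by
          push_cast
          rw [add_smul, one_smul]
        rw [this]
        exact hadd _ _ ih hf
    obtain ⟨n, rfl | rfl⟩ := r.eq_nat_or_neg
    · exact hnat n
    · rw [neg_smul]; exact hneg _ (hnat n)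

end Pool.Agent.Helper777.Prof
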