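import Pool.Agent.Helper777.Prof.Defs
import Pool.Agent.Helper777.Prof.P_mag_m
import Pool.Agent.Helper777.Prof.P_N_smul

set_option autoImplicit false
set_option linter.all false

namespace Pool.Agent.Helper777.Prof

theorem HH_lift {ι M : Type} [Group M] [DecidableEq ι] {R : Set (MonoidAlgebra ℤ M)}
    (π : FreeGroup ι →* M) (hπ : Function.Surjective π)
    (ψ : (ι → MonoidAlgebra ℤ M) →ₗ[MonoidAlgebra ℤ M] CC R)
    (w0 : Wr ℤ M ι) (hw0 : w0 ∈ (mag π).range) (hm : w0.m = 1) (hψ : ψ w0.v = c0 R)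
    (g : Wr ℤ M ι) (hg : g ∈ (mag π).range) :
    ∃ t : MonoidAlgebra ℤ M, ψ g.v = t • c0 R ∧
      (⟨t • w0.v, 1⟩ : Wr ℤ M ι) ∈ (mag π).range ∧
      (⟨t • w0.v, 1⟩ : Wr ℤ M ι)⁻¹ * g ∈ HH π ψ := by
  obtain ⟨t, ht⟩ := Submodule.Quotient.mk_surjective _ (ψ g.v)
  have ht' : ψ g.v = t • c0 R := by
    rw [← ht]
    unfold c0
    rw [← Submodule.Quotient.mk_smul, smul_eq_mul, mul_one]
  have hw1 : (⟨w0.v, 1⟩ : Wr ℤ M ι) ∈ (mag π).range := by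
    have : (⟨w0.v, 1⟩ : Wr ℤ M ι) = w0 := by
      ext1
      · rfl
      · exact hm.symm
    rw [this]
    exact hw0
  have h2 := N_smul π hπ w0.v hw1 t
  refine ⟨t, ht', h2, mul_mem (inv_mem h2) hg, ?_⟩
  have h3 : ((⟨t • w0.v, 1⟩ : Wr ℤ M ι)⁻¹ * g).v = -(t • w0.v) + g.v := by
    rw [Wr.mul_v, Wr.inv_v, Wr.inv_m]
    show -((MonoidAlgebra.of ℤ M (1 : M)⁻¹) • (t • w0.v)) + (MonoidAlgebra.of ℤ M (1 : M)⁻¹) • g.v = _
    rw [inv_one, map_one, one_smul, one_smul]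
  rw [h3, map_add, map_neg, map_smul, hψ, ht', neg_add_cancel]

end Pool.Agent.Helper777.Prof
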