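import Pool.Agent.Helper777.Prof.Defs
import Pool.Agent.Helper777.Prof.P_mag_m
import Pool.Agent.Helper777.Prof.P_N_smul
import Pool.Agent.Helper777.Prof.P_HH_lift

set_option autoImplicit false
set_option linter.all false

namespace Pool.Agent.Helper777.Prof

section aux21802
variable {M ι : Type} [Group M]

theorem conj1_21802 (a : Wr ℤ M ι) (v : ι → MonoidAlgebra ℤ M) :
    a * ⟨v, 1⟩ = ⟨oo a.m • v, 1⟩ * a := by
  ext1
  · show a.v + oo a.m • v = oo a.m • v + oo (1 : M) • a.v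
    rw [show oo (1 : M) = (1 : MonoidAlgebra ℤ M) from map_one _, one_smul, add_comm]
  · show a.m * 1 = 1 * a.m
    rw [mul_one, one_mul]

theorem add1_21802 (u v : ι → MonoidAlgebra ℤ M) :
    (⟨u, 1⟩ : Wr ℤ M ι) * ⟨v, 1⟩ = ⟨u + v, 1⟩ := by
  ext1
  · show u + oo (1 : M) • v = u + v
    rw [show oo (1 : M) = (1 : MonoidAlgebra ℤ M) from map_one _, one_smul]
  · show (1 : M) * 1 = 1
    rw [mul_one]

theorem inv1_21802 (u : ι → MonoidAlgebra ℤ M) :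
    (⟨u, 1⟩ : Wr ℤ M ι)⁻¹ = ⟨-u, 1⟩ := by
  rw [inv_eq_iff_mul_eq_one, add1_21802, add_neg_cancel]
  rfl

theorem smul_mem_21802 (H : Subgroup (Wr ℤ M ι)) (hH : ∀ m : M, ∃ h ∈ H, h.m = m)
    (v : ι → MonoidAlgebra ℤ M) (hv : (⟨v, 1⟩ : Wr ℤ M ι) ∈ H) (t : MonoidAlgebra ℤ M) :
    (⟨t • v, 1⟩ : Wr ℤ M ι) ∈ H := by
  let A : AddSubgroup (MonoidAlgebra ℤ M) :=
    { carrier := {t | (⟨t • v, 1⟩ : Wr ℤ M ι) ∈ H}
      add_mem' := by
        intro a b ha hb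
        show (⟨(a + b) • v, 1⟩ : Wr ℤ M ι) ∈ H
        rw [add_smul, ← add1_21802]
        exact H.mul_mem ha hb
      zero_mem' := by
        show (⟨(0 : MonoidAlgebra ℤ M) • v, 1⟩ : Wr ℤ M ι) ∈ H
        rw [zero_smul]
        exact H.one_mem
      neg_mem' := by
        intro a ha
        show (⟨(-a) • v, 1⟩ : Wr ℤ M ι) ∈ H
        rw [neg_smul, ← inv1_21802]
        exact H.inv_mem ha }
  have : t ∈ A := by
    induction t using MonoidAlgebra.induction_on with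
    | of g =>
      obtain ⟨h, hh, hm⟩ := hH g
      show (⟨oo g • v, 1⟩ : Wr ℤ M ι) ∈ H
      have h1 := conj1_21802 h v
      rw [hm] at h1
      have e : (⟨oo g • v, 1⟩ : Wr ℤ M ι) = h * ⟨v, 1⟩ * h⁻¹ := by
        rw [h1, mul_assoc, mul_inv_cancel, mul_one]
      rw [e]
      exact H.mul_mem (H.mul_mem hh hv) (H.inv_mem hh)
    | add a b ha hb => exact A.add_mem ha hb
    | smul r a ha => exact A.zsmul_mem ha r
  exact this

end aux21802

theorem HH_fg {ι M : Type} [Group M] [Finite ι] [DecidableEq ι] {R : Set (MonoidAlgebra ℤ M)}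
    (hR : R.Finite) (π : FreeGroup ι →* M) (hπ : Function.Surjective π)
    (ψ : (ι → MonoidAlgebra ℤ M) →ₗ[MonoidAlgebra ℤ M] CC R)
    (w0 : Wr ℤ M ι) (hw0 : w0 ∈ (mag π).range) (hm : w0.m = 1) (hψ : ψ w0.v = c0 R) :
    (HH π ψ).FG := by
  have hw0e : (⟨w0.v, 1⟩ : Wr ℤ M ι) = w0 := by
    ext1
    · rfl
    · exact hm.symm
  have hd : (⟨w0.v, 1⟩ : Wr ℤ M ι) ∈ (mag π).range := by
    rw [hw0e]
    exact hw0
  have hc0 : ∀ t : MonoidAlgebra ℤ M, t • c0 R = 0 ↔ t ∈ Submodule.span (MonoidAlgebra ℤ M) R := by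
    intro t
    unfold c0
    rw [← Submodule.Quotient.mk_smul, smul_eq_mul, mul_one, Submodule.Quotient.mk_eq_zero]
  have hx : ∀ j : ι, ∃ t : MonoidAlgebra ℤ M,
      (⟨t • w0.v, 1⟩ : Wr ℤ M ι)⁻¹ * mag π (FreeGroup.of j) ∈ HH π ψ := by
    intro j
    obtain ⟨t, -, -, h⟩ := HH_lift π hπ ψ w0 hw0 hm hψ (mag π (FreeGroup.of j)) ⟨_, rfl⟩
    exact ⟨t, h⟩
  choose tt htt using hx
  obtain ⟨hj, hhj⟩ : ∃ hj : ι → Wr ℤ M ι, ∀ j, hj j =
    (⟨tt j • w0.v, 1⟩ : Wr ℤ M ι)⁻¹ * mag π (FreeGroup.of j) := ⟨_, fun j => rfl⟩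
  have hjm : ∀ j, (hj j).m = π (FreeGroup.of j) := by
    intro j
    rw [hhj, inv1_21802]
    show 1 * (mag π (FreeGroup.of j)).m = _
    rw [mag_m, one_mul]
  rw [Subgroup.fg_iff]
  refine ⟨Set.range hj ∪ (fun ρ : MonoidAlgebra ℤ M => (⟨ρ • w0.v, 1⟩ : Wr ℤ M ι)) '' R, ?_,
    (Set.finite_range hj).union (hR.image _)⟩
  obtain ⟨H', hH'⟩ : ∃ H', H' = Subgroup.closure (Set.range hj ∪
    (fun ρ : MonoidAlgebra ℤ M => (⟨ρ • w0.v, 1⟩ : Wr ℤ M ι)) '' R) := ⟨_, rfl⟩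
  rw [← hH']
  have hj' : ∀ j, hj j ∈ H' := by
    intro j
    rw [hH']
    exact Subgroup.subset_closure (Or.inl ⟨j, rfl⟩)
  have hρ : ∀ ρ ∈ R, (⟨ρ • w0.v, 1⟩ : Wr ℤ M ι) ∈ H' := by
    intro ρ hρ
    rw [hH']
    exact Subgroup.subset_closure (Or.inr ⟨ρ, hρ, rfl⟩)
  have hle : H' ≤ HH π ψ := by
    rw [hH', Subgroup.closure_le]
    rintro _ (⟨j, rfl⟩ | ⟨ρ, hρ, rfl⟩)
    · show hj j ∈ HH π ψ
      rw [hhj]
      exact htt j
    · refine ⟨N_smul π hπ w0.v hd ρ, ?_⟩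
      show ψ (ρ • w0.v) = 0
      rw [map_smul, hψ, hc0]
      exact Submodule.subset_span hρ
  have ha : ∀ m : M, ∃ h ∈ H', h.m = m := by
    intro m
    obtain ⟨w, rfl⟩ := hπ m
    induction w using FreeGroup.induction_on with
    | C1 => exact ⟨1, H'.one_mem, by rw [map_one]; rfl⟩
    | of j => exact ⟨hj j, hj' j, hjm j⟩
    | inv_of j _ =>
      refine ⟨(hj j)⁻¹, H'.inv_mem (hj' j), ?_⟩
      rw [Wr.inv_m, hjm, map_inv]
    | mul x y hx hy =>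
      obtain ⟨h1, h1', h1m⟩ := hx
      obtain ⟨h2, h2', h2m⟩ := hy
      refine ⟨h1 * h2, H'.mul_mem h1' h2', ?_⟩
      rw [Wr.mul_m, h1m, h2m, map_mul]
  have hb : ∀ t ∈ Submodule.span (MonoidAlgebra ℤ M) R, (⟨t • w0.v, 1⟩ : Wr ℤ M ι) ∈ H' := by
    intro t ht
    induction ht using Submodule.span_induction with
    | mem x hx => exact hρ x hx
    | zero =>
      rw [zero_smul]
      exact H'.one_mem
    | add x y _ _ hx hy =>
      rw [add_smul, ← add1_21802]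
      exact H'.mul_mem hx hy
    | smul a x _ hx =>
      rw [smul_assoc]
      exact smul_mem_21802 H' ha _ hx a
  have hc : ∀ w : FreeGroup ι, ∃ t : MonoidAlgebra ℤ M, ∃ h ∈ H',
      mag π w = (⟨t • w0.v, 1⟩ : Wr ℤ M ι) * h := by
    intro w
    induction w using FreeGroup.induction_on with
    | C1 =>
      refine ⟨0, 1, H'.one_mem, ?_⟩
      rw [map_one, zero_smul, mul_one]
      rfl
    | of j =>
      refine ⟨tt j, hj j, hj' j, ?_⟩
      rw [hhj, mul_inv_cancel_left]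
    | inv_of j _ =>
      refine ⟨oo ((hj j)⁻¹).m * (-tt j), (hj j)⁻¹, H'.inv_mem (hj' j), ?_⟩
      have h1 : mag π (FreeGroup.of j) = (⟨tt j • w0.v, 1⟩ : Wr ℤ M ι) * hj j := by
        rw [hhj, mul_inv_cancel_left]
      rw [map_inv, h1, mul_inv_rev, inv1_21802, conj1_21802, ← neg_smul, mul_smul]
    | mul x y hx hy =>
      obtain ⟨t1, h1, h1', e1⟩ := hx
      obtain ⟨t2, h2, h2', e2⟩ := hy
      refine ⟨t1 + oo h1.m * t2, h1 * h2, H'.mul_mem h1' h2', ?_⟩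
      rw [map_mul, e1, e2, add_smul, ← add1_21802, mul_smul, mul_assoc, mul_assoc, ← mul_assoc h1,
        conj1_21802, mul_assoc]
  refine le_antisymm hle ?_
  rintro h ⟨⟨w, hw⟩, h0⟩
  obtain ⟨t, h', hh', e⟩ := hc w
  rw [hw] at e
  have h0' := (hle hh').2
  have ht : t • c0 R = 0 := by
    rw [e] at h0
    have e2 : ((⟨t • w0.v, 1⟩ : Wr ℤ M ι) * h').v = t • w0.v + h'.v := by
      show t • w0.v + oo (1 : M) • h'.v = _
      rw [show oo (1 : M) = (1 : MonoidAlgebra ℤ M) from map_one _, one_smul]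
    rw [e2, map_add, h0', add_zero, map_smul, hψ] at h0
    exact h0
  rw [e]
  exact H'.mul_mem (hb t ((hc0 t).1 ht)) hh'

end Pool.Agent.Helper777.Prof
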