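import Pool.Agent.Helper777.Prof.Defs

set_option autoImplicit false
set_option linter.all false

namespace Pool.Agent.Helper777.Prof

/-- homomorphisms to groups with abelian kernel over an abelian quotient kill the second derived subgroup -/
theorem dl_two {F G A : Type} [Group F] [Group G] [CommGroup A] (f : F →* G) (g : G →* A)
    (hg : ∀ a b : G, g a = 1 → g b = 1 → a * b = b * a) (w : F) (hw : w ∈ derivedSeries F 2) :
    f w = 1 := by
  have h1 : derivedSeries F 1 ≤ (g.comp f).ker := by
    rw [derivedSeries_succ, Subgroup.commutator_le]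
    intro a _ b _
    rw [MonoidHom.mem_ker, map_commutatorElement, commutatorElement_eq_one_iff_mul_comm]
    exact mul_comm _ _
  have h2 : derivedSeries F 2 ≤ f.ker := by
    rw [derivedSeries_succ, Subgroup.commutator_le]
    intro a ha b hb
    rw [MonoidHom.mem_ker, map_commutatorElement, commutatorElement_eq_one_iff_mul_comm]
    exact hg _ _ (MonoidHom.mem_ker.1 (h1 ha)) (MonoidHom.mem_ker.1 (h1 hb))
  exact MonoidHom.mem_ker.1 (h2 hw)

end Pool.Agent.Helper777.Prof
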