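import Pool.Agent.Helper777.Prof.Defs
import Pool.Agent.Helper777.Prof.P_dl_two

set_option autoImplicit false
set_option linter.all false

namespace Pool.Agent.Helper777.Prof

/-! auxiliary group -/

/-- pairs (unit valued function, shift) -/
@[ext] structure AuxG where
  u : ℤ × ℤ × ℤ → (ZMod 7)ˣ
  a : ℤ × ℤ × ℤ

namespace AuxG

noncomputable instance : Mul AuxG := ⟨fun g h => ⟨fun z => g.u z * h.u (z + g.a), g.a + h.a⟩⟩
noncomputable instance : One AuxG := ⟨⟨fun _ => 1, 0⟩⟩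
noncomputable instance : Inv AuxG := ⟨fun g => ⟨fun z => (g.u (z - g.a))⁻¹, -g.a⟩⟩

theorem mul_u (g h : AuxG) (z) : (g * h).u z = g.u z * h.u (z + g.a) := rfl
theorem mul_a (g h : AuxG) : (g * h).a = g.a + h.a := rfl
theorem one_u (z) : (1 : AuxG).u z = 1 := rfl
theorem one_a : (1 : AuxG).a = 0 := rfl
theorem inv_u (g : AuxG) (z) : (g⁻¹).u z = (g.u (z - g.a))⁻¹ := rfl
theorem inv_a (g : AuxG) : (g⁻¹).a = -g.a := rfl

noncomputable instance : Group AuxG :=
  Group.ofLeftAxioms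
    (by
      intro g h k
      apply AuxG.ext
      · funext z
        simp only [mul_u, mul_a, mul_assoc, add_assoc]
      · simp only [mul_a, add_assoc])
    (by
      intro g
      apply AuxG.ext
      · funext z
        simp only [mul_u, one_u, one_a, one_mul, add_zero]
      · simp only [mul_a, one_a, zero_add])
    (by
      intro g
      apply AuxG.ext
      · funext z
        simp only [mul_u, inv_u, inv_a, one_u, ← sub_eq_add_neg, inv_mul_cancel]
      · simp only [mul_a, inv_a, one_a, neg_add_cancel])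

/-- projection to the shifts -/
noncomputable def pr : AuxG →* Multiplicative (ℤ × ℤ × ℤ) where
  toFun g := Multiplicative.ofAdd g.a
  map_one' := rfl
  map_mul' g h := rfl

/-- the linear action -/
noncomputable def act : AuxG →* Module.End ℤ (ℤ × ℤ × ℤ → ZMod 7) where
  toFun g :=
    { toFun := fun v z => (g.u z : ZMod 7) * v (z + g.a)
      map_add' := by
        intro v w
        funext z
        simp only [Pi.add_apply, mul_add]
      map_smul' := by
        intro c v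
        funext z
        simp only [Pi.smul_apply, eq_intCast, Int.cast_id, zsmul_eq_mul]
        ring }
  map_one' := by
    ext v z
    simp [one_u, one_a]
  map_mul' := by
    intro g h
    apply LinearMap.ext
    intro v
    funext z
    change (((g * h).u z : (ZMod 7)ˣ) : ZMod 7) * v (z + (g * h).a) =
      (g.u z : ZMod 7) * ((h.u (z + g.a) : ZMod 7) * v (z + g.a + h.a))
    rw [mul_u, mul_a, Units.val_mul, mul_assoc, add_assoc]

theorem act_apply (g : AuxG) (v : ℤ × ℤ × ℤ → ZMod 7) (z) :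
    act g v z = (g.u z : ZMod 7) * v (z + g.a) := rfl

end AuxG

/-- the unit 3 -/
def three : (ZMod 7)ˣ := ⟨3, 5, by decide, by decide⟩

theorem three_val : (three : ZMod 7) = 3 := rfl

/-- images of the generators -/
noncomputable def gen0 {T : Type} (τ : ℤ → ℤ → T) : Gn T → AuxG := by
  classical
  exact Sum.elim
    ![⟨fun _ => 1, (1, 0, 0)⟩, ⟨fun _ => 1, (0, 1, 0)⟩, ⟨fun _ => 1, (0, 0, -1)⟩,
      ⟨fun z => three ^ z.2.2, 0⟩]
    (fun t => ⟨fun z => if τ z.1 z.2.1 = t then three ^ z.2.2 else 1, 0⟩)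

noncomputable def phi0 {T : Type} (τ : ℤ → ℤ → T) : Dq (Gn T) 2 →* AuxG :=
  QuotientGroup.lift _ (FreeGroup.lift (gen0 τ)) (by
    intro w hw
    refine dl_two (FreeGroup.lift (gen0 τ)) AuxG.pr ?_ w hw
    intro a b ha hb
    have ha' : a.a = 0 := ha
    have hb' : b.a = 0 := hb
    apply AuxG.ext
    · funext z
      rw [AuxG.mul_u, AuxG.mul_u, ha', hb', add_zero, mul_comm]
    · rw [AuxG.mul_a, AuxG.mul_a, add_comm])

theorem phi0_of {T : Type} (τ : ℤ → ℤ → T) (i : Gn T) :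
    phi0 τ (pn _ 2 (FreeGroup.of i)) = gen0 τ i := by
  change FreeGroup.lift (gen0 τ) (FreeGroup.of i) = gen0 τ i
  exact FreeGroup.lift_apply_of

theorem phi0_x {T : Type} (τ : ℤ → ℤ → T) : phi0 τ (gx T) = ⟨fun _ => 1, (1, 0, 0)⟩ :=
  phi0_of τ _
theorem phi0_y {T : Type} (τ : ℤ → ℤ → T) : phi0 τ (gy T) = ⟨fun _ => 1, (0, 1, 0)⟩ :=
  phi0_of τ _
theorem phi0_q {T : Type} (τ : ℤ → ℤ → T) : phi0 τ (gq T) = ⟨fun _ => 1, (0, 0, -1)⟩ :=
  phi0_of τ _
theorem phi0_p {T : Type} (τ : ℤ → ℤ → T) : phi0 τ (gp T) = ⟨fun z => three ^ z.2.2, 0⟩ :=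
  phi0_of τ _
open Classical in
theorem phi0_t {T : Type} (τ : ℤ → ℤ → T) (t : T) : phi0 τ (gt t) =
    ⟨fun z => if τ z.1 z.2.1 = t then three ^ z.2.2 else 1, 0⟩ := by
  refine (phi0_of τ _).trans ?_
  unfold gen0
  rfl

theorem phi0_s {T : Type} (τ : ℤ → ℤ → T) : phi0 τ (gs T) = ⟨fun _ => three, 0⟩ := by
  unfold gs
  rw [map_mul, map_mul, map_mul, map_inv, map_inv, phi0_p, phi0_q]
  apply AuxG.ext
  · funext z
    simp only [AuxG.mul_u, AuxG.mul_a, AuxG.inv_u, AuxG.inv_a, mul_one, inv_one, add_zero,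
      sub_zero, neg_zero, zero_add, Prod.snd_add]
    rw [zpow_add, zpow_neg, zpow_one]
    group
  · simp only [AuxG.mul_a, AuxG.inv_a]
    simp

open Classical in
theorem phi0_b {T : Type} (τ : ℤ → ℤ → T) (t : T) : phi0 τ (gb t) =
    ⟨fun z => if τ z.1 z.2.1 = t then three else 1, 0⟩ := by
  unfold gb
  rw [map_mul, map_mul, map_mul, map_inv, map_inv, phi0_t, phi0_q]
  apply AuxG.ext
  · funext z
    simp only [AuxG.mul_u, AuxG.mul_a, AuxG.inv_u, AuxG.inv_a, mul_one, inv_one, add_zero,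
      sub_zero, neg_zero, zero_add, Prod.snd_add, Prod.fst_add]
    split_ifs
    · rw [zpow_add, zpow_neg, zpow_one]
      group
    · simp
  · simp only [AuxG.mul_a, AuxG.inv_a]
    simp

theorem phi0_xc {T : Type} (τ : ℤ → ℤ → T) (m : Dq (Gn T) 2) (w : ℤ × ℤ × ℤ → (ZMod 7)ˣ)
    (h : phi0 τ m = ⟨w, 0⟩) :
    phi0 τ (gx T * m * (gx T)⁻¹) = ⟨fun z => w (z + (1, 0, 0)), 0⟩ := by
  rw [map_mul, map_mul, map_inv, phi0_x, h]
  apply AuxG.ext
  · funext z
    simp only [AuxG.mul_u, AuxG.mul_a, AuxG.inv_u, AuxG.inv_a, mul_one, inv_one, one_mul]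
  · simp only [AuxG.mul_a, AuxG.inv_a]
    simp

theorem phi0_yc {T : Type} (τ : ℤ → ℤ → T) (m : Dq (Gn T) 2) (w : ℤ × ℤ × ℤ → (ZMod 7)ˣ)
    (h : phi0 τ m = ⟨w, 0⟩) :
    phi0 τ (gy T * m * (gy T)⁻¹) = ⟨fun z => w (z + (0, 1, 0)), 0⟩ := by
  rw [map_mul, map_mul, map_inv, phi0_y, h]
  apply AuxG.ext
  · funext z
    simp only [AuxG.mul_u, AuxG.mul_a, AuxG.inv_u, AuxG.inv_a, mul_one, inv_one, one_mul]
  · simp only [AuxG.mul_a, AuxG.inv_a]
    simp

/-- the ring homomorphism -/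
noncomputable def lam0 {T : Type} (τ : ℤ → ℤ → T) :
    MonoidAlgebra ℤ (Dq (Gn T) 2) →ₐ[ℤ] Module.End ℤ (ℤ × ℤ × ℤ → ZMod 7) :=
  MonoidAlgebra.lift ℤ _ _ (AuxG.act.comp (phi0 τ))

theorem lam0_oo {T : Type} (τ : ℤ → ℤ → T) (m : Dq (Gn T) 2) :
    lam0 τ (oo m) = AuxG.act (phi0 τ m) :=
  MonoidAlgebra.lift_of (AuxG.act.comp (phi0 τ)) m

/-- diagonal elements act diagonally -/
theorem lam0_diag {T : Type} (τ : ℤ → ℤ → T) (m : Dq (Gn T) 2) (w : ℤ × ℤ × ℤ → (ZMod 7)ˣ)
    (h : phi0 τ m = ⟨w, 0⟩) (v : ℤ × ℤ × ℤ → ZMod 7) (z : ℤ × ℤ × ℤ) :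
    lam0 τ (oo m) v z = (w z : ZMod 7) * v z := by
  rw [lam0_oo, h, AuxG.act_apply]
  simp only [add_zero]

theorem lam0_diag' {T : Type} (τ : ℤ → ℤ → T) (m : Dq (Gn T) 2) (w : ℤ × ℤ × ℤ → (ZMod 7)ˣ)
    (h : phi0 τ m = ⟨w, 0⟩) (v : ℤ × ℤ × ℤ → ZMod 7) (z : ℤ × ℤ × ℤ) :
    lam0 τ (oo m - 1) v z = ((w z : ZMod 7) - 1) * v z := by
  rw [map_sub, map_one, LinearMap.sub_apply, Pi.sub_apply, lam0_diag τ m w h]
  change _ - v z = _
  ring

/-- the special vector -/
noncomputable def v0 : ℤ × ℤ × ℤ → ZMod 7 := fun z => if z.2.2 = 0 then 1 else 0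

open Classical in
theorem relB_kill {T : Type} [Fintype T] (Hr Vr : T → T → Prop) (τ : ℤ → ℤ → T)
    (hτ : Tiling Hr Vr τ) (f : MonoidAlgebra ℤ (Dq (Gn T) 2)) (hf : RelB Hr Vr f)
    (v : ℤ × ℤ × ℤ → ZMod 7) : lam0 τ f v = 0 := by
  have h7 : (7 : ZMod 7) = 0 := rfl
  cases hf with
  | sq =>
    funext z
    rw [map_add, map_sub, map_mul, map_one, LinearMap.add_apply, LinearMap.sub_apply,
      Module.End.mul_apply, Pi.add_apply, Pi.sub_apply, lam0_diag τ _ _ (phi0_s τ),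
      lam0_diag τ _ _ (phi0_s τ), three_val]
    change 3 * (3 * v z) - 3 * v z + v z = 0
    linear_combination v z * h7
  | sx =>
    funext z
    rw [map_sub, LinearMap.sub_apply, Pi.sub_apply, lam0_diag τ _ _ (phi0_s τ),
      lam0_diag τ _ _ (phi0_xc τ _ _ (phi0_s τ))]
    exact sub_self _
  | sy =>
    funext z
    rw [map_sub, LinearMap.sub_apply, Pi.sub_apply, lam0_diag τ _ _ (phi0_s τ),
      lam0_diag τ _ _ (phi0_yc τ _ _ (phi0_s τ))]
    exact sub_self _
  | two t t' h =>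
    funext z
    rw [map_mul, Module.End.mul_apply, lam0_diag' τ _ _ (phi0_b τ t),
      lam0_diag' τ _ _ (phi0_b τ t')]
    beta_reduce
    by_cases h1 : τ z.1 z.2.1 = t
    · have h2 : τ z.1 z.2.1 ≠ t' := fun h2 => h (h1.symm.trans h2)
      rw [if_neg h2]
      simp
    · rw [if_neg h1]
      simp
  | sum =>
    funext z
    rw [map_sub, map_sum, LinearMap.sub_apply, LinearMap.sum_apply, Pi.sub_apply,
      Finset.sum_apply, lam0_diag' τ _ _ (phi0_s τ)]
    rw [Finset.sum_congr rfl (fun t _ => lam0_diag' τ _ _ (phi0_b τ t) v z)]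
    rw [Finset.sum_eq_single (τ z.1 z.2.1)]
    · rw [if_pos rfl]
      exact sub_self _
    · intro t _ ht
      rw [if_neg (Ne.symm ht)]
      simp
    · intro h
      exact absurd (Finset.mem_univ _) h
  | hor t t' h =>
    funext z
    rw [map_mul, Module.End.mul_apply, lam0_diag' τ _ _ (phi0_b τ t),
      lam0_diag' τ _ _ (phi0_xc τ _ _ (phi0_b τ t'))]
    beta_reduce
    by_cases h1 : τ z.1 z.2.1 = t
    · have h2 : τ (z + (1, 0, 0)).1 (z + (1, 0, 0)).2.1 ≠ t' := by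
        intro h2
        apply h
        have h3 := (hτ z.1 z.2.1).1
        have e1 : (z + (1, 0, 0)).1 = z.1 + 1 := rfl
        have e2 : (z + (1, 0, 0)).2.1 = z.2.1 + 0 := rfl
        rw [e1, e2, add_zero] at h2
        rw [h1, h2] at h3
        exact h3
      rw [if_neg h2]
      simp
    · rw [if_neg h1]
      simp
  | ver t t' h =>
    funext z
    rw [map_mul, Module.End.mul_apply, lam0_diag' τ _ _ (phi0_b τ t),
      lam0_diag' τ _ _ (phi0_yc τ _ _ (phi0_b τ t'))]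
    beta_reduce
    by_cases h1 : τ z.1 z.2.1 = t
    · have h2 : τ (z + (0, 1, 0)).1 (z + (0, 1, 0)).2.1 ≠ t' := by
        intro h2
        apply h
        have h3 := (hτ z.1 z.2.1).2
        have e1 : (z + (0, 1, 0)).1 = z.1 + 0 := rfl
        have e2 : (z + (0, 1, 0)).2.1 = z.2.1 + 1 := rfl
        rw [e1, e2, add_zero] at h2
        rw [h1, h2] at h3
        exact h3
      rw [if_neg h2]
      simp
    · rw [if_neg h1]
      simp

theorem c0_ne {T : Type} [Fintype T] (Hr Vr : T → T → Prop)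
    (hτ : ∃ τ : ℤ → ℤ → T, Tiling Hr Vr τ) : c0 (Rel Hr Vr) ≠ 0 := by
  obtain ⟨τ, hτ⟩ := hτ
  intro h0
  have h1 : (1 : MonoidAlgebra ℤ (Dq (Gn T) 2)) ∈
      Submodule.span (MonoidAlgebra ℤ (Dq (Gn T) 2)) (Rel Hr Vr) :=
    (Submodule.Quotient.mk_eq_zero _).mp h0
  have key : ∀ f ∈ Submodule.span (MonoidAlgebra ℤ (Dq (Gn T) 2)) (Rel Hr Vr),
      lam0 τ f v0 = 0 := by
    intro f hf
    induction hf using Submodule.span_induction with
    | mem f hf =>
      rcases hf with hf | hf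
      · exact relB_kill Hr Vr τ hτ f hf v0
      · rcases hf with hf | hf
        · rw [hf]
          funext z
          rw [map_sub, map_one, LinearMap.sub_apply, Pi.sub_apply, lam0_oo, phi0_x,
            AuxG.act_apply]
          change ((1 : (ZMod 7)ˣ) : ZMod 7) * v0 (z + (1, 0, 0)) - v0 z = 0
          have e : v0 (z + (1, 0, 0)) = v0 z := by
            unfold v0
            have e2 : (z + (1, 0, 0)).2.2 = z.2.2 + 0 := rfl
            rw [e2, add_zero]
          rw [e, Units.val_one, one_mul, sub_self]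
        · rw [Set.mem_singleton_iff.mp hf]
          funext z
          rw [map_sub, map_one, LinearMap.sub_apply, Pi.sub_apply, lam0_oo, phi0_y,
            AuxG.act_apply]
          change ((1 : (ZMod 7)ˣ) : ZMod 7) * v0 (z + (0, 1, 0)) - v0 z = 0
          have e : v0 (z + (0, 1, 0)) = v0 z := by
            unfold v0
            have e2 : (z + (0, 1, 0)).2.2 = z.2.2 + 0 := rfl
            rw [e2, add_zero]
          rw [e, Units.val_one, one_mul, sub_self]
    | zero => rw [map_zero, LinearMap.zero_apply]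
    | add f g _ _ hf hg => rw [map_add, LinearMap.add_apply, hf, hg, add_zero]
    | smul a f _ hf => rw [smul_eq_mul, map_mul, Module.End.mul_apply, hf, map_zero]
  have h2 := key 1 h1
  rw [map_one] at h2
  have h3 := congrFun h2 (0, 0, 0)
  change v0 (0, 0, 0) = 0 at h3
  unfold v0 at h3
  rw [if_pos rfl] at h3
  exact absurd h3 (by decide)

end Pool.Agent.Helper777.Prof
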