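import Pool.Agent.Helper777.Prof.Defs

set_option autoImplicit false
set_option linter.all false

namespace Pool.Agent.Helper777.Prof

theorem comm_dq2 (ι : Type) : ∀ a ∈ commutator (Dq ι 2), ∀ b ∈ commutator (Dq ι 2), a * b = b * a := by
  have hsurj : Function.Surjective (QuotientGroup.mk' (derivedSeries (FreeGroup ι) 2)) :=
    QuotientGroup.mk'_surjective _
  have key : ∀ a ∈ commutator (Dq ι 2), ∃ a0 ∈ derivedSeries (FreeGroup ι) 1,
      QuotientGroup.mk' (derivedSeries (FreeGroup ι) 2) a0 = a := by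
    intro a ha
    have h1 : commutator (Dq ι 2) =
        Subgroup.map (QuotientGroup.mk' (derivedSeries (FreeGroup ι) 2))
          (derivedSeries (FreeGroup ι) 1) := by
      rw [derivedSeries_one, commutator_def, commutator_def, Subgroup.map_commutator,
        Subgroup.map_top_of_surjective _ hsurj]
    rw [h1] at ha
    exact Subgroup.mem_map.mp ha
  intro a ha b hb
  obtain ⟨a0, ha0, rfl⟩ := key a ha
  obtain ⟨b0, hb0, rfl⟩ := key b hb
  rw [← map_mul, ← map_mul]
  have h2 : a0 * b0 * a0⁻¹ * b0⁻¹ ∈ derivedSeries (FreeGroup ι) 2 := by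
    rw [derivedSeries_succ]
    exact Subgroup.commutator_mem_commutator ha0 hb0
  have h3 : QuotientGroup.mk' (derivedSeries (FreeGroup ι) 2) (a0 * b0 * a0⁻¹ * b0⁻¹) = 1 :=
    (QuotientGroup.eq_one_iff _).mpr h2
  have h4 : a0 * b0 = (a0 * b0 * a0⁻¹ * b0⁻¹) * (b0 * a0) := by group
  rw [h4, map_mul, h3, one_mul]

end Pool.Agent.Helper777.Prof
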