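import Pool.Agent.Helper777.Prof.Defs
import Pool.Agent.Helper777.Prof.P_comm_dq2

set_option autoImplicit false
set_option linter.all false

namespace Pool.Agent.Helper777.Prof

section estar
variable {M B T : Type} [Group M] [CommGroup B]

theorem est_md_oo {N N' : Type} [Group N] [Group N'] (f : N →* N') (b : N) :
    MonoidAlgebra.mapDomainRingHom ℤ f (MonoidAlgebra.of ℤ N b) = MonoidAlgebra.of ℤ N' (f b) := by
  simp [MonoidAlgebra.of_apply, MonoidAlgebra.mapDomainRingHom_apply, MonoidAlgebra.mapDomain_single]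

theorem est_conj (ι : B →* M) (g : M) (c : B →* B) (hc : ∀ b, ι (c b) = g * ι b * g⁻¹)
    (a : MonoidAlgebra ℤ B) :
    MonoidAlgebra.mapDomainRingHom ℤ ι (MonoidAlgebra.mapDomainRingHom ℤ c a) =
      oo g * MonoidAlgebra.mapDomainRingHom ℤ ι a * oo g⁻¹ := by
  induction a using MonoidAlgebra.induction_linear with
  | zero => simp only [map_zero, mul_zero, zero_mul]
  | add x y hx hy => simp only [map_add, hx, hy, mul_add, add_mul]
  | single b r =>
    simp only [MonoidAlgebra.mapDomainRingHom_apply, MonoidAlgebra.mapDomain_single,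
      MonoidAlgebra.of_apply, MonoidAlgebra.single_mul_single, one_mul, mul_one, hc]

theorem est_rel (R : Set (MonoidAlgebra ℤ M)) (r : MonoidAlgebra ℤ M) (hr : r ∈ R) :
    r • c0 R = 0 := by
  unfold c0
  rw [← Submodule.Quotient.mk_smul, smul_eq_mul, mul_one, Submodule.Quotient.mk_eq_zero]
  exact Submodule.subset_span hr

theorem est_inB (ι : B →* M) (hr : ∀ b, ι b ∈ commutator M) (a : MonoidAlgebra ℤ B) :
    inB (MonoidAlgebra.mapDomainRingHom ℤ ι a) := by
  classical
  intro m hm
  rw [MonoidAlgebra.mapDomainRingHom_apply, MonoidAlgebra.coeff_mapDomain] at hm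
  have h1 := Finsupp.mapDomain_support hm
  rw [Finset.mem_image] at h1
  obtain ⟨b, _, rfl⟩ := h1
  exact hr b

theorem estar_core [Fintype T] (ι : B →* M) (hι : Function.Injective ι)
    (hr : ∀ b, ι b ∈ commutator M) (hr' : ∀ m ∈ commutator M, ∃ b, ι b = m)
    (cj : M → B →* B) (hcj : ∀ g b, ι (cj g b) = g * ι b * g⁻¹)
    (Hr Vr : T → T → Prop) (x y : M) (s : B) (bt : T → B) (R : Set (MonoidAlgebra ℤ M))
    (hx : oo x - 1 ∈ R) (hy : oo y - 1 ∈ R)
    (hsq : oo (ι s) * oo (ι s) - oo (ι s) + 1 ∈ R)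
    (htwo : ∀ t t', t ≠ t' → (oo (ι (bt t)) - 1) * (oo (ι (bt t')) - 1) ∈ R)
    (hsum : (∑ t : T, (oo (ι (bt t)) - 1)) - (oo (ι s) - 1) ∈ R)
    (hhor : ∀ t t', ¬ Hr t t' → (oo (ι (bt t)) - 1) * (oo (x * ι (bt t') * x⁻¹) - 1) ∈ R)
    (hver : ∀ t t', ¬ Vr t t' → (oo (ι (bt t)) - 1) * (oo (y * ι (bt t') * y⁻¹) - 1) ∈ R)
    (hper : ∀ n : ℕ, 0 < n → ¬ ∃ τ : ℤ → ℤ → T, Tiling Hr Vr τ ∧
      ∀ i j, τ (i + n) j = τ i j ∧ τ i (j + n) = τ i j)
    (K : Subgroup M) [K.Normal] (hK : K.FiniteIndex) :
    ∃ e : MonoidAlgebra ℤ M, inB e ∧ e • c0 R = c0 R ∧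
      MonoidAlgebra.mapDomain (QuotientGroup.mk' K) e = 0 := by
  classical
  let inc : MonoidAlgebra ℤ B →+* MonoidAlgebra ℤ M := MonoidAlgebra.mapDomainRingHom ℤ ι
  have hinc : ∀ b, inc (MonoidAlgebra.of ℤ B b) = oo (ι b) := fun b => est_md_oo ι b
  let J : Ideal (MonoidAlgebra ℤ B) :=
    { carrier := {a | inc a • c0 R = 0}
      add_mem' := by
        intro a b ha hb
        show inc (a + b) • c0 R = 0
        rw [map_add, add_smul]
        rw [show inc a • c0 R = 0 from ha, show inc b • c0 R = 0 from hb, add_zero]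
      zero_mem' := by
        show inc 0 • c0 R = 0
        rw [map_zero, zero_smul]
      smul_mem' := by
        intro c a ha
        show inc (c * a) • c0 R = 0
        rw [map_mul, mul_smul, show inc a • c0 R = 0 from ha, smul_zero] }
  have hJ : ∀ a, a ∈ J ↔ inc a • c0 R = 0 := fun a => Iff.rfl
  let φ : MonoidAlgebra ℤ B →+* MonoidAlgebra ℤ (M ⧸ K) :=
    (MonoidAlgebra.mapDomainRingHom ℤ (QuotientGroup.mk' K)).comp inc
  let I : Ideal (MonoidAlgebra ℤ B) := RingHom.ker φ
  have hI : ∀ a, a ∈ I ↔ MonoidAlgebra.mapDomain (QuotientGroup.mk' K) (inc a) = 0 :=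
    fun a => Iff.rfl
  by_cases htop : I ⊔ J = ⊤
  · have h1 : (1 : MonoidAlgebra ℤ B) ∈ I ⊔ J := by rw [htop]; exact Submodule.mem_top
    obtain ⟨i, hi, j, hj, hij⟩ := Submodule.mem_sup.mp h1
    refine ⟨inc i, est_inB ι hr i, ?_, (hI i).mp hi⟩
    have h2 : inc i = 1 - inc j := by
      have := congrArg inc hij
      rw [map_add, map_one] at this
      rw [← this, add_sub_cancel_right]
    rw [h2, sub_smul, one_smul, (hJ j).mp hj, sub_zero]
  · exfalso
    obtain ⟨𝔪, hmax, hle⟩ := Ideal.exists_le_maximal (I ⊔ J) htop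
    haveI : 𝔪.IsPrime := hmax.isPrime
    let q : MonoidAlgebra ℤ B →+* (MonoidAlgebra ℤ B ⧸ 𝔪) := Ideal.Quotient.mk 𝔪
    have hqI : ∀ a, a ∈ I → q a = 0 := fun a ha =>
      Ideal.Quotient.eq_zero_iff_mem.mpr (hle (Ideal.mem_sup_left ha))
    have hqJ : ∀ a, a ∈ J → q a = 0 := fun a ha =>
      Ideal.Quotient.eq_zero_iff_mem.mpr (hle (Ideal.mem_sup_right ha))
    let χ : B → (MonoidAlgebra ℤ B ⧸ 𝔪) := fun b => q (MonoidAlgebra.of ℤ B b)
    -- characters are trivial on K
    have hχK : ∀ b, ι b ∈ K → χ b = 1 := by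
      intro b hb
      have h1 : MonoidAlgebra.of ℤ B b - 1 ∈ I := by
        rw [hI]
        have h2 : MonoidAlgebra.mapDomainRingHom ℤ (QuotientGroup.mk' K)
            (inc (MonoidAlgebra.of ℤ B b - 1)) = 0 := by
          rw [map_sub, map_one, hinc, map_sub, map_one, est_md_oo]
          have h3 : QuotientGroup.mk' K (ι b) = 1 := by
            rw [QuotientGroup.mk'_apply, QuotientGroup.eq_one_iff]
            exact hb
          rw [h3, map_one, sub_self]
        exact h2
      have h4 := hqI _ h1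
      rw [map_sub, map_one, sub_eq_zero] at h4
      exact h4
    have hχmul : ∀ b b', χ (b * b') = χ b * χ b' := by
      intro b b'
      show q _ = q _ * q _
      rw [map_mul, map_mul]
    have hχeq : ∀ b b', ι (b * b'⁻¹) ∈ K → χ b = χ b' := by
      intro b b' h
      have h1 : b = (b * b'⁻¹) * b' := by group
      rw [h1, hχmul, hχK _ h, one_mul]
    -- stabiliser
    have hstab : ∀ g : M, oo g • c0 R = c0 R → oo g⁻¹ • c0 R = c0 R := by
      intro g hg
      conv_lhs => rw [← hg]
      rw [smul_smul, ← map_mul, inv_mul_cancel, map_one, one_smul]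
    have hstabmul : ∀ g h : M, oo g • c0 R = c0 R → oo h • c0 R = c0 R →
        oo (g * h) • c0 R = c0 R := by
      intro g h hg hh
      rw [show oo (g * h) = oo g * oo h from map_mul _ g h, mul_smul, hh, hg]
    have hstabpow : ∀ g : M, oo g • c0 R = c0 R → ∀ n : ℤ, oo (g ^ n) • c0 R = c0 R := by
      intro g hg n
      have hnat : ∀ n : ℕ, oo (g ^ n) • c0 R = c0 R := by
        intro n
        induction n with
        | zero => rw [pow_zero, show oo (1 : M) = 1 from map_one _, one_smul]
        | succ n ih => rw [pow_succ]; exact hstabmul _ _ ih hg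
      cases n with
      | ofNat n => rw [Int.ofNat_eq_natCast, zpow_natCast]; exact hnat n
      | negSucc n => rw [zpow_negSucc]; exact hstab _ (hnat (n + 1))
    have hxs : oo x • c0 R = c0 R := by
      have := est_rel R _ hx
      rw [sub_smul, one_smul, sub_eq_zero] at this
      exact this
    have hys : oo y • c0 R = c0 R := by
      have := est_rel R _ hy
      rw [sub_smul, one_smul, sub_eq_zero] at this
      exact this
    -- conjugated relations
    have hconj : ∀ g : M, oo g • c0 R = c0 R → ∀ a, inc a ∈ R →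
        q (MonoidAlgebra.mapDomainRingHom ℤ (cj g) a) = 0 := by
      intro g hg a ha
      apply hqJ
      rw [hJ]
      have h1 : inc (MonoidAlgebra.mapDomainRingHom ℤ (cj g) a) = oo g * inc a * oo g⁻¹ :=
        est_conj ι g (cj g) (hcj g) a
      rw [h1, mul_smul, hstab g hg, mul_smul, est_rel R _ ha, smul_zero]
    let β : M → B → (MonoidAlgebra ℤ B ⧸ 𝔪) := fun g b => χ (cj g b)
    have hβ : ∀ g b, q (MonoidAlgebra.mapDomainRingHom ℤ (cj g) (MonoidAlgebra.of ℤ B b)) = β g b := by
      intro g b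
      rw [est_md_oo]
    have hcjmul : ∀ g h b, cj g (cj h b) = cj (g * h) b := by
      intro g h b
      apply hι
      rw [hcj, hcj, hcj]
      group
    -- the relations
    have r1 : ∀ g, oo g • c0 R = c0 R → β g s * β g s - β g s + 1 = 0 := by
      intro g hg
      have := hconj g hg (MonoidAlgebra.of ℤ B s * MonoidAlgebra.of ℤ B s - MonoidAlgebra.of ℤ B s + 1)
        (by rw [map_add, map_sub, map_mul, map_one, hinc]; exact hsq)
      rw [map_add, map_sub, map_mul, map_one, map_add, map_sub, map_mul, map_one, hβ] at this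
      exact this
    have r2 : ∀ g, oo g • c0 R = c0 R → ∀ t t', t ≠ t' →
        (β g (bt t) - 1) * (β g (bt t') - 1) = 0 := by
      intro g hg t t' htt
      have := hconj g hg ((MonoidAlgebra.of ℤ B (bt t) - 1) * (MonoidAlgebra.of ℤ B (bt t') - 1))
        (by rw [map_mul, map_sub, map_sub, map_one, hinc, hinc]; exact htwo t t' htt)
      rw [map_mul, map_sub, map_sub, map_one, map_mul, map_sub, map_sub, map_one, hβ, hβ] at this
      exact this
    have r3 : ∀ g, oo g • c0 R = c0 R → (∑ t : T, (β g (bt t) - 1)) - (β g s - 1) = 0 := by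
      intro g hg
      have := hconj g hg ((∑ t : T, (MonoidAlgebra.of ℤ B (bt t) - 1)) - (MonoidAlgebra.of ℤ B s - 1))
        (by
          rw [map_sub, map_sum, map_sub, map_one, hinc]
          simp only [map_sub, map_one, hinc]
          exact hsum)
      simp only [map_sub, map_sum, map_one, hβ] at this
      exact this
    have r4 : ∀ g, oo g • c0 R = c0 R → ∀ t t', ¬ Hr t t' →
        (β g (bt t) - 1) * (β (g * x) (bt t') - 1) = 0 := by
      intro g hg t t' htt
      have := hconj g hg ((MonoidAlgebra.of ℤ B (bt t) - 1) *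
        (MonoidAlgebra.of ℤ B (cj x (bt t')) - 1))
        (by rw [map_mul, map_sub, map_sub, map_one, hinc, hinc, hcj]; exact hhor t t' htt)
      rw [map_mul, map_sub, map_sub, map_one, map_mul, map_sub, map_sub, map_one, hβ, hβ] at this
      have h2 : β g (cj x (bt t')) = β (g * x) (bt t') := by
        show χ _ = χ _
        rw [hcjmul]
      rw [h2] at this
      exact this
    have r5 : ∀ g, oo g • c0 R = c0 R → ∀ t t', ¬ Vr t t' →
        (β g (bt t) - 1) * (β (g * y) (bt t') - 1) = 0 := by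
      intro g hg t t' htt
      have := hconj g hg ((MonoidAlgebra.of ℤ B (bt t) - 1) *
        (MonoidAlgebra.of ℤ B (cj y (bt t')) - 1))
        (by rw [map_mul, map_sub, map_sub, map_one, hinc, hinc, hcj]; exact hver t t' htt)
      rw [map_mul, map_sub, map_sub, map_one, map_mul, map_sub, map_sub, map_one, hβ, hβ] at this
      have h2 : β g (cj y (bt t')) = β (g * y) (bt t') := by
        show χ _ = χ _
        rw [hcjmul]
      rw [h2] at this
      exact this
    -- the tiling
    have hex : ∀ g, oo g • c0 R = c0 R → ∃ t, β g (bt t) ≠ 1 := by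
      intro g hg
      by_contra hcon
      push Not at hcon
      have h1 := r3 g hg
      rw [Finset.sum_eq_zero (fun t _ => by rw [hcon t, sub_self]), zero_sub, neg_eq_zero,
        sub_eq_zero] at h1
      have h2 := r1 g hg
      rw [h1, mul_one, sub_self, zero_add] at h2
      exact one_ne_zero h2
    have huniq : ∀ g, oo g • c0 R = c0 R → ∀ t t', β g (bt t) ≠ 1 → β g (bt t') ≠ 1 → t = t' := by
      intro g hg t t' h1 h2
      by_contra hne
      rcases mul_eq_zero.mp (r2 g hg t t' hne) with h | h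
      · exact h1 (sub_eq_zero.mp h)
      · exact h2 (sub_eq_zero.mp h)
    -- equal conjugations
    have hβc : ∀ g g' : M, (Abelianization.of g = Abelianization.of g') → ∀ b, β g b = β g' b := by
      intro g g' h b
      have h1 : g⁻¹ * g' ∈ commutator M := by
        exact QuotientGroup.eq.mp h
      obtain ⟨c, hc⟩ := hr' _ h1
      show χ _ = χ _
      congr 1
      apply hι
      rw [hcj, hcj]
      have h2 : g' = g * ι c := by rw [hc]; group
      have h3 : ι c * ι b * (ι c)⁻¹ = ι b := by
        rw [← map_mul, ← map_inv, ← map_mul, mul_comm c b, mul_inv_cancel_right]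
      rw [h2, mul_inv_rev]
      calc g * ι b * g⁻¹ = g * (ι c * ι b * (ι c)⁻¹) * g⁻¹ := by rw [h3]
        _ = _ := by group
    have hβK : ∀ k g : M, k ∈ K → ∀ b, β (k * g) b = β g b := by
      intro k g hk b
      show χ _ = χ _
      apply hχeq
      rw [map_mul, map_inv, hcj, hcj]
      have h1 : k * g * ι b * (k * g)⁻¹ * (g * ι b * g⁻¹)⁻¹ =
          k * ((g * ι b * g⁻¹) * k⁻¹ * (g * ι b * g⁻¹)⁻¹) := by group
      rw [h1]
      exact K.mul_mem hk (Subgroup.Normal.conj_mem inferInstance _ (K.inv_mem hk) _)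
    have hG : ∀ i j : ℤ, oo (x ^ i * y ^ j) • c0 R = c0 R := fun i j =>
      hstabmul _ _ (hstabpow x hxs i) (hstabpow y hys j)
    choose τ hτ using fun i j => hex _ (hG i j)
    have hτu : ∀ i j t, β (x ^ i * y ^ j) (bt t) ≠ 1 → t = τ i j := fun i j t h =>
      huniq _ (hG i j) t (τ i j) h (hτ i j)
    have hn : 0 < K.index := Nat.pos_of_ne_zero hK.index_ne_zero
    refine hper K.index hn ⟨τ, ?_, ?_⟩
    · intro i j
      constructor
      · by_contra hcon
        have h1 := r4 _ (hG i j) _ _ hcon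
        have h2 : β (x ^ i * y ^ j * x) (bt (τ (i + 1) j)) =
            β (x ^ (i + 1) * y ^ j) (bt (τ (i + 1) j)) := by
          apply hβc
          rw [map_mul, map_mul, map_mul, zpow_add_one, map_mul]
          rw [mul_right_comm]
        rw [h2] at h1
        rcases mul_eq_zero.mp h1 with h | h
        · exact hτ i j (sub_eq_zero.mp h)
        · exact hτ (i + 1) j (sub_eq_zero.mp h)
      · by_contra hcon
        have h1 := r5 _ (hG i j) _ _ hcon
        have h2 : x ^ i * y ^ j * y = x ^ i * y ^ (j + 1) := by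
          rw [zpow_add_one, mul_assoc]
        rw [h2] at h1
        rcases mul_eq_zero.mp h1 with h | h
        · exact hτ i j (sub_eq_zero.mp h)
        · exact hτ i (j + 1) (sub_eq_zero.mp h)
    · intro i j
      constructor
      · symm
        apply hτu
        have h2 : x ^ (i + (K.index : ℤ)) * y ^ j = x ^ K.index * (x ^ i * y ^ j) := by
          rw [add_comm, zpow_add, zpow_natCast, mul_assoc]
        rw [h2, hβK _ _ (Subgroup.pow_index_mem K x)]
        exact hτ i j
      · symm
        apply hτu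
        have h2 : x ^ i * y ^ (j + (K.index : ℤ)) =
            ((x ^ i * y ^ j) * y ^ K.index * (x ^ i * y ^ j)⁻¹) * (x ^ i * y ^ j) := by
          rw [zpow_add, zpow_natCast, inv_mul_cancel_right, mul_assoc]
        rw [h2, hβK _ _ (Subgroup.Normal.conj_mem inferInstance _ (Subgroup.pow_index_mem K y) _)]
        exact hτ i j

end estar

/-- the heart: no periodic tilings implies the idempotent-like elements exist -/
theorem estar_tiles {T : Type} [Fintype T] (Hr Vr : T → T → Prop)
    (hper : ∀ n : ℕ, 0 < n → ¬ ∃ τ : ℤ → ℤ → T, Tiling Hr Vr τ ∧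
      ∀ i j, τ (i + n) j = τ i j ∧ τ i (j + n) = τ i j) : Estar (Rel Hr Vr) := by
  classical
  intro K hK hfin
  let B := commutator (Dq (Gn T) 2)
  let cg : CommGroup B :=
    { (inferInstance : Group B) with
      mul_comm := fun a b => Subtype.ext (comm_dq2 (Gn T) a.1 a.2 b.1 b.2) }
  have hsB : gs T ∈ commutator (Dq (Gn T) 2) := by
    exact Subgroup.commutator_mem_commutator (Subgroup.mem_top (gp T)) (Subgroup.mem_top (gq T))
  have hbB : ∀ t : T, gb t ∈ commutator (Dq (Gn T) 2) := by
    intro t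
    exact Subgroup.commutator_mem_commutator (Subgroup.mem_top (gt t)) (Subgroup.mem_top (gq T))
  have hnorm : ∀ (g : Dq (Gn T) 2) (b : B), g * (b : Dq (Gn T) 2) * g⁻¹ ∈ commutator (Dq (Gn T) 2) :=
    fun g b => Subgroup.Normal.conj_mem inferInstance _ b.2 g
  let cj : Dq (Gn T) 2 → B →* B := fun g =>
    { toFun := fun b => ⟨g * (b : Dq (Gn T) 2) * g⁻¹, hnorm g b⟩
      map_one' := by
        apply Subtype.ext
        show g * (1 : Dq (Gn T) 2) * g⁻¹ = 1
        group
      map_mul' := by
        intro a b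
        apply Subtype.ext
        show g * ((a : Dq (Gn T) 2) * b) * g⁻¹ = (g * a * g⁻¹) * (g * b * g⁻¹)
        group }
  exact @estar_core (Dq (Gn T) 2) B T _ cg _ (B.subtype) (Subgroup.subtype_injective _)
    (fun b => b.2) (fun m hm => ⟨⟨m, hm⟩, rfl⟩) cj (fun g b => rfl) Hr Vr (gx T) (gy T)
    ⟨gs T, hsB⟩ (fun t => ⟨gb t, hbB t⟩) (Rel Hr Vr)
    (Or.inr (Set.mem_insert _ _)) (Or.inr (Set.mem_insert_of_mem _ rfl))
    (Or.inl RelB.sq) (fun t t' h => Or.inl (RelB.two t t' h)) (Or.inl RelB.sum)
    (fun t t' h => Or.inl (RelB.hor t t' h)) (fun t t' h => Or.inl (RelB.ver t t' h))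
    hper K hK hfin

end Pool.Agent.Helper777.Prof
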