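import Pool.Agent.Helper777.Prof.Defs
import Pool.Agent.Helper777.Prof.P_comm_dq2
import Pool.Agent.Helper777.Prof.P_dl_two

set_option autoImplicit false
set_option linter.all false

namespace Pool.Agent.Helper777.Prof

noncomputable def inc (k M ι : Type) [CommRing k] [Group M] :
    Multiplicative (ι → MonoidAlgebra k M) →* Wr k M ι where
  toFun v := ⟨v.toAdd, 1⟩
  map_one' := rfl
  map_mul' a b := by
    ext1
    · simp only [Wr.mul_v, map_one, one_smul, toAdd_mul]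
    · simp only [Wr.mul_m, mul_one]

noncomputable def f0 (T : Type) : FreeGroup (Gn T) →* Wr ℤ (Multiplicative ℤ) Unit :=
  FreeGroup.lift (fun a => match a with
    | Sum.inl 0 => ⟨0, Multiplicative.ofAdd 1⟩
    | Sum.inl 1 => ⟨fun _ => 1, 1⟩
    | _ => 1)

theorem f0_kills (T : Type) (w : FreeGroup (Gn T)) (hw : w ∈ derivedSeries (FreeGroup (Gn T)) 2) :
    f0 T w = 1 := by
  refine dl_two (f0 T) (⟨⟨fun w => w.m, rfl⟩, fun _ _ => rfl⟩ :
    Wr ℤ (Multiplicative ℤ) Unit →* Multiplicative ℤ) ?_ w hw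
  intro a b ha hb
  have ha' : a.m = 1 := ha
  have hb' : b.m = 1 := hb
  ext1
  · simp only [Wr.mul_v, ha', hb', map_one, one_smul, add_comm]
  · simp only [Wr.mul_m, ha', hb']

noncomputable def f1 (T : Type) : Dq (Gn T) 2 →* Wr ℤ (Multiplicative ℤ) Unit :=
  QuotientGroup.lift _ (f0 T) (fun w hw => f0_kills T w hw)

theorem indep (T : Type) :
    ∃ b1 b2 : Dq (Gn T) 2, b1 * b2 = b2 * b1 ∧
      (∀ i j : ℤ, b1 ^ i * b2 ^ j = 1 → i = 0 ∧ j = 0) ∧
      b1 ∈ Subgroup.closure {gx T, gy T} ∧ b2 ∈ Subgroup.closure {gx T, gy T} := by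
  have hx : gx T ∈ Subgroup.closure {gx T, gy T} := Subgroup.subset_closure (by simp)
  have hy : gy T ∈ Subgroup.closure {gx T, gy T} := Subgroup.subset_closure (by simp)
  have hb1 : gx T * gy T * (gx T)⁻¹ * (gy T)⁻¹ ∈ Subgroup.closure {gx T, gy T} :=
    mul_mem (mul_mem (mul_mem hx hy) (inv_mem hx)) (inv_mem hy)
  have hc1 : gx T * gy T * (gx T)⁻¹ * (gy T)⁻¹ ∈ commutator (Dq (Gn T) 2) :=
    Subgroup.commutator_mem_commutator (Subgroup.mem_top _) (Subgroup.mem_top _)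
  have hc2 : gx T * (gx T * gy T * (gx T)⁻¹ * (gy T)⁻¹) * (gx T)⁻¹ ∈ commutator (Dq (Gn T) 2) :=
    Subgroup.Normal.conj_mem inferInstance _ hc1 _
  refine ⟨gx T * gy T * (gx T)⁻¹ * (gy T)⁻¹,
    gx T * (gx T * gy T * (gx T)⁻¹ * (gy T)⁻¹) * (gx T)⁻¹,
    comm_dq2 _ _ hc1 _ hc2, ?_, hb1, mul_mem (mul_mem hx hb1) (inv_mem hx)⟩
  have h1x : f1 T (gx T) = ⟨0, Multiplicative.ofAdd 1⟩ := by
    show f0 T (FreeGroup.of (Sum.inl 0)) = _
    unfold f0
    rw [FreeGroup.lift_apply_of]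
    rfl
  have h1y : f1 T (gy T) = ⟨fun _ => 1, 1⟩ := by
    show f0 T (FreeGroup.of (Sum.inl 1)) = _
    unfold f0
    rw [FreeGroup.lift_apply_of]
    rfl
  set t : MonoidAlgebra ℤ (Multiplicative ℤ) :=
    MonoidAlgebra.of ℤ (Multiplicative ℤ) (Multiplicative.ofAdd 1) with ht
  have e1 : f1 T (gx T * gy T * (gx T)⁻¹ * (gy T)⁻¹) =
      inc ℤ (Multiplicative ℤ) Unit (Multiplicative.ofAdd (fun _ => t - 1)) := by
    rw [map_mul, map_mul, map_mul, map_inv, map_inv, h1x, h1y]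
    apply Wr.ext
    · funext u
      simp [Wr.mul_v, Wr.mul_m, Wr.inv_v, Wr.inv_m, inc, ht, sub_eq_add_neg]
      rfl
    · simp [Wr.mul_m, Wr.inv_m, inc]
  have e2 : f1 T (gx T * (gx T * gy T * (gx T)⁻¹ * (gy T)⁻¹) * (gx T)⁻¹) =
      inc ℤ (Multiplicative ℤ) Unit (Multiplicative.ofAdd (fun _ => t * (t - 1))) := by
    rw [map_mul, map_mul _ (gx T), e1, map_inv, h1x]
    apply Wr.ext
    · funext u
      simp [Wr.mul_v, Wr.mul_m, Wr.inv_v, Wr.inv_m, inc, ht, sub_eq_add_neg]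
    · simp [Wr.mul_m, Wr.inv_m, inc]
  intro i j hij
  have h2 := congrArg (f1 T) hij
  rw [map_mul, map_zpow, map_zpow, e1, e2, map_one, ← map_zpow (inc ℤ (Multiplicative ℤ) Unit),
    ← map_zpow (inc ℤ (Multiplicative ℤ) Unit), ← map_mul (inc ℤ (Multiplicative ℤ) Unit)] at h2
  have h3 := congrArg (fun w : Wr ℤ (Multiplicative ℤ) Unit => w.v ()) h2
  have h4 : i • (t - 1) + j • (t * (t - 1)) = 0 := h3
  have hL := fun (u : ℚˣ) => congrArg (MonoidAlgebra.lift ℤ ℚ (Multiplicative ℤ)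
    ((Units.coeHom ℚ).comp (zpowersHom ℚˣ u))) h4
  have hv : ∀ u : ℚˣ, MonoidAlgebra.lift ℤ ℚ (Multiplicative ℤ)
    ((Units.coeHom ℚ).comp (zpowersHom ℚˣ u)) t = u := by
    intro u
    rw [ht]
    simp
  have hu1 := hL (-1)
  have hu2 := hL (Units.mk0 2 (by norm_num))
  simp only [map_add, map_zsmul, map_mul, map_sub, map_one, map_zero, hv] at hu1 hu2
  simp only [zsmul_eq_mul, Units.val_neg, Units.val_one, Units.val_mk0] at hu1 hu2
  have h5 : (i : ℚ) = 0 := by linarith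
  have h6 : (j : ℚ) = 0 := by linarith
  exact ⟨by exact_mod_cast h5, by exact_mod_cast h6⟩

end Pool.Agent.Helper777.Prof
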