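import Pool.Agent.Helper777.Prof.Defs

set_option autoImplicit false
set_option linter.all false

namespace Pool.Agent.Helper777.Prof

theorem k1fin_fix {k Q : Type} [CommRing k] [Group Q] (E : Subgroup Q) [E.Normal]
    (f X : MonoidAlgebra k Q) (hf : ∀ e ∈ E, ∀ h, f.coeff (e * h) = f.coeff h)
    (hX : MonoidAlgebra.mapDomain (QuotientGroup.mk' E) X = 0) : f * X = 0 := by
  classical
  obtain ⟨F, hF⟩ : ∃ F : Q ⧸ E → k, ∀ u : Q, F (QuotientGroup.mk' E u) = f.coeff u := by
    refine ⟨fun v => f.coeff v.out, fun u => ?_⟩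
    have h1 : (QuotientGroup.mk' E u).out⁻¹ * u ∈ E := by
      rw [← QuotientGroup.eq]
      exact QuotientGroup.out_eq' _
    have h2 : u * ((QuotientGroup.mk' E u).out)⁻¹ ∈ E :=
      (inferInstance : E.Normal).mem_comm h1
    have h3 := hf _ h2 (QuotientGroup.mk' E u).out
    rw [inv_mul_cancel_right] at h3
    exact h3.symm
  have key : ∀ (h : Q) (X : MonoidAlgebra k Q), (f * X).coeff h =
      (MonoidAlgebra.mapDomain (QuotientGroup.mk' E) X).coeff.sum
        (fun v r => F (QuotientGroup.mk' E h * v⁻¹) * r) := by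
    intro h X
    induction X using MonoidAlgebra.induction_linear with
    | zero => simp
    | add X Y hX hY =>
      rw [mul_add, MonoidAlgebra.mapDomain_add, MonoidAlgebra.coeff_add, MonoidAlgebra.coeff_add,
        Finsupp.add_apply, hX, hY, Finsupp.sum_add_index']
      · intro v; rw [mul_zero]
      · intro v a b; rw [mul_add]
    | single g r =>
      rw [MonoidAlgebra.coeff_mul_single_apply, MonoidAlgebra.mapDomain_single,
        MonoidAlgebra.coeff_single, Finsupp.sum_single_index (by rw [mul_zero])]
      rw [← map_inv, ← map_mul, hF]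
  ext h
  rw [key, hX]
  simp

/-- finite version of K1 -/
theorem k1fin {Q : Type} [Group Q] [Finite Q] (p : ℕ) (hp : p.Prime) (E : Subgroup Q) [E.Normal]
    (hE : IsPGroup p E) (κ : Type) [Fintype κ] (z : κ → MonoidAlgebra (ZMod p) Q)
    (X : κ → κ → MonoidAlgebra (ZMod p) Q)
    (hX : ∀ i j, MonoidAlgebra.mapDomain (QuotientGroup.mk' E) (X i j) = 0)
    (hz : ∀ j, z j = ∑ i, z i * X i j) : z = 0 := by
  classical
  haveI : Fact p.Prime := ⟨hp⟩
  by_contra hz0
  -- the additive group of solutions
  let W : AddSubgroup (κ → MonoidAlgebra (ZMod p) Q) :=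
    { carrier := {w | ∀ j, w j = ∑ i, w i * X i j}
      add_mem' := by
        intro a b ha hb j
        simp only [Pi.add_apply, add_mul, Finset.sum_add_distrib]
        rw [← ha j, ← hb j]
      zero_mem' := by
        intro j
        simp
      neg_mem' := by
        intro a ha j
        simp only [Pi.neg_apply, neg_mul, Finset.sum_neg_distrib]
        rw [← ha j] }
  have hW : ∀ w : κ → MonoidAlgebra (ZMod p) Q, w ∈ W ↔ ∀ j, w j = ∑ i, w i * X i j :=
    fun w => Iff.rfl
  haveI hfin0 : Finite (MonoidAlgebra (ZMod p) Q) := by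
    apply Finite.of_injective (fun f : MonoidAlgebra (ZMod p) Q => (fun q => f.coeff q : Q → ZMod p))
    intro f g hfg
    ext q
    exact congrFun hfg q
  haveI : Finite (κ → MonoidAlgebra (ZMod p) Q) := inferInstance
  haveI : Finite W := inferInstance
  have hpc : ∀ f : MonoidAlgebra (ZMod p) Q, p • f = 0 := by
    intro f
    ext q
    rw [MonoidAlgebra.coeff_smul_apply]
    simp
  have hdvd : p ∣ Nat.card W := by
    have hzW : z ∈ W := (hW z).2 hz
    have h1 : addOrderOf (⟨z, hzW⟩ : W) = p := by
      apply addOrderOf_eq_prime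
      · apply Subtype.ext
        funext j
        show p • z j = 0
        exact hpc _
      · intro h
        apply hz0
        exact congrArg Subtype.val h
    have h2 := addOrderOf_dvd_natCard (⟨z, hzW⟩ : W)
    exact h1.symm.dvd.trans h2
  let act : MulAction E W :=
    { smul := fun e w => ⟨fun j => MonoidAlgebra.of (ZMod p) Q e.1 * w.1 j, by
        rw [hW]
        intro j
        show MonoidAlgebra.of (ZMod p) Q e.1 * w.1 j = _
        conv_lhs => rw [(hW _).1 w.2 j]
        rw [Finset.mul_sum]
        refine Finset.sum_congr rfl (fun i _ => ?_)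
        rw [mul_assoc]⟩
      one_smul := by
        intro w
        apply Subtype.ext
        funext j
        show MonoidAlgebra.of (ZMod p) Q ((1 : E) : Q) * w.1 j = w.1 j
        rw [OneMemClass.coe_one, map_one, one_mul]
      mul_smul := by
        intro a b w
        apply Subtype.ext
        funext j
        show MonoidAlgebra.of (ZMod p) Q ((a * b : E) : Q) * w.1 j =
          MonoidAlgebra.of (ZMod p) Q (a : Q) * (MonoidAlgebra.of (ZMod p) Q (b : Q) * w.1 j)
        rw [Subgroup.coe_mul, map_mul, mul_assoc] }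
  have hact : ∀ (e : E) (w : W) (j : κ), (e • w).1 j = MonoidAlgebra.of (ZMod p) Q e.1 * w.1 j :=
    fun e w j => rfl
  have h0fix : (0 : W) ∈ MulAction.fixedPoints E W := by
    rw [MulAction.mem_fixedPoints]
    intro e
    apply Subtype.ext
    funext j
    rw [hact]
    show _ * (0 : MonoidAlgebra (ZMod p) Q) = 0
    rw [mul_zero]
  obtain ⟨w, hw, hw0⟩ := hE.exists_fixed_point_of_prime_dvd_card_of_fixed_point W hdvd h0fix
  rw [MulAction.mem_fixedPoints] at hw
  have hfix : ∀ j, ∀ e ∈ E, ∀ h, (w.1 j).coeff (e * h) = (w.1 j).coeff h := by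
    intro j e he h
    have h1 := hact ⟨e, he⟩ w j
    rw [hw] at h1
    have h2 := congrArg (fun f => f.coeff (e * h)) h1
    simp only [MonoidAlgebra.of_apply, MonoidAlgebra.coeff_single_mul_apply, one_mul,
      inv_mul_cancel_left] at h2
    exact h2
  apply hw0
  symm
  apply Subtype.ext
  funext j
  rw [(hW _).1 w.2 j]
  show _ = (0 : MonoidAlgebra (ZMod p) Q)
  apply Finset.sum_eq_zero
  intro i _
  exact k1fin_fix E (w.1 i) (X i j) (hfix i) (hX i j)

end Pool.Agent.Helper777.Prof
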