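import Pool.Agent.Helper777.Prof.Defs
import Pool.Agent.Helper777.Prof.P_k1fin

set_option autoImplicit false
set_option linter.all false

namespace Pool.Agent.Helper777.Prof

theorem k1_of_psep {M : Type} [Group M] (h : Psep M) : K1 M := by
  classical
  intro κ _ z X hX hz
  by_contra hne
  obtain ⟨j0, hj0⟩ := Function.ne_iff.1 hne
  have hsup : ∃ m0, (z j0).coeff m0 ≠ 0 := by
    by_contra hcon
    push Not at hcon
    apply hj0
    ext m
    exact hcon m
  obtain ⟨m0, hm0⟩ := hsup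
  have h1 : (1 : M) ∉ ((z j0).coeff.support.erase m0).image (fun m => m0⁻¹ * m) := by
    intro h1
    rw [Finset.mem_image] at h1
    obtain ⟨m, hm, hmm⟩ := h1
    apply Finset.ne_of_mem_erase hm
    exact (inv_mul_eq_one.1 hmm).symm
  obtain ⟨N0, hN0⟩ := h _ h1
  obtain ⟨p, hp1, hp2⟩ := Nat.exists_infinite_primes (N0 + ((z j0).coeff m0).natAbs + 1)
  obtain ⟨Q, _, _, f, E, hE, hPG, hf, hfE⟩ := hN0 p hp2 (by omega)
  obtain ⟨P, hP⟩ : ∃ P : MonoidAlgebra ℤ M →+* MonoidAlgebra (ZMod p) Q,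
    P = (MonoidAlgebra.mapRingHom Q (Int.castRingHom (ZMod p))).comp
      (MonoidAlgebra.mapDomainRingHom ℤ f) := ⟨_, rfl⟩
  have hPz : ∀ j, P (z j) = ∑ i, P (z i) * P (X i j) := by
    intro j
    conv_lhs => rw [hz j]
    rw [map_sum]
    exact Finset.sum_congr rfl fun i _ => map_mul P _ _
  have hgk : ∀ m ∈ commutator M, ((QuotientGroup.mk' E).comp f) m = 1 := by
    intro m hm
    exact (QuotientGroup.eq_one_iff _).2 (hfE m hm)
  obtain ⟨g', hg'⟩ : ∃ g' : Abelianization M →* Q ⧸ E,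
      g'.comp Abelianization.of = (QuotientGroup.mk' E).comp f := by
    refine ⟨QuotientGroup.lift (commutator M) ((QuotientGroup.mk' E).comp f) hgk, ?_⟩
    ext m
    rfl
  have hcomp : (MonoidAlgebra.mapDomainRingHom (ZMod p) (QuotientGroup.mk' E)).comp P =
      ((MonoidAlgebra.mapRingHom (Q ⧸ E) (Int.castRingHom (ZMod p))).comp
        (MonoidAlgebra.mapDomainRingHom ℤ g')).comp (aug ℤ M) := by
    rw [hP, ← RingHom.comp_assoc, ← MonoidAlgebra.mapRingHom_comp_mapDomainRingHom,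
      RingHom.comp_assoc, ← MonoidAlgebra.mapDomainRingHom_comp, ← hg',
      MonoidAlgebra.mapDomainRingHom_comp, ← RingHom.comp_assoc]
    rfl
  have hPX : ∀ i j, MonoidAlgebra.mapDomain (QuotientGroup.mk' E) (P (X i j)) = 0 := by
    intro i j
    have h2 := congrArg (fun F : MonoidAlgebra ℤ M →+* MonoidAlgebra (ZMod p) (Q ⧸ E) =>
      F (X i j)) hcomp
    have h3 : MonoidAlgebra.mapDomain (QuotientGroup.mk' E) (P (X i j)) =
      ((MonoidAlgebra.mapRingHom (Q ⧸ E) (Int.castRingHom (ZMod p))).comp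
        (MonoidAlgebra.mapDomainRingHom ℤ g')) (aug ℤ M (X i j)) := h2
    rw [h3, hX i j, map_zero]
  have hk := k1fin p hp2 E hPG κ (fun j => P (z j)) (fun i j => P (X i j)) hPX hPz
  have h0 : P (z j0) = 0 := congrFun hk j0
  have hmd : (Finsupp.mapDomain f (z j0).coeff) (f m0) = (z j0).coeff m0 := by
    rw [Finsupp.mapDomain, Finsupp.sum_apply, Finsupp.sum, Finset.sum_eq_single m0]
    · rw [Finsupp.single_eq_same]
    · intro m hm hmne
      apply Finsupp.single_eq_of_ne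
      intro heq
      have h4 : m0⁻¹ * m ∈ ((z j0).coeff.support.erase m0).image (fun m => m0⁻¹ * m) :=
        Finset.mem_image_of_mem _ (Finset.mem_erase.2 ⟨hmne, hm⟩)
      apply hf _ h4
      rw [map_mul, map_inv]
      first
        | rw [heq, inv_mul_cancel]
        | rw [← heq, inv_mul_cancel]
    · intro hm
      exact absurd (Finsupp.mem_support_iff.2 hm0) hm
  have hcoef : (P (z j0)).coeff (f m0) = (((z j0).coeff m0 : ℤ) : ZMod p) := by
    rw [hP, RingHom.comp_apply, MonoidAlgebra.coeff_mapRingHom]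
    show ((Finsupp.mapDomain f (z j0).coeff (f m0) : ℤ) : ZMod p) = _
    rw [hmd]
  rw [h0] at hcoef
  have hdvd : (p : ℤ) ∣ (z j0).coeff m0 := by
    rw [← ZMod.intCast_zmod_eq_zero_iff_dvd, ← hcoef]
    rfl
  have hle := Nat.le_of_dvd (Int.natAbs_pos.2 hm0) (Int.natCast_dvd.1 hdvd)
  omega

end Pool.Agent.Helper777.Prof
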