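import Pool.Agent.Helper777.Prof.Defs
import Pool.Agent.Helper777.Prof.P_mag_m

set_option autoImplicit false
set_option linter.all false

namespace Pool.Agent.Helper777.Prof

theorem mag_comm {ι M : Type} [Group M] [DecidableEq ι] (π : FreeGroup ι →* M)
    (w : FreeGroup ι) (hw : w ∈ ⁅π.ker, π.ker⁆) : mag π w = 1 := by
  have hle : ⁅π.ker, π.ker⁆ ≤ (mag π).ker := by
    rw [Subgroup.commutator_le]
    intro a ha b hb
    rw [MonoidHom.mem_ker] at ha hb ⊢
    rw [map_commutatorElement, commutatorElement_eq_one_iff_mul_comm]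
    have ea : (mag π a).m = 1 := by rw [mag_m, ha]
    have eb : (mag π b).m = 1 := by rw [mag_m, hb]
    ext1
    · rw [Wr.mul_v, Wr.mul_v, ea, eb, map_one, one_smul, one_smul, add_comm]
    · rw [Wr.mul_m, Wr.mul_m, ea, eb]
  exact MonoidHom.mem_ker.mp (hle hw)

end Pool.Agent.Helper777.Prof
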