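import Pool.Agent.Helper777.Prof.Defs
import Pool.Agent.Helper777.Prof.P_mag_m
import Pool.Agent.Helper777.Prof.P_mag_comm

set_option autoImplicit false
set_option linter.all false

namespace Pool.Agent.Helper777.Prof

theorem aux_aug_of {M : Type} [Group M] (m : M) :
    aug ℤ M (MonoidAlgebra.of ℤ M m) = MonoidAlgebra.of ℤ (Abelianization M) (Abelianization.of m) := by
  simp [aug, MonoidAlgebra.of_apply, MonoidAlgebra.mapDomainRingHom_apply,
    MonoidAlgebra.mapDomain_single]

theorem ker_aug {ι : Type} [DecidableEq ι] (w : FreeGroup ι) (hw : pn ι 2 w = 1) (i : ι) :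
    aug ℤ (Dq ι 2) ((mag (pn ι 2) w).v i) = 0 := by
  set π' : FreeGroup ι →* Abelianization (Dq ι 2) :=
    (Abelianization.of : Dq ι 2 →* Abelianization (Dq ι 2)).comp (pn ι 2) with hπ'
  have key : (Wr.map (ι := ι) (Abelianization.of : Dq ι 2 →* Abelianization (Dq ι 2))
      (aug ℤ (Dq ι 2)) aux_aug_of).comp (mag (pn ι 2)) = mag π' := by
    apply FreeGroup.ext_hom
    intro a
    have h1 : mag (pn ι 2) (FreeGroup.of a) = ⟨Pi.single a 1, pn ι 2 (FreeGroup.of a)⟩ := by
      simp [mag]
    have h2 : mag π' (FreeGroup.of a) = ⟨Pi.single a 1, π' (FreeGroup.of a)⟩ := by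
      simp [mag]
    rw [MonoidHom.comp_apply, h1, h2]
    ext1
    · funext j
      change aug ℤ (Dq ι 2) ((Pi.single a 1 : ι → MonoidAlgebra ℤ (Dq ι 2)) j) =
        (Pi.single a 1 : ι → MonoidAlgebra ℤ (Abelianization (Dq ι 2))) j
      by_cases hj : j = a
      · subst hj
        rw [Pi.single_eq_same, Pi.single_eq_same, map_one]
      · rw [Pi.single_eq_of_ne hj, Pi.single_eq_of_ne hj, map_zero]
    · rfl
  have hw2 : w ∈ derivedSeries (FreeGroup ι) 2 := (QuotientGroup.eq_one_iff w).1 hw
  have h1 : derivedSeries (FreeGroup ι) 1 ≤ π'.ker := by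
    rw [derivedSeries_succ, derivedSeries_zero, Subgroup.commutator_le]
    intro g _ h _
    rw [MonoidHom.mem_ker, map_commutatorElement, commutatorElement_eq_one_iff_mul_comm]
    exact mul_comm _ _
  have hw3 : w ∈ ⁅π'.ker, π'.ker⁆ := by
    rw [derivedSeries_succ] at hw2
    exact Subgroup.commutator_mono h1 h1 hw2
  have h3 := mag_comm π' w hw3
  rw [← key] at h3
  have h4 := congrArg (fun z => Wr.v z i) h3
  exact h4

end Pool.Agent.Helper777.Prof
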