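import Pool.Agent.Helper777.Prof.Defs

set_option autoImplicit false
set_option linter.all false

namespace Pool.Agent.Helper777.Prof

/-- a finitely supported function invariant under an injective map without periodic points vanishes -/
theorem fin_inv {T : Type} (τ : T → T) (hτ : Function.Injective τ)
    (hper : ∀ (n : ℕ) (t : T), 0 < n → τ^[n] t ≠ t) (f : T →₀ ℤ)
    (hf : Finsupp.mapDomain τ f = f) : f = 0 := by
  have h1 : ∀ t, f (τ t) = f t := by
    intro t
    conv_lhs => rw [← hf]
    exact Finsupp.mapDomain_apply hτ f t
  have h2 : ∀ (n : ℕ) t, f (τ^[n] t) = f t := by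
    intro n
    induction n with
    | zero => intro t; rfl
    | succ n ih =>
      intro t
      rw [Function.iterate_succ_apply', h1, ih]
  have h4 : ∀ (a n : ℕ) (t : T), 0 < n → τ^[a] t ≠ τ^[a + n] t := by
    intro a n t hn h
    rw [Function.iterate_add_apply] at h
    exact hper n t hn (hτ.iterate a h).symm
  ext t
  by_contra hne
  have hne' : f t ≠ 0 := hne
  have hinj : Function.Injective (fun n : ℕ => (⟨τ^[n] t, by
      rw [Finsupp.mem_support_iff, h2]; exact hne'⟩ : f.support)) := by
    intro a b hab
    have hab' : τ^[a] t = τ^[b] t := congrArg Subtype.val hab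
    rcases lt_trichotomy a b with h | h | h
    · exfalso
      obtain ⟨n, rfl⟩ := Nat.exists_eq_add_of_lt h
      exact h4 a (n + 1) t (Nat.succ_pos n) hab'
    · exact h
    · exfalso
      obtain ⟨n, rfl⟩ := Nat.exists_eq_add_of_lt h
      exact h4 b (n + 1) t (Nat.succ_pos n) hab'.symm
  exact not_injective_infinite_finite _ hinj

end Pool.Agent.Helper777.Prof
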