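import Pool.Agent.Helper777.Prof.Defs
import Pool.Agent.Helper777.Prof.P_fin_inv

set_option autoImplicit false
set_option linter.all false

namespace Pool.Agent.Helper777.Prof

theorem k2_oo845 {M : Type} [Group M] (m : M) : oo m = MonoidAlgebra.single m 1 := rfl

theorem k2_pow845 {M : Type} [Group M] (b1 : M) (k : ℤ) :
    ∃ u : MonoidAlgebra ℤ M, oo (b1 ^ k) - 1 = (oo b1 - 1) * u := by
  induction k using Int.induction_on with
  | zero => exact ⟨0, by rw [zpow_zero, mul_zero]; exact sub_eq_zero.2 (map_one _)⟩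
  | succ k ih =>
    obtain ⟨u, hu⟩ := ih
    refine ⟨oo (b1 ^ (k : ℤ)) + u, ?_⟩
    rw [mul_add, ← hu, sub_mul, one_mul, ← map_mul, ← zpow_one_add, add_comm (1 : ℤ)]
    abel
  | pred k ih =>
    obtain ⟨u, hu⟩ := ih
    refine ⟨u - oo (b1 ^ (-(k : ℤ) - 1)), ?_⟩
    rw [mul_sub, ← hu, sub_mul, one_mul, ← map_mul, ← zpow_one_add, add_sub_cancel]
    abel

theorem k2 {M : Type} [Group M] (b1 b2 : M) (hc : b1 * b2 = b2 * b1)
    (hi : ∀ i j : ℤ, b1 ^ i * b2 ^ j = 1 → i = 0 ∧ j = 0) (p q : MonoidAlgebra ℤ M)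
    (h : (oo b2 - 1) * p = (oo b1 - 1) * q) : ∃ t, p = (oo b1 - 1) * t := by
  classical
  have hcz : ∀ k : ℤ, b1 ^ k * b2 = b2 * b1 ^ k := fun k =>
    ((show Commute b1 b2 from hc).zpow_left k).eq
  let st : Setoid M := {
    r := fun m m' => ∃ k : ℤ, m' = b1 ^ k * m
    iseqv := by
      refine ⟨fun m => ⟨0, by simp⟩, ?_, ?_⟩
      · rintro m m' ⟨k, rfl⟩
        exact ⟨-k, by simp⟩
      · rintro m m' m'' ⟨k, rfl⟩ ⟨l, rfl⟩
        exact ⟨l + k, by rw [zpow_add, mul_assoc]⟩ }
  let mk : M → Quotient st := Quotient.mk st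
  have hmk : ∀ m m', mk m = mk m' ↔ ∃ k : ℤ, m' = b1 ^ k * m := fun m m' => Quotient.eq
  let τ : Quotient st → Quotient st := Quotient.map (fun m => b2 * m) (by
    rintro m m' ⟨k, rfl⟩
    exact ⟨k, by rw [← mul_assoc, ← mul_assoc, hcz]⟩)
  have hτmk : ∀ m, τ (mk m) = mk (b2 * m) := fun m => rfl
  have hτ : Function.Injective τ := by
    intro x y
    induction x using Quotient.inductionOn with
    | h m =>
      induction y using Quotient.inductionOn with
      | h m' =>
        intro hxy
        obtain ⟨k, hk⟩ := (hmk _ _).1 (show mk (b2 * m) = mk (b2 * m') from hxy)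
        refine (hmk m m').2 ⟨k, ?_⟩
        rw [← mul_assoc, hcz, mul_assoc] at hk
        exact mul_left_cancel hk
  have hτn : ∀ (n : ℕ) (m : M), τ^[n] (mk m) = mk (b2 ^ n * m) := by
    intro n
    induction n with
    | zero => intro m; simp
    | succ n ih =>
      intro m
      rw [Function.iterate_succ_apply, hτmk, ih, ← mul_assoc, ← pow_succ]
  have hper : ∀ (n : ℕ) (t : Quotient st), 0 < n → τ^[n] t ≠ t := by
    intro n t hn
    induction t using Quotient.inductionOn with
    | h m =>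
      intro hxy
      rw [show (Quotient.mk st m) = mk m from rfl, hτn] at hxy
      obtain ⟨k, hk⟩ := (hmk _ _).1 hxy
      have h1 : b1 ^ k * b2 ^ (n : ℤ) = 1 := by
        rw [zpow_natCast]
        have : b1 ^ k * b2 ^ n * m = 1 * m := by rw [mul_assoc, ← hk, one_mul]
        exact mul_right_cancel this
      have := (hi _ _ h1).2
      omega
  let P : MonoidAlgebra ℤ M →+ (Quotient st →₀ ℤ) :=
    (Finsupp.mapDomain.addMonoidHom mk).comp (MonoidAlgebra.coeffAddEquiv).toAddMonoidHom
  have hPs : ∀ m r, P (MonoidAlgebra.single m r) = Finsupp.single (mk m) r := fun m r =>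
    Finsupp.mapDomain_single
  have hP1 : ∀ f, P (oo b1 * f) = P f := by
    intro f
    have : P.comp (AddMonoidHom.mulLeft (oo b1)) = P := by
      refine MonoidAlgebra.addMonoidHom_ext fun m r => ?_
      show P (oo b1 * MonoidAlgebra.single m r) = P (MonoidAlgebra.single m r)
      rw [k2_oo845, MonoidAlgebra.single_mul_single, one_mul, hPs, hPs]
      congr 1
      exact ((hmk _ _).2 ⟨1, by simp⟩).symm
    exact DFunLike.congr_fun this f
  have hP2 : ∀ f, P (oo b2 * f) = Finsupp.mapDomain τ (P f) := by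
    intro f
    have : P.comp (AddMonoidHom.mulLeft (oo b2)) =
        (Finsupp.mapDomain.addMonoidHom τ).comp P := by
      refine MonoidAlgebra.addMonoidHom_ext fun m r => ?_
      show P (oo b2 * MonoidAlgebra.single m r) =
        Finsupp.mapDomain τ (P (MonoidAlgebra.single m r))
      rw [k2_oo845, MonoidAlgebra.single_mul_single, one_mul, hPs, hPs,
        Finsupp.mapDomain_single, hτmk]
    exact DFunLike.congr_fun this f
  have hPp : P p = 0 := by
    refine fin_inv τ hτ hper (P p) ?_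
    have h1 := congrArg P h
    rw [sub_mul, sub_mul, one_mul, one_mul, map_sub, map_sub, hP1, hP2, sub_self,
      sub_eq_zero] at h1
    exact h1
  let S : (Quotient st →₀ ℤ) →+ MonoidAlgebra ℤ M :=
    (MonoidAlgebra.coeffAddEquiv).symm.toAddMonoidHom.comp
      (Finsupp.mapDomain.addMonoidHom (fun x : Quotient st => x.out))
  have hS : ∀ x r, S (Finsupp.single x r) = MonoidAlgebra.single x.out r := by
    intro x r
    show MonoidAlgebra.ofCoeff (Finsupp.mapDomain _ (Finsupp.single x r)) = _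
    rw [Finsupp.mapDomain_single]
    rfl
  have key : ∀ f : MonoidAlgebra ℤ M, ∃ t, f - S (P f) = (oo b1 - 1) * t := by
    intro f
    induction f using MonoidAlgebra.induction_linear with
    | zero => exact ⟨0, by simp⟩
    | add x y hx hy =>
      obtain ⟨t1, h1⟩ := hx
      obtain ⟨t2, h2⟩ := hy
      refine ⟨t1 + t2, ?_⟩
      rw [mul_add, ← h1, ← h2, map_add, map_add]
      abel
    | single m r =>
      rw [hPs, hS]
      obtain ⟨k, hk⟩ := (hmk (mk m).out m).1 (Quotient.out_eq (mk m))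
      obtain ⟨u, hu⟩ := k2_pow845 b1 k
      refine ⟨u * MonoidAlgebra.single (mk m).out r, ?_⟩
      rw [← mul_assoc, ← hu, sub_mul, one_mul, k2_oo845,
        MonoidAlgebra.single_mul_single, one_mul, ← hk]
  obtain ⟨t, ht⟩ := key p
  rw [hPp, map_zero, sub_zero] at ht
  exact ⟨t, ht⟩
end Pool.Agent.Helper777.Prof
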