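import Pool.Agent.Helper777.Prof.Defs
import Pool.Agent.Helper777.Prof.P_fin_inv

set_option autoImplicit false
set_option linter.all false

namespace Pool.Agent.Helper777.Prof

theorem k2inj {M : Type} [Group M] (b : M) (hb : ∀ n : ℤ, b ^ n = 1 → n = 0)
    (f : MonoidAlgebra ℤ M) (h : (oo b - 1) * f = 0) : f = 0 := by
  have h1 : oo b * f = f := by
    rw [sub_mul, one_mul, sub_eq_zero] at h
    exact h
  have hinj : Function.Injective (fun m : M => b * m) := mul_right_injective b
  have hper : ∀ (n : ℕ) (t : M), 0 < n → (fun m : M => b * m)^[n] t ≠ t := by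
    intro n t hn heq
    rw [mul_left_iterate] at heq
    have h2 : b ^ n = 1 := by
      have : b ^ n * t = 1 * t := by rw [one_mul]; exact heq
      exact mul_right_cancel this
    have h3 := hb n (by rw [zpow_natCast]; exact h2)
    omega
  have h4 : Finsupp.mapDomain (fun m : M => b * m) f.coeff = f.coeff := by
    ext m
    have h5 : m = (fun m : M => b * m) (b⁻¹ * m) := by simp
    have h6 : Finsupp.mapDomain (fun m : M => b * m) f.coeff m = f.coeff (b⁻¹ * m) := by
      conv_lhs => rw [h5]
      rw [Finsupp.mapDomain_apply hinj]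
    rw [h6]
    conv_rhs => rw [← h1]
    show f.coeff (b⁻¹ * m) = (MonoidAlgebra.single b (1 : ℤ) * f).coeff m
    rw [MonoidAlgebra.coeff_single_mul_apply, one_mul]
  have h7 := fin_inv (fun m : M => b * m) hinj hper f.coeff h4
  ext m
  have h8 : f.coeff m = 0 := by rw [h7]; rfl
  simpa using h8

end Pool.Agent.Helper777.Prof
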