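import Pool.Agent.Helper777.Prof.Defs
import Pool.Agent.Helper777.Prof.P_mag_m
import Pool.Agent.Helper777.Prof.P_k2inj
import Pool.Agent.Helper777.Prof.P_k2
import Pool.Agent.Helper777.Prof.P_N_smul
import Pool.Agent.Helper777.Prof.P_HH_lift

set_option autoImplicit false
set_option linter.all false

namespace Pool.Agent.Helper777.Prof

theorem comb_of_closure {ι M : Type} [Group M] [Fintype ι] [DecidableEq ι]
    (y : ι → Wr ℤ M ι) (h : Wr ℤ M ι) (hh : h ∈ Subgroup.closure (Set.range y)) :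
    ∃ p : ι → MonoidAlgebra ℤ M, h.v = ∑ i, p i • (y i).v := by
  induction hh using Subgroup.closure_induction with
  | mem x hx =>
    obtain ⟨i, rfl⟩ := hx
    refine ⟨fun j => if j = i then 1 else 0, ?_⟩
    rw [Finset.sum_eq_single i]
    · simp
    · intro j _ hj
      simp [hj]
    · intro hi
      exact absurd (Finset.mem_univ i) hi
  | one =>
    refine ⟨0, ?_⟩
    simp [Wr.one_v]
  | mul a b _ _ ha hb =>
    obtain ⟨p, hp⟩ := ha
    obtain ⟨q, hq⟩ := hb
    refine ⟨fun i => p i + (MonoidAlgebra.of ℤ M a.m) * q i, ?_⟩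
    rw [Wr.mul_v, hp, hq, Finset.smul_sum, ← Finset.sum_add_distrib]
    apply Finset.sum_congr rfl
    intro i _
    rw [add_smul, mul_smul]
  | inv a _ ha =>
    obtain ⟨p, hp⟩ := ha
    refine ⟨fun i => -((MonoidAlgebra.of ℤ M a.m⁻¹) * p i), ?_⟩
    rw [Wr.inv_v, hp, Finset.smul_sum, ← Finset.sum_neg_distrib]
    apply Finset.sum_congr rfl
    intro i _
    rw [neg_smul, mul_smul]

theorem mag_of_v {ι M : Type} [Group M] [DecidableEq ι] (π : FreeGroup ι →* M) (j : ι) :
    (mag π (FreeGroup.of j)).v = Pi.single j 1 := by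
  simp [mag]

/-- H cannot be generated by |ι| elements -/
theorem not_gen {ι M : Type} [Group M] [Fintype ι] [DecidableEq ι] {R : Set (MonoidAlgebra ℤ M)}
    (π : FreeGroup ι →* M) (hπ : Function.Surjective π)
    (ψ : (ι → MonoidAlgebra ℤ M) →ₗ[MonoidAlgebra ℤ M] CC R) (hc0 : c0 R ≠ 0)
    (w0 : Wr ℤ M ι) (hw0 : w0 ∈ (mag π).range) (hm : w0.m = 1) (hψ : ψ w0.v = c0 R)
    (b1 b2 : M) (hc : b1 * b2 = b2 * b1)
    (hi : ∀ i j : ℤ, b1 ^ i * b2 ^ j = 1 → i = 0 ∧ j = 0)
    (h1 : oo b1 • c0 R = c0 R) (h2 : oo b2 • c0 R = c0 R) (hK1 : K1 M)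
    (hker : ∀ w, π w = 1 → ∀ i, aug ℤ M ((mag π w).v i) = 0)
    (y : ι → Wr ℤ M ι) (hy : Subgroup.closure (Set.range y) = HH π ψ) : False := by
  have hcomb : ∀ h ∈ HH π ψ, ∃ p : ι → MonoidAlgebra ℤ M, h.v = ∑ i, p i • (y i).v := by
    intro h hh
    rw [← hy] at hh
    exact comb_of_closure y h hh
  have hψy : ∀ i, ψ (y i).v = 0 := by
    intro i
    have : y i ∈ HH π ψ := by
      rw [← hy]
      exact Subgroup.subset_closure (Set.mem_range_self i)
    exact this.2
  -- the vector d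
  have hdaug : ∀ k, aug ℤ M (w0.v k) = 0 := by
    obtain ⟨w, hw⟩ := hw0
    intro k
    have h3 : π w = 1 := by
      rw [← mag_m π w, hw, hm]
    rw [← hw]
    exact hker w h3 k
  have hd1 : (⟨w0.v, 1⟩ : Wr ℤ M ι) ∈ (mag π).range := by
    have : (⟨w0.v, 1⟩ : Wr ℤ M ι) = w0 := by
      ext1
      · rfl
      · exact hm.symm
    rw [this]
    exact hw0
  -- step 2
  have hstep2 : ∀ j, ∃ (t : MonoidAlgebra ℤ M) (Y : ι → MonoidAlgebra ℤ M),
      (Pi.single j 1 : ι → MonoidAlgebra ℤ M) = t • w0.v + ∑ i, Y i • (y i).v := by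
    intro j
    obtain ⟨t, _, _, ht⟩ := HH_lift π hπ ψ w0 hw0 hm hψ (mag π (FreeGroup.of j)) ⟨_, rfl⟩
    obtain ⟨p, hp⟩ := hcomb _ ht
    refine ⟨t, p, ?_⟩
    rw [← hp, Wr.mul_v, Wr.inv_v, Wr.inv_m, mag_of_v, inv_one, map_one, one_smul, one_smul,
      add_neg_cancel_left]
  choose t Y hY using hstep2
  have hmat : (Matrix.of (fun j i => aug ℤ M (Y j i))) *
      (Matrix.of (fun i k => aug ℤ M ((y i).v k))) = 1 := by
    ext1 j k
    have h3 := congrFun (hY j) k
    have h4 := congrArg (aug ℤ M) h3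
    rw [Matrix.mul_apply]
    simp only [Pi.add_apply, Pi.smul_apply, smul_eq_mul, Finset.sum_apply, map_add, map_mul, map_sum,
      hdaug, mul_zero, zero_add] at h4
    simp only [Matrix.of_apply]
    rw [← h4, Matrix.one_apply]
    by_cases hjk : j = k
    · subst hjk
      simp
    · rw [if_neg hjk, Pi.single_eq_of_ne (Ne.symm hjk), map_zero]
  have hmat2 : (Matrix.of (fun i k => aug ℤ M ((y i).v k))) *
      (Matrix.of (fun j i => aug ℤ M (Y j i))) = 1 := mul_eq_one_comm.1 hmat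
  -- step 3
  have hinj : ∀ z : ι → MonoidAlgebra ℤ M, ∑ i, z i • (y i).v = 0 → z = 0 := by
    intro z hz
    apply hK1 ι inferInstance z
      (fun i j => (if i = j then 1 else 0) - ∑ k, (y i).v k * Y k j)
    · intro i j
      have h3 := congrFun (congrFun hmat2 i) j
      rw [Matrix.mul_apply] at h3
      simp only [Matrix.of_apply] at h3
      rw [map_sub, map_sum]
      simp only [map_mul]
      rw [h3, Matrix.one_apply]
      by_cases hij : i = j
      · simp [hij]
      · simp [hij]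
    · intro j
      have hzk : ∀ k, ∑ i, z i * (y i).v k = 0 := by
        intro k
        have := congrFun hz k
        simpa [Finset.sum_apply] using this
      have h3 : ∑ i, z i * ((if i = j then 1 else 0) - ∑ k, (y i).v k * Y k j) =
          z j - ∑ k, (∑ i, z i * (y i).v k) * Y k j := by
        simp only [mul_sub, Finset.sum_sub_distrib, Finset.mul_sum, Finset.sum_mul]
        congr 1
        · simp
        · rw [Finset.sum_comm]
          apply Finset.sum_congr rfl
          intro k _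
          apply Finset.sum_congr rfl
          intro i _
          rw [mul_assoc]
      rw [h3]
      simp [hzk]
  -- step 4
  have hbH : ∀ b : M, oo b • c0 R = c0 R →
      ∃ p : ι → MonoidAlgebra ℤ M, (oo b - 1) • w0.v = ∑ i, p i • (y i).v := by
    intro b hb
    have h3 : (⟨(oo b - 1) • w0.v, 1⟩ : Wr ℤ M ι) ∈ HH π ψ := by
      refine ⟨N_smul π hπ _ hd1 _, ?_⟩
      show ψ ((oo b - 1) • w0.v) = 0
      rw [map_smul, hψ, sub_smul, one_smul, hb, sub_self]
    exact hcomb _ h3
  obtain ⟨p, hp⟩ := hbH b1 h1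
  obtain ⟨q, hq⟩ := hbH b2 h2
  have hcomm : (oo b2 - 1) * (oo b1 - 1) = (oo b1 - 1) * (oo b2 - 1) := by
    have h3 : oo b2 * oo b1 = oo b1 * oo b2 := by
      rw [← map_mul, ← map_mul, hc]
    rw [sub_mul, mul_sub, mul_sub, sub_mul, mul_sub, h3]
    simp only [one_mul, mul_one]
    abel
  have hpq : ∀ i, (oo b2 - 1) * p i = (oo b1 - 1) * q i := by
    have h3 : ∑ i, ((oo b2 - 1) * p i - (oo b1 - 1) * q i) • (y i).v = 0 := by
      simp only [sub_smul, Finset.sum_sub_distrib, mul_smul, ← Finset.smul_sum]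
      rw [← hp, ← hq, ← sub_smul, ← sub_smul, ← mul_smul, ← mul_smul, hcomm, sub_self]
    have h4 := hinj _ h3
    intro i
    have h5 := congrFun h4 i
    exact sub_eq_zero.1 h5
  have hpt : ∀ i, ∃ s, p i = (oo b1 - 1) * s := fun i => k2 b1 b2 hc hi (p i) (q i) (hpq i)
  choose s hs using hpt
  have hb1 : ∀ n : ℤ, b1 ^ n = 1 → n = 0 := by
    intro n hn
    exact (hi n 0 (by rw [hn, zpow_zero, mul_one])).1
  have hd : w0.v = ∑ i, s i • (y i).v := by
    funext k
    have h3 : (oo b1 - 1) * (w0.v k - (∑ i, s i • (y i).v) k) = 0 := by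
      have h4 := congrFun hp k
      simp only [Pi.smul_apply, smul_eq_mul, Finset.sum_apply] at h4
      rw [mul_sub, h4, Finset.sum_apply, Finset.mul_sum, ← Finset.sum_sub_distrib]
      apply Finset.sum_eq_zero
      intro i _
      rw [hs i, Pi.smul_apply, smul_eq_mul, mul_assoc, sub_self]
    exact sub_eq_zero.1 (k2inj b1 hb1 _ h3)
  apply hc0
  rw [← hψ, hd, map_sum]
  apply Finset.sum_eq_zero
  intro i _
  rw [map_smul, hψy, smul_zero]

end Pool.Agent.Helper777.Prof
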