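import Pool.Agent.Helper777.Prof.Defs
import Pool.Agent.Helper777.Prof.P_mag_m

set_option autoImplicit false
set_option linter.all false

namespace Pool.Agent.Helper777.Prof

/-- additive extension of a function on `M` to the group ring -/
noncomputable def magnus_ker_L {M B : Type} [Group M] [AddCommGroup B] (φ : M → B) :
    MonoidAlgebra ℤ M →+ B :=
  (Finsupp.liftAddHom (fun m => (zmultiplesHom B) (φ m))).comp
    (MonoidAlgebra.coeffAddEquiv : MonoidAlgebra ℤ M ≃+ (M →₀ ℤ)).toAddMonoidHom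

theorem magnus_ker_L_single {M B : Type} [Group M] [AddCommGroup B] (φ : M → B) (m : M) (n : ℤ) :
    magnus_ker_L φ (MonoidAlgebra.single m n) = n • φ m := by
  show Finsupp.liftAddHom (fun m => (zmultiplesHom B) (φ m)) (Finsupp.single m n) = n • φ m
  rw [Finsupp.liftAddHom_apply_single, zmultiplesHom_apply]

theorem magnus_ker_L_mul {M B : Type} [Group M] [AddCommGroup B] (φ : M → B) (m : M)
    (f : MonoidAlgebra ℤ M) :
    magnus_ker_L φ (MonoidAlgebra.of ℤ M m * f) = magnus_ker_L (fun x => φ (m * x)) f := by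
  induction f using MonoidAlgebra.induction_linear with
  | zero => rw [mul_zero, map_zero, map_zero]
  | add f g hf hg => rw [mul_add, map_add, map_add, hf, hg]
  | single x n =>
    rw [MonoidAlgebra.of_apply, MonoidAlgebra.single_mul_single, magnus_ker_L_single, magnus_ker_L_single, one_mul]

/-- `τ(q) w τ(q π(w))⁻¹` -/
def magnus_ker_rho {ι M : Type} [Group M] (π : FreeGroup ι →* M) (τ : M → FreeGroup ι)
    (hτ : ∀ m, π (τ m) = m) (q : M) (w : FreeGroup ι) : π.ker :=
  ⟨τ q * w * (τ (q * π w))⁻¹, by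
    rw [MonoidHom.mem_ker, map_mul, map_mul, map_inv, hτ, hτ, mul_inv_cancel]⟩

theorem magnus_ker_rho_mul {ι M : Type} [Group M] (π : FreeGroup ι →* M) (τ : M → FreeGroup ι)
    (hτ : ∀ m, π (τ m) = m) (q : M) (u v : FreeGroup ι) :
    magnus_ker_rho π τ hτ q (u * v) = magnus_ker_rho π τ hτ q u * magnus_ker_rho π τ hτ (q * π u) v := by
  apply Subtype.ext
  show τ q * (u * v) * (τ (q * π (u * v)))⁻¹ =
    (τ q * u * (τ (q * π u))⁻¹) * (τ (q * π u) * v * (τ (q * π u * π v))⁻¹)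
  rw [map_mul, ← mul_assoc q]
  group

/-- class in the abelianization -/
def magnus_ker_cl {ι M : Type} [Group M] (π : FreeGroup ι →* M) (τ : M → FreeGroup ι)
    (hτ : ∀ m, π (τ m) = m) (q : M) (w : FreeGroup ι) : Additive (Abelianization π.ker) :=
  Additive.ofMul (Abelianization.of (magnus_ker_rho π τ hτ q w))

theorem magnus_ker_cl_mul {ι M : Type} [Group M] (π : FreeGroup ι →* M) (τ : M → FreeGroup ι)
    (hτ : ∀ m, π (τ m) = m) (q : M) (u v : FreeGroup ι) :
    magnus_ker_cl π τ hτ q (u * v) = magnus_ker_cl π τ hτ q u + magnus_ker_cl π τ hτ (q * π u) v := by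
  unfold magnus_ker_cl
  rw [magnus_ker_rho_mul, map_mul, ofMul_mul]

theorem magnus_ker_cl_one {ι M : Type} [Group M] (π : FreeGroup ι →* M) (τ : M → FreeGroup ι)
    (hτ : ∀ m, π (τ m) = m) (q : M) : magnus_ker_cl π τ hτ q 1 = 0 := by
  have h := magnus_ker_cl_mul π τ hτ q 1 1
  rw [mul_one, map_one, mul_one] at h
  exact (left_eq_add.mp h)

/-- the functional -/
noncomputable def magnus_ker_Lam {ι M : Type} [Group M] (π : FreeGroup ι →* M) (τ : M → FreeGroup ι)
    (hτ : ∀ m, π (τ m) = m) (s : Finset ι) (q : M) (v : ι → MonoidAlgebra ℤ M) :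
    Additive (Abelianization π.ker) :=
  ∑ i ∈ s, magnus_ker_L (fun m => magnus_ker_cl π τ hτ (q * m) (FreeGroup.of i)) (v i)

theorem magnus_ker_Lam_add {ι M : Type} [Group M] (π : FreeGroup ι →* M) (τ : M → FreeGroup ι)
    (hτ : ∀ m, π (τ m) = m) (s : Finset ι) (q : M) (v v' : ι → MonoidAlgebra ℤ M) :
    magnus_ker_Lam π τ hτ s q (v + v') = magnus_ker_Lam π τ hτ s q v + magnus_ker_Lam π τ hτ s q v' := by
  unfold magnus_ker_Lam
  rw [← Finset.sum_add_distrib]
  apply Finset.sum_congr rfl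
  intro i _
  rw [Pi.add_apply, map_add]

theorem magnus_ker_Lam_zero {ι M : Type} [Group M] (π : FreeGroup ι →* M) (τ : M → FreeGroup ι)
    (hτ : ∀ m, π (τ m) = m) (s : Finset ι) (q : M) :
    magnus_ker_Lam π τ hτ s q 0 = 0 := by
  unfold magnus_ker_Lam
  apply Finset.sum_eq_zero
  intro i _
  rw [Pi.zero_apply, map_zero]

theorem magnus_ker_Lam_smul {ι M : Type} [Group M] (π : FreeGroup ι →* M) (τ : M → FreeGroup ι)
    (hτ : ∀ m, π (τ m) = m) (s : Finset ι) (q m : M) (v : ι → MonoidAlgebra ℤ M) :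
    magnus_ker_Lam π τ hτ s q ((MonoidAlgebra.of ℤ M m) • v) = magnus_ker_Lam π τ hτ s (q * m) v := by
  unfold magnus_ker_Lam
  apply Finset.sum_congr rfl
  intro i _
  rw [Pi.smul_apply, smul_eq_mul, magnus_ker_L_mul]
  congr 2
  funext x
  rw [mul_assoc]

theorem magnus_ker_Lam_single {ι M : Type} [Group M] [DecidableEq ι] (π : FreeGroup ι →* M) (τ : M → FreeGroup ι)
    (hτ : ∀ m, π (τ m) = m) (s : Finset ι) (q : M) (i : ι) (hi : i ∈ s) :
    magnus_ker_Lam π τ hτ s q (Pi.single i 1) = magnus_ker_cl π τ hτ q (FreeGroup.of i) := by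
  unfold magnus_ker_Lam
  rw [Finset.sum_eq_single i]
  · rw [Pi.single_eq_same, MonoidAlgebra.one_def, magnus_ker_L_single, one_smul, mul_one]
  · intro j _ hj
    rw [Pi.single_eq_of_ne hj, map_zero]
  · intro h
    exact absurd hi h

theorem magnus_ker_key {ι M : Type} [Group M] [DecidableEq ι] (π : FreeGroup ι →* M) (τ : M → FreeGroup ι)
    (hτ : ∀ m, π (τ m) = m) (w : FreeGroup ι) :
    ∃ s0 : Finset ι, ∀ s : Finset ι, s0 ⊆ s → ∀ q, magnus_ker_Lam π τ hτ s q (mag π w).v = magnus_ker_cl π τ hτ q w := by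
  have hof : ∀ i : ι, mag π (FreeGroup.of i) = ⟨Pi.single i 1, π (FreeGroup.of i)⟩ := by
    intro i
    unfold mag
    rw [FreeGroup.lift_apply_of]
  have h1 : ∀ i : ι, ∀ s : Finset ι, {i} ⊆ s → ∀ q,
      magnus_ker_Lam π τ hτ s q (mag π (FreeGroup.of i)).v = magnus_ker_cl π τ hτ q (FreeGroup.of i) := by
    intro i s hs q
    rw [hof]
    exact magnus_ker_Lam_single π τ hτ s q i (hs (Finset.mem_singleton_self i))
  induction w using FreeGroup.induction_on with
  | C1 =>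
    refine ⟨∅, fun s _ q => ?_⟩
    rw [map_one, Wr.one_v, magnus_ker_Lam_zero, magnus_ker_cl_one]
  | of i => exact ⟨{i}, h1 i⟩
  | inv_of i _ =>
    refine ⟨{i}, fun s hs q => ?_⟩
    have h2 : magnus_ker_Lam π τ hτ s q (mag π (FreeGroup.of i)⁻¹).v +
        magnus_ker_Lam π τ hτ s (q * (mag π (FreeGroup.of i)⁻¹).m) (mag π (FreeGroup.of i)).v = 0 := by
      rw [← magnus_ker_Lam_smul, ← magnus_ker_Lam_add, ← Wr.mul_v, ← map_mul, inv_mul_cancel, map_one, Wr.one_v,
        magnus_ker_Lam_zero]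
    have h3 := magnus_ker_cl_mul π τ hτ q (FreeGroup.of i)⁻¹ (FreeGroup.of i)
    rw [inv_mul_cancel, magnus_ker_cl_one] at h3
    rw [h1 i s hs, mag_m] at h2
    have h4 := h2.trans h3
    exact add_right_cancel h4
  | mul u v hu hv =>
    obtain ⟨s1, h2⟩ := hu
    obtain ⟨s2, h3⟩ := hv
    refine ⟨s1 ∪ s2, fun s hs q => ?_⟩
    rw [map_mul, Wr.mul_v, magnus_ker_Lam_add, magnus_ker_Lam_smul, magnus_ker_cl_mul, mag_m,
      h2 s (Finset.union_subset_left hs), h3 s (Finset.union_subset_right hs)]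

/-- Magnus embedding theorem (hard direction). -/
theorem magnus_ker {ι M : Type} [Group M] [DecidableEq ι] (π : FreeGroup ι →* M)
    (hπ : Function.Surjective π) (w : FreeGroup ι) (hw : mag π w = 1) :
    w ∈ ⁅π.ker, π.ker⁆ := by
  obtain ⟨τ, hτ⟩ : ∃ τ : M → FreeGroup ι, ∀ m, π (τ m) = m :=
    ⟨Function.surjInv hπ, Function.surjInv_eq hπ⟩
  obtain ⟨s, hs⟩ := magnus_ker_key π τ hτ w
  have h1 := hs s (Finset.Subset.refl s) 1
  rw [hw, Wr.one_v, magnus_ker_Lam_zero] at h1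
  have hπw : π w = 1 := by
    have h2 := mag_m π w
    rw [hw] at h2
    exact h2.symm
  have h3 : Abelianization.of (magnus_ker_rho π τ hτ 1 w) = 1 := by
    have h4 : Additive.ofMul (Abelianization.of (magnus_ker_rho π τ hτ 1 w)) = 0 := h1.symm
    exact h4
  have h5 : magnus_ker_rho π τ hτ 1 w ∈ commutator π.ker := by
    have h6 : magnus_ker_rho π τ hτ 1 w ∈ (Abelianization.of : π.ker →* Abelianization π.ker).ker := h3
    rw [Abelianization.ker_of] at h6
    exact h6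
  have h7 : ((magnus_ker_rho π τ hτ 1 w : π.ker) : FreeGroup ι) ∈ ⁅π.ker, π.ker⁆ := by
    have h8 := Subgroup.mem_map_of_mem π.ker.subtype h5
    rw [commutator_def, Subgroup.map_commutator, ← MonoidHom.range_eq_map, Subgroup.range_subtype] at h8
    exact h8
  have h9 : w = (τ 1)⁻¹ * ((magnus_ker_rho π τ hτ 1 w : π.ker) : FreeGroup ι) * (τ 1)⁻¹⁻¹ := by
    show w = (τ 1)⁻¹ * (τ 1 * w * (τ (1 * π w))⁻¹) * (τ 1)⁻¹⁻¹
    rw [hπw, mul_one]
    group
  rw [h9]
  exact (inferInstance : (⁅π.ker, π.ker⁆ : Subgroup (FreeGroup ι)).Normal).conj_mem _ h7 _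

end Pool.Agent.Helper777.Prof
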