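import Pool.Agent.Helper777.Prof.Defs
import Pool.Agent.Helper777.Prof.P_mag_m
import Pool.Agent.Helper777.Prof.P_magnus_ker
import Pool.Agent.Helper777.Prof.P_mag_comm

set_option autoImplicit false
set_option linter.all false

namespace Pool.Agent.Helper777.Prof

theorem dq_embed {ι : Type} [DecidableEq ι] (n : ℕ) :
    ∃ f : Dq ι (n + 1) →* Wr ℤ (Dq ι n) ι, Function.Injective f ∧
      ∀ w, f (pn ι (n + 1) w) = mag (pn ι n) w := by
  have hker : (pn ι n).ker = derivedSeries (FreeGroup ι) n := QuotientGroup.ker_mk' _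
  have hD : derivedSeries (FreeGroup ι) (n + 1) = ⁅(pn ι n).ker, (pn ι n).ker⁆ := by
    rw [hker]; exact derivedSeries_succ _ _
  have hK : ∀ w ∈ derivedSeries (FreeGroup ι) (n + 1), mag (pn ι n) w = 1 := by
    intro w hw
    rw [hD] at hw
    exact mag_comm (pn ι n) w hw
  refine ⟨QuotientGroup.lift _ (mag (pn ι n)) hK, ?_, fun w => rfl⟩
  rw [injective_iff_map_eq_one]
  intro x hx
  obtain ⟨w, rfl⟩ := QuotientGroup.mk'_surjective _ x
  have hx' : mag (pn ι n) w = 1 := hx
  have h1 := magnus_ker (pn ι n) (QuotientGroup.mk'_surjective _) w hx'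
  rw [← hD] at h1
  exact (QuotientGroup.eq_one_iff w).2 h1

end Pool.Agent.Helper777.Prof
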