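import Pool.Agent.Helper777.Prof.Defs

set_option autoImplicit false
set_option linter.all false

namespace Pool.Agent.Helper777.Prof

theorem rf_of_inj {G H : Type} [Group G] [Group H] (f : G →* H) (hf : Function.Injective f)
    (hH : RF0 H) : RF0 G := by
  intro g hg
  have hfg : f g ≠ 1 := by
    intro h
    apply hg
    apply hf
    rw [h, map_one]
  obtain ⟨Q, i1, i2, φ, hφ⟩ := hH (f g) hfg
  exact ⟨Q, i1, i2, φ.comp f, hφ⟩

end Pool.Agent.Helper777.Prof
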