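import Pool.Agent.Helper777.Prof.Defs

set_option autoImplicit false
set_option linter.all false

namespace Pool.Agent.Helper777.Prof

theorem sep_fin {M : Type} [Group M] (hM : RF0 M) (S : Finset M) (h : (1 : M) ∉ S) :
    ∃ K : Subgroup M, K.Normal ∧ K.FiniteIndex ∧ ∀ m ∈ S, m ∉ K := by
  classical
  induction S using Finset.induction_on with
  | empty => exact ⟨⊤, inferInstance, inferInstance, by simp⟩
  | insert a S ha ih =>
    rw [Finset.mem_insert, not_or] at h
    obtain ⟨K, hK1, hK2, hK3⟩ := ih h.2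
    obtain ⟨Q, _, _, f, hf⟩ := hM a (Ne.symm h.1)
    haveI : f.ker.FiniteIndex := Subgroup.finiteIndex_ker f
    refine ⟨K ⊓ f.ker, inferInstance, inferInstance, ?_⟩
    intro m hm
    rw [Finset.mem_insert] at hm
    rw [Subgroup.mem_inf, not_and_or]
    rcases hm with rfl | hm
    · right
      rw [MonoidHom.mem_ker]
      exact hf
    · left
      exact hK3 m hm

theorem sep_coeff {M N : Type} (f : M → N) (x : MonoidAlgebra ℤ M) (m0 : M)
    (h : ∀ m ∈ x.coeff.support, f m = f m0 → m = m0) :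
    (MonoidAlgebra.mapDomain f x).coeff (f m0) = x.coeff m0 := by
  classical
  show (Finsupp.mapDomain f x.coeff) (f m0) = x.coeff m0
  rw [Finsupp.mapDomain, Finsupp.sum_apply, Finsupp.sum]
  have e : ∀ a ∈ x.coeff.support, (Finsupp.single (f a) (x.coeff a)) (f m0) =
      if a = m0 then x.coeff a else 0 := by
    intro a ha
    rw [Finsupp.single_apply]
    by_cases h1 : a = m0
    · rw [if_pos h1, if_pos (by rw [h1])]
    · rw [if_neg h1, if_neg (fun h2 => h1 (h a ha h2))]
  rw [Finset.sum_congr rfl e, Finset.sum_ite_eq']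
  split_ifs with h1
  · rfl
  · exact (Finsupp.notMem_support_iff.1 h1).symm

theorem sep_one {M ι : Type} [Group M] (hM : RF0 M) (w : Wr ℤ M ι) (h1 : w ≠ 1) :
    ∃ (K : Subgroup M) (_ : K.Normal) (_ : K.FiniteIndex) (N0 : ℕ), ∀ (K' : Subgroup M)
      (_ : K'.Normal), K' ≤ K → ∀ p : ℕ, N0 ≤ p → wred K' p w ≠ 1 := by
  classical
  by_cases hm : w.m = 1
  · have hv : w.v ≠ 0 := by
      intro h
      apply h1
      ext1
      · rw [h]; rfl
      · rw [hm]; rfl
    obtain ⟨i, hi⟩ := Function.ne_iff.1 hv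
    have hi' : (w.v i).coeff ≠ 0 := by
      intro h
      apply hi
      have h2 : (w.v i).coeff = (0 : MonoidAlgebra ℤ M).coeff := by rw [h]; rfl
      exact MonoidAlgebra.coeff_injective h2
    obtain ⟨m0, hm0⟩ := Finsupp.ne_iff.1 hi'
    have hc : (w.v i).coeff m0 ≠ 0 := hm0
    obtain ⟨K, hK1, hK2, hK3⟩ := sep_fin hM
      (((w.v i).coeff.support.erase m0).image (fun m => m0⁻¹ * m)) (by
        rw [Finset.mem_image]
        rintro ⟨m, hm, hm'⟩
        rw [Finset.mem_erase] at hm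
        exact hm.1 (by rw [inv_mul_eq_one] at hm'; exact hm'.symm))
    refine ⟨K, hK1, hK2, ((w.v i).coeff m0).natAbs + 1, ?_⟩
    intro K' hK' hle p hp hcon
    have h2 : (wred K' p w).v i = 0 := by rw [hcon]; rfl
    have h3 : red K' p (w.v i) = 0 := h2
    have h4 : (red K' p (w.v i)).coeff (QuotientGroup.mk' K' m0) = 0 := by rw [h3]; rfl
    have h5 : (red K' p (w.v i)).coeff (QuotientGroup.mk' K' m0) =
        Int.castRingHom (ZMod p)
          ((MonoidAlgebra.mapDomain (QuotientGroup.mk' K') (w.v i)).coeff (QuotientGroup.mk' K' m0)) := by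
      show (MonoidAlgebra.mapRingHom (M ⧸ K') (Int.castRingHom (ZMod p))
        (MonoidAlgebra.mapDomainRingHom ℤ (QuotientGroup.mk' K') (w.v i))).coeff _ = _
      rw [MonoidAlgebra.coeff_mapRingHom]
      rfl
    rw [h5, sep_coeff (QuotientGroup.mk' K') (w.v i) m0] at h4
    · have h6 : (((w.v i).coeff m0 : ℤ) : ZMod p) = 0 := by simpa using h4
      rw [ZMod.intCast_zmod_eq_zero_iff_dvd] at h6
      have h7 := Int.natAbs_dvd_natAbs.2 h6
      rw [Int.natAbs_natCast] at h7
      have h8 := Nat.le_of_dvd (Int.natAbs_pos.2 hc) h7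
      omega
    · intro m hmem heq
      by_contra hne
      have h6 : m0⁻¹ * m ∈ ((w.v i).coeff.support.erase m0).image (fun m => m0⁻¹ * m) :=
        Finset.mem_image.2 ⟨m, Finset.mem_erase.2 ⟨hne, hmem⟩, rfl⟩
      apply hK3 _ h6
      apply hle
      exact QuotientGroup.eq.1 heq.symm
  · obtain ⟨Q, _, _, f, hf⟩ := hM w.m hm
    haveI : f.ker.FiniteIndex := Subgroup.finiteIndex_ker f
    refine ⟨f.ker, inferInstance, inferInstance, 0, ?_⟩
    intro K' hK' hle p _ hcon
    have h2 : (wred K' p w).m = 1 := by rw [hcon]; rfl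
    have h3 : QuotientGroup.mk' K' w.m = 1 := h2
    have h4 : w.m ∈ K' := (QuotientGroup.eq_one_iff w.m).1 h3
    exact hf (MonoidHom.mem_ker.1 (hle h4))

theorem sep_all {M ι : Type} [Group M] (hM : RF0 M) (Φ : Finset (Wr ℤ M ι))
    (h1 : (1 : Wr ℤ M ι) ∉ Φ) :
    ∃ (K : Subgroup M) (_ : K.Normal) (_ : K.FiniteIndex) (N0 : ℕ), ∀ (K' : Subgroup M)
      (_ : K'.Normal), K' ≤ K → ∀ p : ℕ, N0 ≤ p → ∀ w ∈ Φ, wred K' p w ≠ 1 := by
  classical
  induction Φ using Finset.induction_on with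
  | empty => exact ⟨⊤, inferInstance, inferInstance, 0, by simp⟩
  | insert a S ha ih =>
    rw [Finset.mem_insert, not_or] at h1
    obtain ⟨K, hK1, hK2, N, hN⟩ := ih h1.2
    obtain ⟨L, hL1, hL2, N', hN'⟩ := sep_one hM a (Ne.symm h1.1)
    refine ⟨K ⊓ L, inferInstance, inferInstance, max N N', ?_⟩
    intro K' hK' hle p hp w hw
    rw [Finset.mem_insert] at hw
    rcases hw with rfl | hw
    · exact hN' K' hK' (hle.trans inf_le_right) p ((le_max_right _ _).trans hp)
    · exact hN K' hK' (hle.trans inf_le_left) p ((le_max_left _ _).trans hp) w hw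

/-- separation by finite quotients of the coefficients and of the group -/
theorem sep {M ι : Type} [Group M] (hM : RF0 M) (Φ : Finset (Wr ℤ M ι))
    (h1 : (1 : Wr ℤ M ι) ∉ Φ) :
    ∃ (K : Subgroup M) (_ : K.Normal) (_ : K.FiniteIndex) (N0 : ℕ), ∀ p : ℕ, N0 ≤ p →
      ∀ w ∈ Φ, wred K p w ≠ 1 := by
  obtain ⟨K, hK1, hK2, N, hN⟩ := sep_all hM Φ h1
  exact ⟨K, hK1, hK2, N, fun p hp w hw => hN K hK1 le_rfl p hp w hw⟩

end Pool.Agent.Helper777.Prof
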