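import Pool.Agent.Helper777.Prof.Defs
import Pool.Agent.Helper777.Prof.P_sep

set_option autoImplicit false
set_option linter.all false

namespace Pool.Agent.Helper777.Prof

theorem rf_wr_finite_alg (k M : Type) [CommRing k] [Finite k] [Finite M] :
    Finite (MonoidAlgebra k M) := by
  refine Finite.of_injective (fun f : MonoidAlgebra k M => (fun m => f.coeff m : M → k)) ?_
  intro f g h
  ext m
  exact congrFun h m

theorem rf_wr_finite (k M ι : Type) [CommRing k] [Group M] [Finite k] [Finite M] [Finite ι] :
    Finite (Wr k M ι) := by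
  have := rf_wr_finite_alg k M
  refine Finite.of_injective (fun w : Wr k M ι => (w.v, w.m)) ?_
  intro a b h
  ext1
  · exact congrArg Prod.fst h
  · exact congrArg Prod.snd h

theorem rf_wr {M ι : Type} [Group M] [Finite ι] (hM : RF0 M) : RF0 (Wr ℤ M ι) := by
  intro g hg
  obtain ⟨K, hKn, hKf, N0, h⟩ := sep hM {g} (by
    rw [Finset.mem_singleton]
    exact fun h => hg h.symm)
  haveI : NeZero (max N0 1) := ⟨by have := le_max_right N0 1; omega⟩
  haveI : Finite (M ⧸ K) := Subgroup.finite_quotient_of_finiteIndex
  haveI : Finite (ZMod (max N0 1)) := inferInstance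
  exact ⟨Wr (ZMod (max N0 1)) (M ⧸ K) ι, inferInstance, rf_wr_finite _ _ _, wred K (max N0 1),
    h _ (le_max_left _ _) g (Finset.mem_singleton_self g)⟩

end Pool.Agent.Helper777.Prof
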