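import Pool.Agent.Helper777.Prof.Defs
import Pool.Agent.Helper777.Prof.P_dq_embed
import Pool.Agent.Helper777.Prof.P_rf_wr
import Pool.Agent.Helper777.Prof.P_rf_of_inj

set_option autoImplicit false
set_option linter.all false

namespace Pool.Agent.Helper777.Prof

theorem rf_dq (ι : Type) [Finite ι] (n : ℕ) : RF0 (Dq ι n) := by
  classical
  induction n with
  | zero =>
    intro g hg
    exfalso
    apply hg
    induction g using QuotientGroup.induction_on with
    | H z =>
      rw [QuotientGroup.eq_one_iff, derivedSeries_zero]
      exact Subgroup.mem_top z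
  | succ n ih =>
    obtain ⟨f, hf, -⟩ := dq_embed (ι := ι) n
    exact rf_of_inj f hf (rf_wr ih)

end Pool.Agent.Helper777.Prof

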