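import Pool.Agent.Helper777.Prof.Defs
import Pool.Agent.Helper777.Prof.P_dq_embed
import Pool.Agent.Helper777.Prof.P_sep
import Pool.Agent.Helper777.Prof.P_rf_dq

set_option autoImplicit false
set_option linter.all false

namespace Pool.Agent.Helper777.Prof

/-- projection to the group part -/
def mh {k M ι : Type} [CommRing k] [Group M] : Wr k M ι →* M where
  toFun w := w.m
  map_one' := rfl
  map_mul' _ _ := rfl

theorem finite_wr {p : ℕ} [Fact p.Prime] {G ι : Type} [Group G] [Finite G] [Finite ι] :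
    Finite (Wr (ZMod p) G ι) := by
  haveI : Finite (MonoidAlgebra (ZMod p) G) := by
    refine Finite.of_injective (fun f : MonoidAlgebra (ZMod p) G => (fun g => f.coeff g)) ?_
    intro f f' h
    ext g
    exact congrFun h g
  refine Finite.of_injective (fun w : Wr (ZMod p) G ι => (w.v, w.m)) ?_
  intro w w' h
  simp only [Prod.mk.injEq] at h
  ext1
  · exact h.1
  · exact h.2

theorem wr_pow {k M ι : Type} [CommRing k] [Group M] (w : Wr k M ι) (hw : w.m = 1) (n : ℕ) :
    (w ^ n).m = 1 ∧ (w ^ n).v = n • w.v := by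
  induction n with
  | zero => exact ⟨by rw [pow_zero]; rfl, by rw [pow_zero, zero_smul]; rfl⟩
  | succ n ih =>
    refine ⟨?_, ?_⟩
    · rw [pow_succ, Wr.mul_m, ih.1, hw, one_mul]
    · rw [pow_succ, Wr.mul_v, ih.1, map_one, one_smul, ih.2, succ_nsmul]

theorem wr_pow_p {p : ℕ} {M ι : Type} [Group M] (w : Wr (ZMod p) M ι)
    (hw : w.m = 1) : w ^ p = 1 := by
  obtain ⟨h1, h2⟩ := wr_pow w hw p
  ext1
  · rw [h2, Wr.one_v]
    funext i
    rw [Pi.smul_apply, ← Nat.cast_smul_eq_nsmul (ZMod p), ZMod.natCast_self, zero_smul,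
      Pi.zero_apply]
  · rw [h1, Wr.one_m]

open scoped commutatorElement in
theorem dq1_comm {ι : Type} (a b : Dq ι 1) : a * b = b * a := by
  obtain ⟨x, rfl⟩ := QuotientGroup.mk_surjective a
  obtain ⟨y, rfl⟩ := QuotientGroup.mk_surjective b
  rw [← QuotientGroup.mk_mul, ← QuotientGroup.mk_mul, QuotientGroup.eq, derivedSeries_one]
  have : (x * y)⁻¹ * (y * x) = ⁅y⁻¹, x⁻¹⁆ := by
    rw [commutatorElement_def]; group
  rw [this]
  exact Subgroup.commutator_mem_commutator (Subgroup.mem_top _) (Subgroup.mem_top _)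

theorem psep_dq (ι : Type) [Finite ι] : Psep (Dq ι 2) := by
  classical
  obtain ⟨F, hF, -⟩ := dq_embed (ι := ι) 1
  intro Φ h1
  have hRF := rf_dq ι 1
  obtain ⟨K, hKn, hKf, N0, hN⟩ := sep hRF (Φ.image F) (by
    intro h
    obtain ⟨m, hm, hm1⟩ := Finset.mem_image.1 h
    have : m = 1 := hF (by rw [hm1, map_one])
    exact h1 (this ▸ hm))
  refine ⟨N0, fun p hp hpN => ?_⟩
  haveI : Fact p.Prime := ⟨hp⟩
  haveI := hKn
  haveI := hKf
  haveI : Finite (Dq ι 1 ⧸ K) := inferInstance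
  refine ⟨Wr (ZMod p) (Dq ι 1 ⧸ K) ι, inferInstance, finite_wr, (wred K p).comp F,
    (mh : Wr (ZMod p) (Dq ι 1 ⧸ K) ι →* (Dq ι 1 ⧸ K)).ker, inferInstance, ?_, ?_, ?_⟩
  · intro w
    refine ⟨1, ?_⟩
    rw [pow_one]
    apply Subtype.ext
    have hw : w.1.m = 1 := w.2
    exact wr_pow_p w.1 hw
  · intro m hm
    exact hN p hpN (F m) (Finset.mem_image_of_mem _ hm)
  · intro m hm
    have h2 : commutator (Dq ι 2) ≤ ((mh : Wr (ZMod p) (Dq ι 1 ⧸ K) ι →* (Dq ι 1 ⧸ K)).comp
        ((wred K p).comp F)).ker := by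
      rw [commutator_def, Subgroup.commutator_le]
      intro a _ b _
      rw [MonoidHom.mem_ker, map_commutatorElement, commutatorElement_eq_one_iff_mul_comm]
      generalize ((mh : Wr (ZMod p) (Dq ι 1 ⧸ K) ι →* (Dq ι 1 ⧸ K)).comp
        ((wred K p).comp F)) a = x
      generalize ((mh : Wr (ZMod p) (Dq ι 1 ⧸ K) ι →* (Dq ι 1 ⧸ K)).comp
        ((wred K p).comp F)) b = y
      obtain ⟨x, rfl⟩ := QuotientGroup.mk_surjective x
      obtain ⟨y, rfl⟩ := QuotientGroup.mk_surjective y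
      rw [← QuotientGroup.mk_mul, ← QuotientGroup.mk_mul, dq1_comm]
    exact h2 hm

end Pool.Agent.Helper777.Prof
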