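import Pool.Agent.Helper777.Prof.Defs

set_option autoImplicit false
set_option linter.all false

namespace Pool.Agent.Helper777.Prof

theorem esub_finQ {S W : Type} [Ring S] [AddCommGroup W] [Module S W] (U V : Submodule S W)
    (hfin : U.toAddSubgroup.relIndex V.toAddSubgroup ≠ 0) :
    Finite (V ⧸ (U.comap V.subtype)) := by
  have h : (U.comap V.subtype).toAddSubgroup.index ≠ 0 := hfin
  haveI : (U.comap V.subtype).toAddSubgroup.FiniteIndex := ⟨h⟩
  have h2 : Finite (V ⧸ (U.comap V.subtype).toAddSubgroup) :=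
    AddSubgroup.finite_quotient_of_finiteIndex
  exact h2

theorem esub_act {M Q : Type} [Group M] [AddCommGroup Q] [Module (MonoidAlgebra ℤ M) Q]
    [Finite Q] : ∃ K : Subgroup M, ∃ _ : K.Normal, K.FiniteIndex ∧
      ∀ e : MonoidAlgebra ℤ M, MonoidAlgebra.mapDomain (QuotientGroup.mk' K) e = 0 →
        ∀ q : Q, e • q = 0 := by
  let f : M →* AddMonoid.End Q :=
    (Module.toAddMonoidEnd (MonoidAlgebra ℤ M) Q).toMonoidHom.comp (MonoidAlgebra.of ℤ M)
  haveI : Finite (AddMonoid.End Q) := DFunLike.finite _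
  let g : M →* (AddMonoid.End Q)ˣ := f.toHomUnits
  haveI : Finite (AddMonoid.End Q)ˣ := inferInstance
  let F : (M ⧸ g.ker) →* AddMonoid.End Q :=
    (Units.coeHom (AddMonoid.End Q)).comp (QuotientGroup.kerLift g)
  let L : MonoidAlgebra ℤ (M ⧸ g.ker) →ₐ[ℤ] AddMonoid.End Q := MonoidAlgebra.lift ℤ _ _ F
  have key : ∀ e : MonoidAlgebra ℤ M, L (MonoidAlgebra.mapDomain (QuotientGroup.mk' g.ker) e) =
      Module.toAddMonoidEnd (MonoidAlgebra ℤ M) Q e := by
    intro e
    induction e using MonoidAlgebra.induction_on with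
    | of m =>
      rw [MonoidAlgebra.of_apply, MonoidAlgebra.mapDomain_single]
      have hL : L (MonoidAlgebra.single (QuotientGroup.mk' g.ker m) 1) =
          F (QuotientGroup.mk' g.ker m) :=
        (MonoidAlgebra.lift_single F _ _).trans (one_smul ℤ _)
      rw [hL]
      rfl
    | add a b ha hb => 
      rw [MonoidAlgebra.mapDomain_add, map_add, map_add, ha, hb]
    | smul r a ha =>
      rw [MonoidAlgebra.mapDomain_smul, map_smul, ha]
      exact (map_zsmul (Module.toAddMonoidEnd (MonoidAlgebra ℤ M) Q) r a).symm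
  refine ⟨g.ker, inferInstance, inferInstance, ?_⟩
  intro e he q
  have h1 := key e
  rw [he, map_zero] at h1
  have h2 := congrArg (fun φ : AddMonoid.End Q => φ q) h1
  exact h2.symm

/-- the elements e act as identity on c0 and as zero on a finite section V/U -/
theorem E_sub {ι M : Type} [Group M] {R : Set (MonoidAlgebra ℤ M)} (hE : Estar R)
    (U V : Submodule (MonoidAlgebra ℤ M) (ι → MonoidAlgebra ℤ M)) (hUV : U ≤ V)
    (hfin : U.toAddSubgroup.relIndex V.toAddSubgroup ≠ 0) :
    ∃ e : MonoidAlgebra ℤ M, inB e ∧ e • c0 R = c0 R ∧ ∀ v ∈ V, e • v ∈ U := by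
  haveI := esub_finQ U V hfin
  obtain ⟨K, hKn, hKf, hK⟩ := esub_act (M := M) (Q := V ⧸ (U.comap V.subtype))
  obtain ⟨e, he1, he2, he3⟩ := hE K hKn hKf
  refine ⟨e, he1, he2, fun v hv => ?_⟩
  have h1 := hK e he3 (Submodule.Quotient.mk ⟨v, hv⟩)
  rw [← Submodule.Quotient.mk_smul, Submodule.Quotient.mk_eq_zero] at h1
  exact h1

end Pool.Agent.Helper777.Prof
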