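import Pool.Agent.Helper777.Prof.Defs
import Pool.Agent.Helper777.Prof.P_mag_m
import Pool.Agent.Helper777.Prof.P_N_smul
import Pool.Agent.Helper777.Prof.P_HH_lift
import Pool.Agent.Helper777.Prof.P_E_sub

set_option autoImplicit false
set_option linter.all false

namespace Pool.Agent.Helper777.Prof

theorem quot_P2_add {ι M : Type} [Group M] (v w : ι → MonoidAlgebra ℤ M) :
    (⟨v, 1⟩ : Wr ℤ M ι) * ⟨w, 1⟩ = ⟨v + w, 1⟩ := by
  ext1
  · rw [Wr.mul_v]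
    show v + (MonoidAlgebra.of ℤ M 1) • w = v + w
    rw [map_one, one_smul]
  · rw [Wr.mul_m]
    exact one_mul 1

theorem quot_P2_zero {ι M : Type} [Group M] : (⟨0, 1⟩ : Wr ℤ M ι) = 1 := rfl

theorem quot_P2_neg {ι M : Type} [Group M] (v : ι → MonoidAlgebra ℤ M) :
    (⟨v, 1⟩ : Wr ℤ M ι)⁻¹ = ⟨-v, 1⟩ := by
  rw [inv_eq_iff_mul_eq_one, quot_P2_add, add_neg_cancel, quot_P2_zero]

theorem quot_P2_conj {ι M : Type} [Group M] (g : Wr ℤ M ι) (v : ι → MonoidAlgebra ℤ M) :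
    g * ⟨v, 1⟩ * g⁻¹ = ⟨(MonoidAlgebra.of ℤ M g.m) • v, 1⟩ := by
  ext1
  · rw [Wr.mul_v, Wr.mul_v, Wr.mul_m, Wr.inv_v]
    show g.v + (MonoidAlgebra.of ℤ M g.m) • v + (MonoidAlgebra.of ℤ M (g.m * 1)) •
      -((MonoidAlgebra.of ℤ M g.m⁻¹) • g.v) = (MonoidAlgebra.of ℤ M g.m) • v
    rw [mul_one, smul_neg, smul_smul, ← map_mul, mul_inv_cancel, map_one, one_smul]
    abel
  · rw [Wr.mul_m, Wr.mul_m, Wr.inv_m]
    show g.m * 1 * g.m⁻¹ = 1
    rw [mul_one, mul_inv_cancel]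

theorem quot_P2 {ι M : Type} [Group M] [DecidableEq ι] {R : Set (MonoidAlgebra ℤ M)}
    (π : FreeGroup ι →* M) (hπ : Function.Surjective π)
    (ψ : (ι → MonoidAlgebra ℤ M) →ₗ[MonoidAlgebra ℤ M] CC R)
    (w0 : Wr ℤ M ι) (hw0 : w0 ∈ (mag π).range) (hm : w0.m = 1) (hψ : ψ w0.v = c0 R)
    (hE : Estar R) (Q : Type) [Group Q] [Finite Q]
    (f : (mag π).range →* Q) (hf : Function.Surjective f) :
    ∃ f' : HH π ψ →* Q, Function.Surjective f' := by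
  have hmem : ∀ a b : ι → MonoidAlgebra ℤ M, (⟨a, 1⟩ : Wr ℤ M ι) ∈ (mag π).range →
      (⟨b, 1⟩ : Wr ℤ M ι) ∈ (mag π).range → (⟨a + b, 1⟩ : Wr ℤ M ι) ∈ (mag π).range := by
    intro a b ha hb
    rw [← quot_P2_add]
    exact mul_mem ha hb
  let V : Submodule (MonoidAlgebra ℤ M) (ι → MonoidAlgebra ℤ M) :=
    { carrier := {v | (⟨v, 1⟩ : Wr ℤ M ι) ∈ (mag π).range}
      add_mem' := fun {a b} ha hb => hmem a b ha hb
      zero_mem' := by
        show (1 : Wr ℤ M ι) ∈ (mag π).range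
        exact one_mem _
      smul_mem' := fun t v hv => N_smul π hπ v hv t }
  let U0 : AddSubgroup (ι → MonoidAlgebra ℤ M) :=
    { carrier := {v | ∃ h : (⟨v, 1⟩ : Wr ℤ M ι) ∈ (mag π).range, f ⟨⟨v, 1⟩, h⟩ = 1}
      add_mem' := by
        rintro a b ⟨ha, ha'⟩ ⟨hb, hb'⟩
        refine ⟨hmem a b ha hb, ?_⟩
        have : (⟨⟨a + b, 1⟩, hmem a b ha hb⟩ : (mag π).range) = ⟨⟨a, 1⟩, ha⟩ * ⟨⟨b, 1⟩, hb⟩ := by
          apply Subtype.ext
          exact (quot_P2_add a b).symm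
        rw [this, map_mul, ha', hb', mul_one]
      zero_mem' := ⟨one_mem _, map_one f⟩
      neg_mem' := by
        rintro a ⟨ha, ha'⟩
        have h1 : (⟨-a, 1⟩ : Wr ℤ M ι) ∈ (mag π).range := by
          rw [← quot_P2_neg]
          exact inv_mem ha
        refine ⟨h1, ?_⟩
        have : (⟨⟨-a, 1⟩, h1⟩ : (mag π).range) = (⟨⟨a, 1⟩, ha⟩)⁻¹ := by
          apply Subtype.ext
          exact (quot_P2_neg a).symm
        rw [this, map_inv, ha', inv_one] }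
  have hU0 : ∀ (t : MonoidAlgebra ℤ M) (v : ι → MonoidAlgebra ℤ M), v ∈ U0 → t • v ∈ U0 := by
    intro t v hv
    induction t using MonoidAlgebra.induction_on with
    | of m =>
      obtain ⟨h, h'⟩ := hv
      obtain ⟨u, hu⟩ := hπ m
      have hg : (mag π u).m = m := by rw [mag_m, hu]
      have h1 := quot_P2_conj (mag π u) v
      rw [hg] at h1
      have h2 : (⟨(MonoidAlgebra.of ℤ M m) • v, 1⟩ : Wr ℤ M ι) ∈ (mag π).range := by
        rw [← h1]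
        exact mul_mem (mul_mem ⟨u, rfl⟩ h) (inv_mem ⟨u, rfl⟩)
      refine ⟨h2, ?_⟩
      have : (⟨⟨(MonoidAlgebra.of ℤ M m) • v, 1⟩, h2⟩ : (mag π).range) =
          ⟨mag π u, ⟨u, rfl⟩⟩ * ⟨⟨v, 1⟩, h⟩ * (⟨mag π u, ⟨u, rfl⟩⟩)⁻¹ := by
        apply Subtype.ext
        exact h1.symm
      rw [this, map_mul, map_mul, h', mul_one, map_inv, mul_inv_cancel]
    | add a b ha hb =>
      rw [add_smul]
      exact U0.add_mem ha hb
    | smul r a ha =>
      rw [smul_assoc]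
      exact U0.zsmul_mem ha r
  let U : Submodule (MonoidAlgebra ℤ M) (ι → MonoidAlgebra ℤ M) :=
    { U0 with smul_mem' := fun t v hv => hU0 t v hv }
  have hUV : U ≤ V := by
    rintro v ⟨h, _⟩
    exact h
  have hfin : U.toAddSubgroup.relIndex V.toAddSubgroup ≠ 0 := by
    let φ : V.toAddSubgroup →+ Additive Q :=
      { toFun := fun v => Additive.ofMul (f ⟨⟨v.1, 1⟩, v.2⟩)
        map_zero' := by
          show Additive.ofMul (f ⟨⟨0, 1⟩, _⟩) = 0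
          have : f ⟨⟨0, 1⟩, one_mem _⟩ = 1 := map_one f
          rw [this]
          rfl
        map_add' := fun a b => by
          show Additive.ofMul (f ⟨⟨a.1 + b.1, 1⟩, _⟩) =
            Additive.ofMul (f ⟨⟨a.1, 1⟩, a.2⟩) + Additive.ofMul (f ⟨⟨b.1, 1⟩, b.2⟩)
          rw [← ofMul_mul, ← map_mul]
          congr 2
          apply Subtype.ext
          exact (quot_P2_add a.1 b.1).symm }
    have hker : φ.ker = U.toAddSubgroup.addSubgroupOf V.toAddSubgroup := by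
      ext v
      rw [AddMonoidHom.mem_ker, AddSubgroup.mem_addSubgroupOf]
      constructor
      · intro h
        exact ⟨v.2, h⟩
      · rintro ⟨h, h'⟩
        exact h'
    unfold AddSubgroup.relIndex
    rw [← hker]
    haveI : Finite φ.range := inferInstance
    exact (AddSubgroup.finiteIndex_ker φ).index_ne_zero
  obtain ⟨e, _, he1, he2⟩ := E_sub hE U V hUV hfin
  have hle : HH π ψ ≤ (mag π).range := fun w hw => hw.1
  refine ⟨f.comp (Subgroup.inclusion hle), ?_⟩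
  intro q
  obtain ⟨g, hg⟩ := hf q
  obtain ⟨t, ht1, ht2, ht3⟩ := HH_lift π hπ ψ w0 hw0 hm hψ g.1 g.2
  have hwV : w0.v ∈ V := by
    show (⟨w0.v, 1⟩ : Wr ℤ M ι) ∈ (mag π).range
    rw [← hm]
    exact hw0
  have huU : t • (e • w0.v) ∈ U := U.smul_mem t (he2 _ hwV)
  have hxV : t • w0.v - t • (e • w0.v) ∈ V := V.sub_mem (V.smul_mem t hwV) (hUV huU)
  have hxH : (⟨t • w0.v - t • (e • w0.v), 1⟩ : Wr ℤ M ι) ∈ HH π ψ := by
    refine ⟨hxV, ?_⟩
    show ψ (t • w0.v - t • (e • w0.v)) = 0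
    rw [map_sub, map_smul, map_smul, map_smul, hψ, he1, sub_self]
  refine ⟨⟨_, mul_mem hxH ht3⟩, ?_⟩
  rw [← hg]
  obtain ⟨hu1, hu2⟩ := huU
  show f (Subgroup.inclusion hle ⟨_, mul_mem hxH ht3⟩) = f g
  have key : g = ⟨⟨t • (e • w0.v), 1⟩, hu1⟩ * Subgroup.inclusion hle ⟨_, mul_mem hxH ht3⟩ := by
    apply Subtype.ext
    show g.1 = (⟨t • (e • w0.v), 1⟩ : Wr ℤ M ι) *
      ((⟨t • w0.v - t • (e • w0.v), 1⟩ : Wr ℤ M ι) * ((⟨t • w0.v, 1⟩ : Wr ℤ M ι)⁻¹ * g.1))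
    rw [← mul_assoc, quot_P2_add, add_sub_cancel, mul_inv_cancel_left]
  have key2 := congrArg f key
  rw [map_mul, hu2, one_mul] at key2
  exact key2.symm

end Pool.Agent.Helper777.Prof
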