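import Pool.Agent.Helper777.Prof.Defs

set_option autoImplicit false
set_option linter.all false

namespace Pool.Agent.Helper777.Prof

theorem inB_comm {M : Type} [Group M] (hB : ∀ a ∈ commutator M, ∀ b ∈ commutator M, a * b = b * a)
    (e f : MonoidAlgebra ℤ M) (he : inB e) (hf : inB f) : e * f = f * e := by
  have he' : e = ∑ a ∈ e.coeff.support, MonoidAlgebra.single a (e.coeff a) :=
    (MonoidAlgebra.sum_coeff_single e).symm
  have hf' : f = ∑ a ∈ f.coeff.support, MonoidAlgebra.single a (f.coeff a) :=
    (MonoidAlgebra.sum_coeff_single f).symm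
  have h : Commute (∑ a ∈ e.coeff.support, MonoidAlgebra.single a (e.coeff a))
      (∑ a ∈ f.coeff.support, MonoidAlgebra.single a (f.coeff a)) :=
    Commute.sum_left _ _ _ fun a ha => Commute.sum_right _ _ _ fun b hb =>
      MonoidAlgebra.single_commute_single (hB a (he a ha) b (hf b hb)) (Commute.all _ _)
  rw [← he', ← hf'] at h
  exact h

end Pool.Agent.Helper777.Prof
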