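import Pool.Agent.Helper777.Prof.Defs

set_option autoImplicit false
set_option linter.all false

namespace Pool.Agent.Helper777.Prof

theorem inB_conj {M : Type} [Group M] (g : M) (e : MonoidAlgebra ℤ M) (he : inB e) :
    inB (oo g * e * oo g⁻¹) := by
  
  intro m hm
  have key : (oo g * e * oo g⁻¹).coeff m = e.coeff (g⁻¹ * (m * g)) := by
    rw [oo, oo, MonoidAlgebra.of_apply, MonoidAlgebra.of_apply, MonoidAlgebra.coeff_mul_single_apply,
      MonoidAlgebra.coeff_single_mul_apply]
    simp
  have h1 : g⁻¹ * (m * g) ∈ e.coeff.support := by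
    rw [Finsupp.mem_support_iff] at hm ⊢
    rwa [← key]
  have h2 := he _ h1
  have h3 := (inferInstance : (commutator M).Normal).conj_mem _ h2 g
  have h4 : g * (g⁻¹ * (m * g)) * g⁻¹ = m := by group
  rwa [h4] at h3

end Pool.Agent.Helper777.Prof
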