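import Pool.Agent.Helper777.Prof.Defs
import Pool.Agent.Helper777.Prof.P_inB_comm
import Pool.Agent.Helper777.Prof.P_inB_conj

set_option autoImplicit false
set_option linter.all false

namespace Pool.Agent.Helper777.Prof

/-- w1 = e w0 satisfies all relations modulo U -/
theorem lift_rel {ι M : Type} [Group M] {R : Set (MonoidAlgebra ℤ M)}
    (hB : ∀ a ∈ commutator M, ∀ b ∈ commutator M, a * b = b * a)
    (hR : ∀ ρ ∈ R, (∃ g : M, ρ = oo g - 1) ∨ inB ρ)
    (ψ : (ι → MonoidAlgebra ℤ M) →ₗ[MonoidAlgebra ℤ M] CC R)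
    (U N0 N : Submodule (MonoidAlgebra ℤ M) (ι → MonoidAlgebra ℤ M)) (hUN : U ≤ N0)
    (hN0 : ∀ v, v ∈ N0 ↔ v ∈ N ∧ ψ v = 0)
    (v0 : ι → MonoidAlgebra ℤ M) (hv0 : v0 ∈ N) (hψ : ψ v0 = c0 R)
    (e : MonoidAlgebra ℤ M) (he : inB e) (he0 : e • c0 R = c0 R) (heU : ∀ v ∈ N0, e • v ∈ U)
    (ρ : MonoidAlgebra ℤ M) (hρ : ρ ∈ R) : ρ • (e • v0) ∈ U := by
  have hc0 : ρ • c0 R = 0 := by
    unfold c0
    rw [← Submodule.Quotient.mk_smul, smul_eq_mul, mul_one, Submodule.Quotient.mk_eq_zero]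
    exact Submodule.subset_span hρ
  rcases hR ρ hρ with ⟨g, rfl⟩ | hinB
  · have hg : oo g • c0 R = c0 R := by
      rw [sub_smul, one_smul, sub_eq_zero] at hc0
      exact hc0
    have hgi : oo g⁻¹ * oo g = (1 : MonoidAlgebra ℤ M) := by
      show MonoidAlgebra.of ℤ M g⁻¹ * MonoidAlgebra.of ℤ M g = 1
      rw [← map_mul, inv_mul_cancel, map_one]
    have hgi2 : oo g * oo g⁻¹ = (1 : MonoidAlgebra ℤ M) := by
      show MonoidAlgebra.of ℤ M g * MonoidAlgebra.of ℤ M g⁻¹ = 1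
      rw [← map_mul, mul_inv_cancel, map_one]
    have hg' : oo g⁻¹ • c0 R = c0 R := by
      have h1 : oo g⁻¹ • (oo g • c0 R) = c0 R := by
        rw [← mul_smul, hgi, one_smul]
      rwa [hg] at h1
    have he'0 : (oo g * e * oo g⁻¹) • c0 R = c0 R := by
      rw [mul_smul, mul_smul, hg', he0, hg]
    have he'U : ∀ v ∈ N0, (oo g * e * oo g⁻¹) • v ∈ U := by
      intro v hv
      rw [mul_smul, mul_smul]
      exact U.smul_mem _ (heU _ (N0.smul_mem _ hv))
    have hcomm := inB_comm hB (oo g * e * oo g⁻¹) e (inB_conj g e he) he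
    have m1 : oo g • v0 - v0 ∈ N0 := by
      rw [hN0]
      refine ⟨N.sub_mem (N.smul_mem _ hv0) hv0, ?_⟩
      rw [map_sub, map_smul, hψ, hg, sub_self]
    have m2 : v0 - e • v0 ∈ N0 := by
      rw [hN0]
      refine ⟨N.sub_mem hv0 (N.smul_mem _ hv0), ?_⟩
      rw [map_sub, map_smul, hψ, he0, sub_self]
    have m3 : v0 - (oo g * e * oo g⁻¹) • v0 ∈ N0 := by
      rw [hN0]
      refine ⟨N.sub_mem hv0 (N.smul_mem _ hv0), ?_⟩
      rw [map_sub, map_smul, hψ, he'0, sub_self]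
    have u1 := he'U _ m1
    have u2 := he'U _ m2
    have u3 := heU _ m3
    have hfin : (oo g - 1) • (e • v0) =
        (oo g * e * oo g⁻¹) • (oo g • v0 - v0) +
          ((oo g * e * oo g⁻¹) • (v0 - e • v0) -
            e • (v0 - (oo g * e * oo g⁻¹) • v0)) := by
      have h1 : (oo g * e * oo g⁻¹) • (oo g • v0) = oo g • (e • v0) := by
        rw [← mul_smul, ← mul_smul, mul_assoc, hgi, mul_one]
      have h2 : (oo g * e * oo g⁻¹) • (e • v0) = e • ((oo g * e * oo g⁻¹) • v0) := by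
        rw [← mul_smul, ← mul_smul, hcomm]
      rw [smul_sub, smul_sub, smul_sub, h1, h2, sub_smul, one_smul]
      abel
    rw [hfin]
    exact U.add_mem u1 (U.sub_mem u2 u3)
  · have h1 : ρ • (e • v0) = e • (ρ • v0) := by
      rw [← mul_smul, ← mul_smul, inB_comm hB ρ e hinB he]
    rw [h1]
    apply heU
    rw [hN0]
    refine ⟨N.smul_mem _ hv0, ?_⟩
    rw [map_smul, hψ, hc0]

end Pool.Agent.Helper777.Prof
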