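import Pool.Agent.Helper777.Prof.Defs
import Pool.Agent.Helper777.Prof.P_mag_m
import Pool.Agent.Helper777.Prof.P_N_smul
import Pool.Agent.Helper777.Prof.P_HH_lift
import Pool.Agent.Helper777.Prof.P_E_sub
import Pool.Agent.Helper777.Prof.P_lift_rel

set_option autoImplicit false
set_option linter.all false

namespace Pool.Agent.Helper777.Prof

/-- translations -/
noncomputable def q3tr {ι M : Type} [Group M] (v : ι → MonoidAlgebra ℤ M) : Wr ℤ M ι := ⟨v, 1⟩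

theorem q3tr_add {ι M : Type} [Group M] (v w : ι → MonoidAlgebra ℤ M) :
    q3tr (v + w) = q3tr v * q3tr w := by
  ext1
  · rw [Wr.mul_v]
    change v + w = v + (MonoidAlgebra.of ℤ M 1) • w
    rw [map_one, one_smul]
  · rw [Wr.mul_m]
    change (1 : M) = 1 * 1
    rw [mul_one]

theorem q3tr_zero {ι M : Type} [Group M] : q3tr (0 : ι → MonoidAlgebra ℤ M) = 1 := rfl

theorem q3tr_neg {ι M : Type} [Group M] (v : ι → MonoidAlgebra ℤ M) :
    q3tr (-v) = (q3tr v)⁻¹ := by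
  rw [eq_inv_iff_mul_eq_one, ← q3tr_add, neg_add_cancel, q3tr_zero]

theorem q3tr_conj {ι M : Type} [Group M] (h : Wr ℤ M ι) (v : ι → MonoidAlgebra ℤ M) :
    h * q3tr v * h⁻¹ = q3tr ((MonoidAlgebra.of ℤ M h.m) • v) := by
  rw [mul_inv_eq_iff_eq_mul]
  ext1
  · rw [Wr.mul_v, Wr.mul_v]
    change h.v + (MonoidAlgebra.of ℤ M h.m) • v =
      (MonoidAlgebra.of ℤ M h.m) • v + (MonoidAlgebra.of ℤ M 1) • h.v
    rw [map_one, one_smul, add_comm]
  · rw [Wr.mul_m, Wr.mul_m]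
    change h.m * 1 = 1 * h.m
    rw [mul_one, one_mul]

/-- additive subgroup of the translations killed by a homomorphism -/
noncomputable def q3U {ι M C Q : Type} [Group M] [DecidableEq ι] [AddCommGroup C]
    [Module (MonoidAlgebra ℤ M) C] [Group Q] (π : FreeGroup ι →* M)
    (ψ : (ι → MonoidAlgebra ℤ M) →ₗ[MonoidAlgebra ℤ M] C) (f : HH π ψ →* Q) :
    AddSubgroup (ι → MonoidAlgebra ℤ M) where
  carrier := {v | ∃ hv : q3tr v ∈ HH π ψ, f ⟨q3tr v, hv⟩ = 1}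
  add_mem' := by
    rintro v w ⟨hv, hv'⟩ ⟨hw, hw'⟩
    have hvw : q3tr (v + w) ∈ HH π ψ := by
      rw [q3tr_add]
      exact mul_mem hv hw
    refine ⟨hvw, ?_⟩
    have e : (⟨q3tr (v + w), hvw⟩ : HH π ψ) = ⟨q3tr v, hv⟩ * ⟨q3tr w, hw⟩ :=
      Subtype.ext (q3tr_add v w)
    rw [e, map_mul, hv', hw', mul_one]
  zero_mem' := by
    have h0 : q3tr (0 : ι → MonoidAlgebra ℤ M) ∈ HH π ψ := by
      rw [q3tr_zero]
      exact one_mem _
    refine ⟨h0, ?_⟩
    have e : (⟨q3tr 0, h0⟩ : HH π ψ) = 1 := Subtype.ext q3tr_zero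
    rw [e, map_one]
  neg_mem' := by
    rintro v ⟨hv, hv'⟩
    have h0 : q3tr (-v) ∈ HH π ψ := by
      rw [q3tr_neg]
      exact inv_mem hv
    refine ⟨h0, ?_⟩
    have e : (⟨q3tr (-v), h0⟩ : HH π ψ) = ⟨q3tr v, hv⟩⁻¹ := Subtype.ext (q3tr_neg v)
    rw [e, map_inv, hv', inv_one]

theorem q3mem {ι M C Q : Type} [Group M] [DecidableEq ι] [AddCommGroup C]
    [Module (MonoidAlgebra ℤ M) C] [Group Q] (π : FreeGroup ι →* M)
    (ψ : (ι → MonoidAlgebra ℤ M) →ₗ[MonoidAlgebra ℤ M] C) (f : HH π ψ →* Q)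
    (v : ι → MonoidAlgebra ℤ M) :
    v ∈ q3U π ψ f ↔ ∃ hv : q3tr v ∈ HH π ψ, f ⟨q3tr v, hv⟩ = 1 := Iff.rfl

theorem q3HH {ι M : Type} [Group M] [DecidableEq ι] {R : Set (MonoidAlgebra ℤ M)}
    (π : FreeGroup ι →* M) (hπ : Function.Surjective π)
    (ψ : (ι → MonoidAlgebra ℤ M) →ₗ[MonoidAlgebra ℤ M] CC R)
    (w0 : Wr ℤ M ι) (hw0 : w0 ∈ (mag π).range) (hm : w0.m = 1) (hψ : ψ w0.v = c0 R) (m : M) :
    ∃ h ∈ HH π ψ, h.m = m := by
  obtain ⟨w, hw⟩ := hπ m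
  obtain ⟨t, -, -, ht⟩ := HH_lift π hπ ψ w0 hw0 hm hψ (mag π w) ⟨w, rfl⟩
  refine ⟨_, ht, ?_⟩
  rw [Wr.mul_m, Wr.inv_m, mag_m, hw]
  change (1 : M)⁻¹ * m = m
  rw [inv_one, one_mul]

theorem quot_P3 {ι M : Type} [Group M] [DecidableEq ι] {R : Set (MonoidAlgebra ℤ M)}
    (hB : ∀ a ∈ commutator M, ∀ b ∈ commutator M, a * b = b * a)
    (hR : ∀ ρ ∈ R, (∃ g : M, ρ = oo g - 1) ∨ inB ρ)
    (π : FreeGroup ι →* M) (hπ : Function.Surjective π)
    (ψ : (ι → MonoidAlgebra ℤ M) →ₗ[MonoidAlgebra ℤ M] CC R)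
    (w0 : Wr ℤ M ι) (hw0 : w0 ∈ (mag π).range) (hm : w0.m = 1) (hψ : ψ w0.v = c0 R)
    (hE : Estar R) (Q : Type) [Group Q] [Finite Q]
    (f : HH π ψ →* Q) (hf : Function.Surjective f) :
    ∃ f' : (mag π).range →* Q, Function.Surjective f' := by
  classical
  have hU_of : ∀ (m : M) (v : ι → MonoidAlgebra ℤ M), v ∈ q3U π ψ f →
      (MonoidAlgebra.of ℤ M m) • v ∈ q3U π ψ f := by
    rintro m v ⟨hv, hv'⟩
    obtain ⟨h, hh, rfl⟩ := q3HH π hπ ψ w0 hw0 hm hψ m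
    have h1 : q3tr ((MonoidAlgebra.of ℤ M h.m) • v) ∈ HH π ψ := by
      rw [← q3tr_conj]
      exact mul_mem (mul_mem hh hv) (inv_mem hh)
    refine ⟨h1, ?_⟩
    have e : (⟨q3tr ((MonoidAlgebra.of ℤ M h.m) • v), h1⟩ : HH π ψ) =
        ⟨h, hh⟩ * ⟨q3tr v, hv⟩ * ⟨h, hh⟩⁻¹ := Subtype.ext (q3tr_conj h v).symm
    rw [e, map_mul, map_mul, map_inv, hv', mul_one, mul_inv_cancel]
  let U : Submodule (MonoidAlgebra ℤ M) (ι → MonoidAlgebra ℤ M) :=
    { carrier := q3U π ψ f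
      add_mem' := fun ha hb => (q3U π ψ f).add_mem ha hb
      zero_mem' := (q3U π ψ f).zero_mem
      smul_mem' := by
        intro a v hv
        induction a using MonoidAlgebra.induction_on with
        | of m => exact hU_of m v hv
        | add x y hx hy =>
          rw [add_smul]
          exact (q3U π ψ f).add_mem hx hy
        | smul r x hx =>
          have e : (r • x) • v = r • (x • v) := by
            rw [smul_assoc]
          rw [e]
          exact (q3U π ψ f).zsmul_mem hx r }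
  let N : Submodule (MonoidAlgebra ℤ M) (ι → MonoidAlgebra ℤ M) :=
    { carrier := {v | q3tr v ∈ (mag π).range}
      add_mem' := by
        intro a b ha hb
        change q3tr (a + b) ∈ (mag π).range
        rw [q3tr_add]
        exact mul_mem ha hb
      zero_mem' := by
        change q3tr 0 ∈ (mag π).range
        rw [q3tr_zero]
        exact one_mem _
      smul_mem' := fun t v hv => N_smul π hπ v hv t }
  let N0 : Submodule (MonoidAlgebra ℤ M) (ι → MonoidAlgebra ℤ M) := N ⊓ LinearMap.ker ψ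
  have hN0 : ∀ v, v ∈ N0 ↔ v ∈ N ∧ ψ v = 0 := fun v => Iff.rfl
  have hN0HH : ∀ v, v ∈ N0 → q3tr v ∈ HH π ψ := fun v hv => hv
  have hUN : U ≤ N0 := by
    rintro v ⟨hv, -⟩
    exact hv
  have hfin : U.toAddSubgroup.relIndex N0.toAddSubgroup ≠ 0 := by
    let φ : N0.toAddSubgroup →+ Additive Q :=
      { toFun := fun v => Additive.ofMul (f ⟨q3tr v.1, hN0HH v.1 v.2⟩)
        map_zero' := by
          have e : (⟨q3tr (0 : N0.toAddSubgroup).1, hN0HH _ (0 : N0.toAddSubgroup).2⟩ : HH π ψ) = 1 :=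
            Subtype.ext q3tr_zero
          rw [e, map_one]
          rfl
        map_add' := by
          intro a b
          have e : (⟨q3tr (a + b).1, hN0HH _ (a + b).2⟩ : HH π ψ) =
              ⟨q3tr a.1, hN0HH _ a.2⟩ * ⟨q3tr b.1, hN0HH _ b.2⟩ := Subtype.ext (q3tr_add a.1 b.1)
          rw [e, map_mul]
          rfl }
    have hk : φ.ker = U.toAddSubgroup.addSubgroupOf N0.toAddSubgroup := by
      ext v
      rw [AddMonoidHom.mem_ker, AddSubgroup.mem_addSubgroupOf]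
      constructor
      · intro h
        exact ⟨hN0HH v.1 v.2, h⟩
      · rintro ⟨h1, h2⟩
        exact h2
    have : Finite (Additive Q) := ‹Finite Q›
    have hfi : (φ.ker).FiniteIndex := inferInstance
    rw [hk] at hfi
    exact hfi.index_ne_zero
  obtain ⟨e, he, he0, heU⟩ := E_sub hE U N0 hUN hfin
  have hw0N : w0.v ∈ N := by
    change q3tr w0.v ∈ (mag π).range
    have e1 : q3tr w0.v = w0 := by
      ext1
      · rfl
      · exact hm.symm
    rw [e1]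
    exact hw0
  have hv1N : e • w0.v ∈ N := N.smul_mem e hw0N
  have hψ1 : ψ (e • w0.v) = c0 R := by
    rw [map_smul, hψ, he0]
  have hrel : ∀ ρ ∈ R, ρ • (e • w0.v) ∈ U := fun ρ hρ =>
    lift_rel hB hR ψ U N0 N hUN hN0 w0.v hw0N hψ e he he0 heU ρ hρ
  generalize e • w0.v = v1 at hv1N hψ1 hrel
  have hspan : ∀ t : MonoidAlgebra ℤ M, t • c0 R = 0 → t • v1 ∈ U := by
    intro t ht
    have h1 : t ∈ Submodule.span (MonoidAlgebra ℤ M) R := by
      have h2 : t • c0 R = Submodule.Quotient.mk t := by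
        unfold c0
        rw [← Submodule.Quotient.mk_smul, smul_eq_mul, mul_one]
      rw [h2, Submodule.Quotient.mk_eq_zero] at ht
      exact ht
    have h3 : Submodule.span (MonoidAlgebra ℤ M) R ≤
        U.comap (LinearMap.toSpanSingleton (MonoidAlgebra ℤ M) _ v1) := by
      rw [Submodule.span_le]
      intro ρ hρ
      exact hrel ρ hρ
    exact h3 h1
  have hlift : ∀ g : (mag π).range, ∃ t : MonoidAlgebra ℤ M, (q3tr (t • v1))⁻¹ * g.1 ∈ HH π ψ := by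
    intro g
    obtain ⟨t, -, -, ht⟩ := HH_lift π hπ ψ (q3tr v1) hv1N rfl hψ1 g.1 g.2
    exact ⟨t, ht⟩
  have hwell : ∀ (g : Wr ℤ M ι) (t t' : MonoidAlgebra ℤ M) (h : (q3tr (t • v1))⁻¹ * g ∈ HH π ψ)
      (h' : (q3tr (t' • v1))⁻¹ * g ∈ HH π ψ), f ⟨_, h⟩ = f ⟨_, h'⟩ := by
    intro g t t' h h'
    have e1 : ((q3tr (t • v1))⁻¹ * g) * ((q3tr (t' • v1))⁻¹ * g)⁻¹ = q3tr ((t' - t) • v1) := by
      rw [sub_smul, sub_eq_neg_add, q3tr_add, q3tr_neg]
      group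
    have e2 : q3tr ((t' - t) • v1) ∈ HH π ψ := by
      rw [← e1]
      exact mul_mem h (inv_mem h')
    have e3 : (t' - t) • c0 R = 0 := by
      have := e2.2
      change ψ ((t' - t) • v1) = 0 at this
      rwa [map_smul, hψ1] at this
    obtain ⟨e4, e5⟩ := hspan _ e3
    have e6 : (⟨_, h⟩ : HH π ψ) * ⟨_, h'⟩⁻¹ = ⟨q3tr ((t' - t) • v1), e4⟩ := Subtype.ext e1
    have e7 : f ⟨_, h⟩ * (f ⟨_, h'⟩)⁻¹ = 1 := by
      rw [← map_inv, ← map_mul, e6, e5]
    exact mul_inv_eq_one.mp e7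
  choose T hT using hlift
  refine ⟨MonoidHom.mk' (fun g => f ⟨_, hT g⟩) ?_, ?_⟩
  · intro g g'
    have e1 : (q3tr ((T g + MonoidAlgebra.of ℤ M ((q3tr (T g • v1))⁻¹ * g.1).m * T g') • v1))⁻¹ *
        (g * g').1 = ((q3tr (T g • v1))⁻¹ * g.1) * ((q3tr (T g' • v1))⁻¹ * g'.1) := by
      rw [add_smul, mul_smul, q3tr_add, ← q3tr_conj]
      change _ * (g.1 * g'.1) = _
      group
    have e2 : (q3tr ((T g + MonoidAlgebra.of ℤ M ((q3tr (T g • v1))⁻¹ * g.1).m * T g') • v1))⁻¹ *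
        (g * g').1 ∈ HH π ψ := by
      rw [e1]
      exact mul_mem (hT g) (hT g')
    have e3 := hwell _ _ _ (hT (g * g')) e2
    rw [e3, ← map_mul]
    congr 1
    exact Subtype.ext e1
  · intro x
    obtain ⟨h, hh⟩ := hf x
    refine ⟨⟨h.1, h.2.1⟩, ?_⟩
    have e1 : (q3tr ((0 : MonoidAlgebra ℤ M) • v1))⁻¹ * h.1 ∈ HH π ψ := by
      rw [zero_smul, q3tr_zero, inv_one, one_mul]
      exact h.2
    have e2 := hwell _ _ _ (hT ⟨h.1, h.2.1⟩) e1
    change f ⟨_, hT ⟨h.1, h.2.1⟩⟩ = x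
    rw [e2, ← hh]
    congr 1
    apply Subtype.ext
    change (q3tr ((0 : MonoidAlgebra ℤ M) • v1))⁻¹ * h.1 = h.1
    rw [zero_smul, q3tr_zero, inv_one, one_mul]

end Pool.Agent.Helper777.Prof
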