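import Pool.Agent.Helper777.Prof.Defs
import Pool.Agent.Helper777.Prof.P_mag_m
import Pool.Agent.Helper777.Prof.P_magnus_ker
import Pool.Agent.Helper777.Prof.P_mag_comm

set_option autoImplicit false
set_option linter.all false

namespace Pool.Agent.Helper777.Prof

theorem range_iso (ι : Type) [DecidableEq ι] :
    Nonempty ((mag (pn ι 2)).range ≃* Dq ι 3) := by
  have hπ : Function.Surjective (pn ι 2) := QuotientGroup.mk'_surjective _
  have hker : (pn ι 2).ker = derivedSeries (FreeGroup ι) 2 := QuotientGroup.ker_mk' _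
  have h : (mag (pn ι 2)).ker = derivedSeries (FreeGroup ι) 3 := by
    have h3 : derivedSeries (FreeGroup ι) 3 = ⁅(pn ι 2).ker, (pn ι 2).ker⁆ := by
      rw [hker]
      exact derivedSeries_succ _ 2
    rw [h3]
    ext w
    exact ⟨fun hw => magnus_ker _ hπ w hw, fun hw => mag_comm _ w hw⟩
  exact ⟨(QuotientGroup.quotientKerEquivRange (mag (pn ι 2))).symm.trans
    (QuotientGroup.quotientMulEquivOfEq h)⟩

end Pool.Agent.Helper777.Prof
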