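import Pool.Agent.Helper777.Prof.Defs

set_option autoImplicit false
set_option linter.all false

namespace Pool.Agent.Helper777.Prof

/-- elements supported in the derived subgroup form a subring -/
noncomputable def rfB (M : Type) [Group M] : Subring (MonoidAlgebra ℤ M) where
  carrier := {f | inB f}
  mul_mem' := by
    classical
    intro f g hf hg m hm
    have h1 := MonoidAlgebra.support_coeff_mul_subset f g hm
    rw [Finset.mem_mul] at h1
    obtain ⟨a, ha, b, hb, rfl⟩ := h1
    exact mul_mem (hf a ha) (hg b hb)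
  one_mem' := by
    intro m hm
    have h1 := MonoidAlgebra.support_coeff_one_subset hm
    rw [Finset.mem_one] at h1
    rw [h1]
    exact one_mem _
  add_mem' := by
    classical
    intro f g hf hg m hm
    rw [MonoidAlgebra.coeff_add] at hm
    have h1 := Finsupp.support_add hm
    rw [Finset.mem_union] at h1
    rcases h1 with h1 | h1
    · exact hf m h1
    · exact hg m h1
  zero_mem' := by
    intro m hm
    exact absurd rfl (Finsupp.mem_support_iff.1 hm)
  neg_mem' := by
    intro f hf m hm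
    apply hf m
    rw [Finsupp.mem_support_iff] at hm ⊢
    intro h
    apply hm
    show -(f.coeff m) = 0
    rw [h, neg_zero]

theorem rfB_oo {M : Type} [Group M] {m : M} (hm : m ∈ commutator M) : oo m ∈ rfB M := by
  intro x hx
  have h1 : x ∈ ({m} : Finset M) := by
    apply Finsupp.support_single_subset (b := (1 : ℤ))
    exact hx
  rw [Finset.mem_singleton] at h1
  rw [h1]
  exact hm

theorem rf_comm {M : Type} [Group M] (a b : M) : a * b * a⁻¹ * b⁻¹ ∈ commutator M := by
  exact Subgroup.commutator_mem_commutator (Subgroup.mem_top a) (Subgroup.mem_top b)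

theorem rf_conj {M : Type} [Group M] {m : M} (hm : m ∈ commutator M) (g : M) :
    g * m * g⁻¹ ∈ commutator M :=
  (inferInstance : (commutator M).Normal).conj_mem m hm g

theorem rf_relB {T : Type} [Fintype T] (Hr Vr : T → T → Prop)
    (f : MonoidAlgebra ℤ (Dq (Gn T) 2)) (h : RelB Hr Vr f) : f ∈ rfB (Dq (Gn T) 2) := by
  have hs : gs T ∈ commutator (Dq (Gn T) 2) := rf_comm _ _
  have hb : ∀ t : T, gb t ∈ commutator (Dq (Gn T) 2) := fun t => rf_comm _ _
  have hb1 : ∀ t : T, oo (gb t) - 1 ∈ rfB (Dq (Gn T) 2) := fun t =>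
    sub_mem (rfB_oo (hb t)) (one_mem _)
  cases h with
  | sq => exact add_mem (sub_mem (mul_mem (rfB_oo hs) (rfB_oo hs)) (rfB_oo hs)) (one_mem _)
  | sx => exact sub_mem (rfB_oo (rf_conj hs _)) (rfB_oo hs)
  | sy => exact sub_mem (rfB_oo (rf_conj hs _)) (rfB_oo hs)
  | two t t' h => exact mul_mem (hb1 t) (hb1 t')
  | sum => exact sub_mem (sum_mem fun t _ => hb1 t) (sub_mem (rfB_oo hs) (one_mem _))
  | hor t t' h => exact mul_mem (hb1 t) (sub_mem (rfB_oo (rf_conj (hb t') _)) (one_mem _))
  | ver t t' h => exact mul_mem (hb1 t) (sub_mem (rfB_oo (rf_conj (hb t') _)) (one_mem _))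

theorem rel_form {T : Type} [Fintype T] (Hr Vr : T → T → Prop) :
    ∀ ρ ∈ Rel Hr Vr, (∃ g : Dq (Gn T) 2, ρ = oo g - 1) ∨ inB ρ := by
  intro ρ hρ
  rcases hρ with hρ | hρ
  · exact Or.inr (rf_relB Hr Vr ρ hρ)
  · rcases hρ with hρ | hρ
    · exact Or.inl ⟨gx T, hρ⟩
    · exact Or.inl ⟨gy T, hρ⟩

end Pool.Agent.Helper777.Prof
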