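import Pool.Agent.Helper777.Prof.Defs

set_option autoImplicit false
set_option linter.all false

namespace Pool.Agent.Helper777.Prof

def kf (x : ℚ) : ℚ := if x < 3 then 2 * x else x / 3

def kg (y : ℚ) : ℚ := if y < 2 then 3 * y else y / 2

def ke : Equiv.Perm {x : ℚ // 1 ≤ x ∧ x < 6} where
  toFun x := ⟨kf x.1, by
    obtain ⟨x, h1, h2⟩ := x
    unfold kf
    simp only
    split_ifs with h <;> constructor <;> linarith⟩
  invFun y := ⟨kg y.1, by
    obtain ⟨x, h1, h2⟩ := y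
    unfold kg
    simp only
    split_ifs with h <;> constructor <;> linarith⟩
  left_inv := by
    rintro ⟨x, h1, h2⟩
    apply Subtype.ext
    simp only
    unfold kf
    by_cases h : x < 3
    · rw [if_pos h]
      unfold kg
      rw [if_neg (by linarith)]
      ring
    · rw [if_neg h]
      unfold kg
      rw [if_pos (by linarith)]
      ring
  right_inv := by
    rintro ⟨y, h1, h2⟩
    apply Subtype.ext
    simp only
    unfold kg
    by_cases h : y < 2
    · rw [if_pos h]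
      unfold kf
      rw [if_neg (by linarith)]
      ring
    · rw [if_neg h]
      unfold kf
      rw [if_pos (by linarith)]
      ring

theorem kseq : ∃ x : ℤ → ℚ, ∀ j, 1 ≤ x j ∧ x j < 6 ∧ (x j < 3 → x (j + 1) = 2 * x j) ∧
    (¬ x j < 3 → x (j + 1) = x j / 3) := by
  refine ⟨fun j => ((ke ^ j) ⟨1, by norm_num⟩).1, fun j => ?_⟩
  have h1 := ((ke ^ j) ⟨1, by norm_num⟩).2
  have h2 : ((ke ^ (j + 1)) ⟨1, by norm_num⟩).1 = kf ((ke ^ j) ⟨1, by norm_num⟩).1 := by
    rw [add_comm, zpow_one_add]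
    rfl
  refine ⟨h1.1, h1.2, ?_, ?_⟩
  · intro h
    simp only
    rw [h2, kf, if_pos h]
  · intro h
    simp only
    rw [h2, kf, if_neg h]

abbrev KT : Type := Bool × Fin 7 × Fin 7 × Fin 4 × Fin 4

def kvalid (t : KT) : Prop :=
  1 ≤ (t.2.1 : ℕ) ∧
  (t.1 = true → 2 * (t.2.1 : ℕ) + (t.2.2.2.1 : ℕ) = (t.2.2.1 : ℕ) + (t.2.2.2.2 : ℕ)) ∧
  (t.1 = false → (t.2.1 : ℕ) + (t.2.2.2.1 : ℕ) = 3 * (t.2.2.1 : ℕ) + (t.2.2.2.2 : ℕ))

def kH (t t' : KT) : Prop := kvalid t ∧ t.1 = t'.1 ∧ t.2.2.2.2 = t'.2.2.2.1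

def kV (t t' : KT) : Prop := t.2.2.1 = t'.2.1

theorem kexist : ∃ τ : ℤ → ℤ → KT, Tiling kH kV τ := by
  obtain ⟨x, hx⟩ := kseq
  let A : ℤ → ℤ → ℤ := fun i j => ⌊((i + 1 : ℤ) : ℚ) * x j⌋ - ⌊(i : ℚ) * x j⌋
  let S : ℤ → ℤ → ℤ := fun i j =>
    if x j < 3 then 2 * ⌊(i : ℚ) * x j⌋ - ⌊(i : ℚ) * x (j + 1)⌋ + 1
    else ⌊(i : ℚ) * x j⌋ - 3 * ⌊(i : ℚ) * x (j + 1)⌋ + 1
  have hA : ∀ i j, 1 ≤ A i j ∧ A i j ≤ 6 := by
    intro i j
    obtain ⟨h1, h2, _, _⟩ := hx j
    simp only [A]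
    push_cast
    constructor
    · have : ⌊(i : ℚ) * x j⌋ + 1 ≤ ⌊((i : ℚ) + 1) * x j⌋ := by
        rw [← Int.floor_add_one]
        apply Int.floor_le_floor
        linarith
      linarith
    · have : ⌊((i : ℚ) + 1) * x j⌋ ≤ ⌊(i : ℚ) * x j⌋ + 6 := by
        have h3 : ⌊(i : ℚ) * x j + ((6 : ℤ) : ℚ)⌋ = ⌊(i : ℚ) * x j⌋ + 6 := Int.floor_add_intCast _ _
        rw [← h3]
        apply Int.floor_le_floor
        push_cast
        linarith
      linarith
  have hS : ∀ i j, 0 ≤ S i j ∧ S i j ≤ 3 := by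
    intro i j
    obtain ⟨h1, h2, h3, h4⟩ := hx j
    simp only [S]
    have k1 := Int.floor_le ((i : ℚ) * x j)
    have k2 := Int.lt_floor_add_one ((i : ℚ) * x j)
    have k3 := Int.floor_le ((i : ℚ) * x (j + 1))
    have k4 := Int.lt_floor_add_one ((i : ℚ) * x (j + 1))
    by_cases h : x j < 3
    · rw [if_pos h]
      have h5 := h3 h
      have e : (i : ℚ) * x (j + 1) = 2 * ((i : ℚ) * x j) := by rw [h5]; ring
      rw [e] at k3 k4 ⊢
      set u := (i : ℚ) * x j
      constructor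
      · have : (⌊2 * u⌋ : ℚ) < 2 * ⌊u⌋ + 2 := by linarith
        have : ⌊2 * u⌋ < 2 * ⌊u⌋ + 2 := by exact_mod_cast this
        linarith
      · have : (2 * ⌊u⌋ : ℚ) < ⌊2 * u⌋ + 1 := by linarith
        have : 2 * ⌊u⌋ < ⌊2 * u⌋ + 1 := by exact_mod_cast this
        linarith
    · rw [if_neg h]
      have h5 := h4 h
      have e : (i : ℚ) * x j = 3 * ((i : ℚ) * x (j + 1)) := by rw [h5]; ring
      rw [e] at k1 k2 ⊢
      set u := (i : ℚ) * x (j + 1)
      constructor
      · have : (3 * ⌊u⌋ : ℚ) < ⌊3 * u⌋ + 1 := by linarith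
        have : 3 * ⌊u⌋ < ⌊3 * u⌋ + 1 := by exact_mod_cast this
        linarith
      · have : (⌊3 * u⌋ : ℚ) < 3 * ⌊u⌋ + 3 := by linarith
        have : ⌊3 * u⌋ < 3 * ⌊u⌋ + 3 := by exact_mod_cast this
        linarith
  have hid : ∀ i j, (x j < 3 → 2 * A i j + S i j = A i (j + 1) + S (i + 1) j) ∧
      (¬ x j < 3 → A i j + S i j = 3 * A i (j + 1) + S (i + 1) j) := by
    intro i j
    constructor
    · intro h
      simp only [A, S, if_pos h]
      ring
    · intro h
      simp only [A, S, if_neg h]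
      ring
  let a : ℤ → ℤ → Fin 7 := fun i j => ⟨(A i j).toNat, by have := hA i j; omega⟩
  let s : ℤ → ℤ → Fin 4 := fun i j => ⟨(S i j).toNat, by have := hS i j; omega⟩
  refine ⟨fun i j => (decide (x j < 3), a i j, a i (j + 1), s i j, s (i + 1) j), ?_⟩
  intro i j
  refine ⟨⟨⟨?_, ?_, ?_⟩, rfl, rfl⟩, rfl⟩
  · have := hA i j
    show 1 ≤ (A i j).toNat
    omega
  · intro h
    have h' : x j < 3 := by simpa using h
    have h1 := (hid i j).1 h'
    have h2 := hA i j
    have h3 := hA i (j + 1)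
    have h4 := hS i j
    have h5 := hS (i + 1) j
    show 2 * (A i j).toNat + (S i j).toNat = (A i (j + 1)).toNat + (S (i + 1) j).toNat
    omega
  · intro h
    have h' : ¬ x j < 3 := by simpa using h
    have h1 := (hid i j).2 h'
    have h2 := hA i j
    have h3 := hA i (j + 1)
    have h4 := hS i j
    have h5 := hS (i + 1) j
    show (A i j).toNat + (S i j).toNat = 3 * (A i (j + 1)).toNat + (S (i + 1) j).toNat
    omega

theorem kpow (α β : ℕ) (h : 3 ^ β = 2 ^ α) (h0 : 0 < α + β) : False := by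
  rcases Nat.eq_zero_or_pos α with ha | ha
  · subst ha
    rw [pow_zero] at h
    have hb : β ≠ 0 := by omega
    have := Nat.one_lt_pow hb (show 1 < 3 by norm_num)
    omega
  · have h1 : 2 ∣ 3 ^ β := by
      rw [h]
      exact dvd_pow_self 2 ha.ne'
    have h2 := Nat.Prime.dvd_of_dvd_pow Nat.prime_two h1
    omega

theorem kaper (n : ℕ) (hn : 0 < n) (τ : ℤ → ℤ → KT) (hτ : Tiling kH kV τ)
    (hper : ∀ i j, τ (i + n) j = τ i j ∧ τ i (j + n) = τ i j) : False := by
  let a : ℕ → ℕ → ℕ := fun i j => ((τ i j).2.1 : ℕ)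
  let s : ℕ → ℕ → ℕ := fun i j => ((τ i j).2.2.2.1 : ℕ)
  have hb : ∀ i j : ℕ, (τ i j).1 = (τ 0 j).1 := by
    intro i j
    induction i with
    | zero => rfl
    | succ i ih =>
      have := (hτ i j).1.2.1
      rw [← ih, this]
      push_cast
      rfl
  have ha1 : ∀ i j : ℕ, 1 ≤ a i j := fun i j => (hτ i j).1.1.1
  have hrel : ∀ i j : ℕ, ((τ 0 j).1 = true → 2 * a i j + s i j = a i (j + 1) + s (i + 1) j) ∧
      ((τ 0 j).1 = false → a i j + s i j = 3 * a i (j + 1) + s (i + 1) j) := by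
    intro i j
    have h1 := (hτ i j).1.1.2
    have h2 : (τ i j).2.2.1 = (τ i (j + 1 : ℕ)).2.1 := by
      have := (hτ i j).2
      push_cast
      exact this
    have h3 : (τ i j).2.2.2.2 = (τ (i + 1 : ℕ) j).2.2.2.1 := by
      have := (hτ i j).1.2.2
      push_cast
      exact this
    rw [h2, h3, hb i j] at h1
    exact h1
  let R : ℕ → ℕ := fun j => ∑ i ∈ Finset.range n, a i j
  have hSs : ∀ j : ℕ, ∑ i ∈ Finset.range n, s (i + 1) j = ∑ i ∈ Finset.range n, s i j := by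
    intro j
    have h1 := Finset.sum_range_succ' (fun i => s i j) n
    have h2 := Finset.sum_range_succ (fun i => s i j) n
    have h3 : s n j = s 0 j := by
      have := (hper 0 j).1
      rw [zero_add] at this
      simp only [s]
      rw [this]
      rfl
    rw [h2, h3] at h1
    omega
  have hR : ∀ j : ℕ, ((τ 0 j).1 = true → 2 * R j = R (j + 1)) ∧
      ((τ 0 j).1 = false → R j = 3 * R (j + 1)) := by
    intro j
    constructor
    · intro h
      have h1 : ∑ i ∈ Finset.range n, (2 * a i j + s i j) =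
          ∑ i ∈ Finset.range n, (a i (j + 1) + s (i + 1) j) :=
        Finset.sum_congr rfl fun i _ => (hrel i j).1 h
      rw [Finset.sum_add_distrib, Finset.sum_add_distrib, hSs, ← Finset.mul_sum] at h1
      simp only [R]
      omega
    · intro h
      have h1 : ∑ i ∈ Finset.range n, (a i j + s i j) =
          ∑ i ∈ Finset.range n, (3 * a i (j + 1) + s (i + 1) j) :=
        Finset.sum_congr rfl fun i _ => (hrel i j).2 h
      rw [Finset.sum_add_distrib, Finset.sum_add_distrib, hSs, ← Finset.mul_sum] at h1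
      simp only [R]
      omega
  have hind : ∀ k : ℕ, ∃ α β : ℕ, α + β = k ∧ 3 ^ β * R k = 2 ^ α * R 0 := by
    intro k
    induction k with
    | zero => exact ⟨0, 0, rfl, by simp⟩
    | succ k ih =>
      obtain ⟨α, β, h1, h2⟩ := ih
      cases hbk : (τ 0 k).1 with
      | true =>
        refine ⟨α + 1, β, by omega, ?_⟩
        rw [← (hR k).1 hbk, pow_succ, mul_right_comm, ← h2]
        ring
      | false =>
        refine ⟨α, β + 1, by omega, ?_⟩
        have := (hR k).2 hbk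
        rw [← h2, this, pow_succ]
        ring
  obtain ⟨α, β, h1, h2⟩ := hind n
  have hRn : R n = R 0 := by
    simp only [R, a]
    refine Finset.sum_congr rfl fun i _ => ?_
    have := (hper i 0).2
    rw [zero_add] at this
    rw [this]
    rfl
  have hR0 : 0 < R 0 := by
    have : ∑ i ∈ Finset.range n, 1 ≤ R 0 := Finset.sum_le_sum fun i _ => ha1 i 0
    rw [Finset.sum_const, Finset.card_range, smul_eq_mul, mul_one] at this
    omega
  rw [hRn] at h2
  have h3 := Nat.eq_of_mul_eq_mul_right hR0 h2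
  exact kpow α β h3 (by omega)

/-- an aperiodic tile set -/
theorem tiles : ∃ (T : Type) (_ : Fintype T) (_ : DecidableEq T) (Hr Vr : T → T → Prop),
    (∃ τ : ℤ → ℤ → T, Tiling Hr Vr τ) ∧
    (∀ n : ℕ, 0 < n → ¬ ∃ τ : ℤ → ℤ → T, Tiling Hr Vr τ ∧
      ∀ i j, τ (i + n) j = τ i j ∧ τ i (j + n) = τ i j) := by
  refine ⟨KT, inferInstance, inferInstance, kH, kV, kexist, ?_⟩
  rintro n hn ⟨τ, h1, h2⟩
  exact kaper n hn τ h1 h2

end Pool.Agent.Helper777.Prof
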