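import Pool.Agent.Helper777.Prof.P_mag_m
import Pool.Agent.Helper777.Prof.P_comm_dq2

set_option autoImplicit false
set_option linter.all false

namespace Pool.Agent.Helper777.Prof

theorem mag_single {ι M : Type} [Group M] [DecidableEq ι] (π : FreeGroup ι →* M) (i : ι) :
    mag π (FreeGroup.of i) = ⟨Pi.single i 1, π (FreeGroup.of i)⟩ := by
  simp [mag]

theorem psi_apply {T : Type} [Fintype T] (Hr Vr : T → T → Prop)
    (v : Gn T → MonoidAlgebra ℤ (Dq (Gn T) 2)) :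
    psi Hr Vr v = v (Sum.inl 0) • ((oo (gs T) - 1) • c0 (Rel Hr Vr)) := rfl

theorem w0_exists {T : Type} [Fintype T] [DecidableEq T] (Hr Vr : T → T → Prop) :
    ∃ w0 ∈ (mag (pn (Gn T) 2)).range, w0.m = 1 ∧ psi Hr Vr w0.v = c0 (Rel Hr Vr) := by
  classical
  let π := pn (Gn T) 2
  let X : FreeGroup (Gn T) := FreeGroup.of (Sum.inl 0)
  let Q : FreeGroup (Gn T) := FreeGroup.of (Sum.inl 2)
  let P : FreeGroup (Gn T) := FreeGroup.of (Sum.inl 3)
  let S := P * Q * P⁻¹ * Q⁻¹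
  let c := X * S * X⁻¹ * S⁻¹
  let W := c * S * c⁻¹ * S⁻¹
  have hB := comm_dq2 (Gn T)
  have hsB : gs T ∈ commutator (Dq (Gn T) 2) := by
    have := Subgroup.commutator_mem_commutator (Subgroup.mem_top (gp T)) (Subgroup.mem_top (gq T))
    rw [commutator_def]
    exact this
  have hxsB : gx T * gs T * (gx T)⁻¹ ∈ commutator (Dq (Gn T) 2) :=
    (inferInstance : (commutator (Dq (Gn T) 2)).Normal).conj_mem _ hsB _
  have hπS : π S = gs T := by
    simp only [S, map_mul, map_inv]; rfl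
  have hπc : π c = gx T * gs T * (gx T)⁻¹ * (gs T)⁻¹ := by
    simp only [c, map_mul, map_inv, hπS]; rfl
  have hcB : π c ∈ commutator (Dq (Gn T) 2) := by
    rw [hπc]; exact mul_mem hxsB (inv_mem hsB)
  have hcs : π c * gs T * (π c)⁻¹ = gs T := by
    rw [hB _ hcB _ hsB]; group
  have hm : (mag π W).m = 1 := by
    rw [mag_m]
    simp only [W, map_mul, map_inv, hπS]
    rw [hcs]; group
  refine ⟨mag π W, ⟨W, rfl⟩, hm, ?_⟩
  have key : ∀ (a b : FreeGroup (Gn T)), (mag π b).v (Sum.inl 0) = 0 →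
      (mag π (a * b * a⁻¹ * b⁻¹)).v (Sum.inl 0) =
        (1 - oo (π a * π b * (π a)⁻¹)) * (mag π a).v (Sum.inl 0) := by
    intro a b hb
    simp only [map_mul, map_inv, Wr.mul_v, Wr.mul_m, Wr.inv_v, Wr.inv_m, mag_m, Pi.add_apply,
      Pi.smul_apply, Pi.neg_apply, smul_eq_mul, hb, mul_zero, add_zero, neg_zero, zero_add]
    noncomm_ring
  have h0P : (mag π P).v (Sum.inl 0) = 0 := by simp [P, mag_single]
  have h0Q : (mag π Q).v (Sum.inl 0) = 0 := by simp [Q, mag_single]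
  have h1X : (mag π X).v (Sum.inl 0) = 1 := by simp [X, mag_single]
  have h0S : (mag π S).v (Sum.inl 0) = 0 := by
    rw [show S = P * Q * P⁻¹ * Q⁻¹ from rfl, key P Q h0Q, h0P, mul_zero]
  have hc1 : (mag π c).v (Sum.inl 0) = 1 - oo (gx T * gs T * (gx T)⁻¹) := by
    rw [show c = X * S * X⁻¹ * S⁻¹ from rfl, key X S h0S, h1X, mul_one, hπS]; rfl
  have hW1 : (mag π W).v (Sum.inl 0) = (1 - oo (gs T)) * (1 - oo (gx T * gs T * (gx T)⁻¹)) := by
    rw [show W = c * S * c⁻¹ * S⁻¹ from rfl, key c S h0S, hc1, hπS, hcs]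
  rw [psi_apply]
  rw [hW1, ← mul_smul]
  have hcomm : oo (gx T * gs T * (gx T)⁻¹) * oo (gs T) = oo (gs T) * oo (gx T * gs T * (gx T)⁻¹) := by
    simp only [oo, ← map_mul]
    rw [hB _ hxsB _ hsB]
  have hR : ∀ r ∈ Rel Hr Vr, r • c0 (Rel Hr Vr) = 0 := by
    intro r hr
    show r • (Submodule.Quotient.mk 1 : CC (Rel Hr Vr)) = 0
    rw [← Submodule.Quotient.mk_smul, Submodule.Quotient.mk_eq_zero, smul_eq_mul, mul_one]
    exact Submodule.subset_span hr
  have hsq := hR _ (Or.inl RelB.sq)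
  have hsx := hR _ (Or.inl RelB.sx)
  generalize hu : oo (gx T * gs T * (gx T)⁻¹) = u at *
  generalize hs : oo (gs T) = s at *
  have e : (1 - s) * (1 - u) * (s - 1) = 1 + (s - 1 - 1) * (s * s - s + 1) - (1 - s) * (s - 1) * (u - s)
      + (1 - s) * (s * u - u * s) := by
    noncomm_ring
  rw [e, ← hcomm, sub_self, mul_zero, add_zero, sub_smul, add_smul, mul_smul (s - 1 - 1), hsq,
    mul_smul _ (u - s), hsx, smul_zero, smul_zero, one_smul, add_zero, sub_zero]

end Pool.Agent.Helper777.Prof
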