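import Pool.Agent.Helper777.Prof.Defs
import Pool.Agent.Helper777.Prof.P_k1_of_psep
import Pool.Agent.Helper777.Prof.P_psep_dq
import Pool.Agent.Helper777.Prof.P_HH_lift
import Pool.Agent.Helper777.Prof.P_not_gen
import Pool.Agent.Helper777.Prof.P_HH_fg
import Pool.Agent.Helper777.Prof.P_quot_P2
import Pool.Agent.Helper777.Prof.P_quot_P3
import Pool.Agent.Helper777.Prof.P_comm_dq2
import Pool.Agent.Helper777.Prof.P_estar_tiles
import Pool.Agent.Helper777.Prof.P_c0_ne
import Pool.Agent.Helper777.Prof.P_rel_finite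
import Pool.Agent.Helper777.Prof.P_rel_form
import Pool.Agent.Helper777.Prof.P_w0_exists
import Pool.Agent.Helper777.Prof.P_indep
import Pool.Agent.Helper777.Prof.P_ker_aug
import Pool.Agent.Helper777.Prof.P_tiles
import Pool.Agent.Helper777.Prof.P_range_iso
import Pool.Agent.Helper777.Prof.P_rf_dq
import Pool.Agent.Helper777.Prof.P_rf_of_inj

set_option autoImplicit false
set_option linter.all false

namespace Pool.Agent.Helper777.Prof

theorem cl_fix {M : Type} [Group M] {R : Set (MonoidAlgebra ℤ M)} (x y : M)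
    (hx : oo x • c0 R = c0 R) (hy : oo y • c0 R = c0 R) (b : M)
    (hb : b ∈ Subgroup.closure {x, y}) : oo b • c0 R = c0 R := by
  refine Subgroup.closure_induction (p := fun b _ => oo b • c0 R = c0 R) ?_ ?_ ?_ ?_ hb
  · rintro z (rfl | rfl)
    · exact hx
    · exact hy
  · show MonoidAlgebra.of ℤ M 1 • c0 R = c0 R
    rw [map_one, one_smul]
  · intro a b _ _ ha hb
    show MonoidAlgebra.of ℤ M (a * b) • c0 R = c0 R
    rw [map_mul, mul_smul]
    show oo a • oo b • c0 R = c0 R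
    rw [hb, ha]
  · intro a _ ha
    have h : oo a⁻¹ • (oo a • c0 R) = c0 R := by
      show MonoidAlgebra.of ℤ M a⁻¹ • MonoidAlgebra.of ℤ M a • c0 R = c0 R
      rw [← mul_smul, ← map_mul, inv_mul_cancel, map_one, one_smul]
    rwa [ha] at h

theorem rel_smul {M : Type} [Group M] {R : Set (MonoidAlgebra ℤ M)} (r : MonoidAlgebra ℤ M)
    (hr : r ∈ R) : r • c0 R = 0 := by
  show r • (Submodule.Quotient.mk 1 : CC R) = 0
  rw [← Submodule.Quotient.mk_smul, Submodule.Quotient.mk_eq_zero, smul_eq_mul, mul_one]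
  exact Submodule.subset_span hr

theorem main_gen : ∃ (ι : Type) (_ : Fintype ι) (H : Type) (_ : Group H),
    Nonempty ι ∧ Group.FG H ∧ RF0 H ∧
    (∀ (Q : Type) [Group Q] [Finite Q],
      (∃ f : H →* Q, Function.Surjective f) ↔ (∃ f : Dq ι 3 →* Q, Function.Surjective f)) ∧
    IsEmpty (H ≃* Dq ι 3) := by
  classical
  obtain ⟨T, hT1, hT2, Hr, Vr, hex, hper⟩ := tiles
  have hE := estar_tiles Hr Vr hper
  have hc0 := c0_ne Hr Vr hex
  obtain ⟨w0, hw0, hm, hψ⟩ := w0_exists Hr Vr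
  obtain ⟨b1, b2, hc, hi, hb1, hb2⟩ := indep T
  have hπ : Function.Surjective (pn (Gn T) 2) := QuotientGroup.mk'_surjective _
  have hfin : (Rel Hr Vr).Finite := rel_finite Hr Vr
  have hform := rel_form Hr Vr
  have hB := comm_dq2 (Gn T)
  have hx : oo (gx T) • c0 (Rel Hr Vr) = c0 (Rel Hr Vr) := by
    have := rel_smul (R := Rel Hr Vr) (oo (gx T) - 1) (Or.inr (Or.inl rfl))
    rwa [sub_smul, one_smul, sub_eq_zero] at this
  have hy : oo (gy T) • c0 (Rel Hr Vr) = c0 (Rel Hr Vr) := by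
    have := rel_smul (R := Rel Hr Vr) (oo (gy T) - 1) (Or.inr (Or.inr rfl))
    rwa [sub_smul, one_smul, sub_eq_zero] at this
  have h1 := cl_fix (R := Rel Hr Vr) _ _ hx hy b1 hb1
  have h2 := cl_fix (R := Rel Hr Vr) _ _ hx hy b2 hb2
  have hK1 : K1 (Dq (Gn T) 2) := k1_of_psep (psep_dq (Gn T))
  obtain ⟨ee⟩ := range_iso (Gn T)
  refine ⟨Gn T, inferInstance, HH (pn (Gn T) 2) (psi Hr Vr), inferInstance, ⟨Sum.inl 0⟩, ?_, ?_, ?_, ?_⟩
  · have := HH_fg hfin (pn (Gn T) 2) hπ (psi Hr Vr) w0 hw0 hm hψ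
    exact (Group.fg_iff_subgroup_fg _).mpr this
  · have hle : HH (pn (Gn T) 2) (psi Hr Vr) ≤ (mag (pn (Gn T) 2)).range := fun w hw => hw.1
    refine rf_of_inj (ee.toMonoidHom.comp (Subgroup.inclusion hle)) ?_ (rf_dq (Gn T) 3)
    exact ee.injective.comp (Subgroup.inclusion_injective hle)
  · intro Q _ _
    constructor
    · rintro ⟨f, hf⟩
      obtain ⟨f', hf'⟩ := quot_P3 hB hform (pn (Gn T) 2) hπ (psi Hr Vr) w0 hw0 hm hψ hE Q f hf
      exact ⟨f'.comp ee.symm.toMonoidHom, hf'.comp ee.symm.surjective⟩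
    · rintro ⟨f, hf⟩
      exact quot_P2 (pn (Gn T) 2) hπ (psi Hr Vr) w0 hw0 hm hψ hE Q (f.comp ee.toMonoidHom)
        (hf.comp ee.surjective)
  · refine ⟨fun φ => ?_⟩
    let y : Gn T → Wr ℤ (Dq (Gn T) 2) (Gn T) := fun i =>
      (φ.symm (pn (Gn T) 3 (FreeGroup.of i)) : Wr ℤ (Dq (Gn T) 2) (Gn T))
    refine not_gen (pn (Gn T) 2) hπ (psi Hr Vr) hc0 w0 hw0 hm hψ b1 b2 hc hi h1 h2 hK1 ?_ y ?_
    · intro w hw i
      exact ker_aug w hw i
    · have hcl : Subgroup.closure (Set.range (fun i : Gn T => pn (Gn T) 3 (FreeGroup.of i))) = ⊤ := by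
        have := FreeGroup.closure_range_of (Gn T)
        have h3 := congrArg (Subgroup.map (pn (Gn T) 3)) this
        rw [MonoidHom.map_closure, ← Set.range_comp] at h3
        rw [show (fun i : Gn T => pn (Gn T) 3 (FreeGroup.of i)) = (pn (Gn T) 3) ∘ FreeGroup.of from rfl, h3]
        exact Subgroup.map_top_of_surjective _ (QuotientGroup.mk'_surjective _)
      have h4 := congrArg (Subgroup.map
        ((HH (pn (Gn T) 2) (psi Hr Vr)).subtype.comp φ.symm.toMonoidHom)) hcl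
      rw [MonoidHom.map_closure, ← Set.range_comp] at h4
      rw [show y = ((HH (pn (Gn T) 2) (psi Hr Vr)).subtype.comp φ.symm.toMonoidHom) ∘
        (fun i : Gn T => pn (Gn T) 3 (FreeGroup.of i)) from rfl, h4]
      ext z
      constructor
      · rintro ⟨u, _, rfl⟩
        exact (φ.symm u).2
      · intro hz
        refine ⟨φ ⟨z, hz⟩, Subgroup.mem_top _, ?_⟩
        show ((φ.symm (φ ⟨z, hz⟩) : HH (pn (Gn T) 2) (psi Hr Vr)) : Wr ℤ (Dq (Gn T) 2) (Gn T)) = z
        rw [MulEquiv.symm_apply_apply]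


theorem rf_surj {G : Type} [Group G] (h : RF0 G) :
    ∀ g : G, g ≠ 1 → ∃ (Q : Type) (_ : Group Q) (_ : Finite Q) (f : G →* Q),
      Function.Surjective f ∧ f g ≠ 1 := by
  intro g hg
  obtain ⟨Q, _, _, f, hf⟩ := h g hg
  refine ⟨f.range, inferInstance, inferInstance, f.rangeRestrict, f.rangeRestrict_surjective, ?_⟩
  intro h1
  apply hf
  have := congrArg (Subtype.val) h1
  simpa using this

theorem dq_congr (ι κ : Type) (e : ι ≃ κ) (n : ℕ) : Nonempty (Dq ι n ≃* Dq κ n) := by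
  let E : FreeGroup ι ≃* FreeGroup κ := FreeGroup.freeGroupCongr e
  exact ⟨QuotientGroup.congr _ _ E (map_derivedSeries_eq (f := E.toMonoidHom) E.surjective n)⟩

end Pool.Agent.Helper777.Prof
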