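import Pool.Agent.Helper777.Prof.Defs

set_option autoImplicit false
set_option linter.all false

namespace Pool.Agent.Helper777.Prof

theorem rel_finite {T : Type} [Fintype T] (Hr Vr : T → T → Prop) : (Rel Hr Vr).Finite := by
  classical
  unfold Rel
  apply Set.Finite.union
  · apply Set.Finite.subset (s := (({oo (gs T) * oo (gs T) - oo (gs T) + 1,
        oo (gx T * gs T * (gx T)⁻¹) - oo (gs T), oo (gy T * gs T * (gy T)⁻¹) - oo (gs T),
        (∑ t : T, (oo (gb t) - 1)) - (oo (gs T) - 1)} : Set (MonoidAlgebra ℤ (Dq (Gn T) 2)))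
        ∪ Set.range (fun q : T × T => (oo (gb q.1) - 1) * (oo (gb q.2) - 1))
        ∪ Set.range (fun q : T × T => (oo (gb q.1) - 1) * (oo (gx T * gb q.2 * (gx T)⁻¹) - 1))
        ∪ Set.range (fun q : T × T => (oo (gb q.1) - 1) * (oo (gy T * gb q.2 * (gy T)⁻¹) - 1))))
    · refine Set.Finite.union (Set.Finite.union (Set.Finite.union ?_ (Set.finite_range _))
        (Set.finite_range _)) (Set.finite_range _)
      exact Set.toFinite _
    · intro f hf
      have hf' : RelB Hr Vr f := hf
      cases hf' with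
      | sq => exact Or.inl (Or.inl (Or.inl (by simp)))
      | sx => exact Or.inl (Or.inl (Or.inl (by simp)))
      | sy => exact Or.inl (Or.inl (Or.inl (by simp)))
      | two t t' h => exact Or.inl (Or.inl (Or.inr ⟨(t, t'), rfl⟩))
      | sum => exact Or.inl (Or.inl (Or.inl (by simp)))
      | hor t t' h => exact Or.inl (Or.inr ⟨(t, t'), rfl⟩)
      | ver t t' h => exact Or.inr ⟨(t, t'), rfl⟩
  · exact Set.toFinite _

end Pool.Agent.Helper777.Prof
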